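import Pool.Agent.H943R3.PP.Base
import Pool.Agent.H620R2.Gauge.U1

/-!
# `PP` relative to an oracle is contained in polynomial space
-/

namespace Pool.Agent.H943R3.PP

open Pool.Agent.NPC Pool.Agent.H622R2 Pool.Agent.H620R2.Gauge

namespace N2

open Pool.Agent.H620R2.Gauge.U1

/-- the number of the candidate, the number of successful candidates so far, and the memory of the
algorithm -/
def dst3 (s : List Bool) : ℕ × ℕ × List Bool :=
  (unbits (ℕ × ℕ × List Bool) s).getD (1, 0, [])

theorem dst3_nil : dst3 [] = (1, 0, []) := rfl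

theorem dst3_bits (t : ℕ × ℕ × List Bool) : dst3 (bits t) = t := by
  unfold dst3
  rw [unbits_bits]
  rfl

theorem poly_dst3 : Poly dst3 := Poly.optGetD poly_unbits (NPC.Poly.const _)

/-- the new number of successful candidates -/
def cN (M : SAlg) (β : List Bool → ℕ) (y : List Bool) (t : ℕ × ℕ × List Bool) : ℕ :=
  if inAct M y (t.1, t.2.2) = [true, true] then
    (if t.1.bits.length = β y + 1 then t.2.1 + 1 else t.2.1)
  else t.2.1

/-- what the new algorithm does next -/
def mA (M : SAlg) (β : List Bool → ℕ) (y : List Bool) (t : ℕ × ℕ × List Bool) : List Bool :=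
  if (inAct M y (t.1, t.2.2)).head? = some true then
    (if β y + 1 < (t.1 + 1).bits.length then
      (if t.1 + 1 < 4 * cN M β y t then [true, true] else [true])
    else [false])
  else inAct M y (t.1, t.2.2)

/-- the new memory -/
def mN (M : SAlg) (β : List Bool → ℕ) (y : List Bool) (b : Bool) (t : ℕ × ℕ × List Bool) :
    ℕ × ℕ × List Bool :=
  if (inAct M y (t.1, t.2.2)).head? = some true then (t.1 + 1, cN M β y t, [])
  else (t.1, t.2.1, M.next (pairBits (pairBits (cand t.1) y) (b :: t.2.2)))

section

attribute [local fun_prop] poly_pairBits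

attribute [local irreducible] unpair dst3

theorem poly_in (M : SAlg) :
    Poly (fun v : List Bool × ℕ × ℕ × List Bool => inAct M v.1 (v.2.1, v.2.2.2)) :=
  (poly_inAct M).comp (f := fun v : List Bool × ℕ × ℕ × List Bool => (v.1, (v.2.1, v.2.2.2)))
    (by fun_prop)

theorem poly_cN (M : SAlg) {β : List Bool → ℕ} (hβ : UPoly β) :
    Poly (fun v : List Bool × ℕ × ℕ × List Bool => cN M β v.1 v.2) := by
  have h1 := poly_in M
  have h2 : Poly (fun v : List Bool × ℕ × ℕ × List Bool => β v.1) := hβ.toPoly.comp (by fun_prop)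
  have h5 : Poly (fun n : ℕ => n.bits) := Poly.natBits Poly.id
  have h3 : Poly (fun v : List Bool × ℕ × ℕ × List Bool => v.2.1.bits.length) :=
    Poly.length (h5.comp (f := fun v : List Bool × ℕ × ℕ × List Bool => v.2.1) (by fun_prop))
  have h6 : Poly (fun v : List Bool × ℕ × ℕ × List Bool => v.2.2.1) := by fun_prop
  unfold cN
  exact Poly.ite (Poly.decide_eq h1 (NPC.Poly.const _)) (Poly.ite (Poly.decide_eq h3
    (Poly.add h2 (NPC.Poly.const 1))) (Poly.add h6 (NPC.Poly.const 1)) h6) h6

theorem poly_mA (M : SAlg) {β : List Bool → ℕ} (hβ : UPoly β) :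
    Poly (fun v : List Bool × ℕ × ℕ × List Bool => mA M β v.1 v.2) := by
  have h1 := poly_in M
  have h2 : Poly (fun v : List Bool × ℕ × ℕ × List Bool => β v.1) := hβ.toPoly.comp (by fun_prop)
  have h5 : Poly (fun n : ℕ => n.bits) := Poly.natBits Poly.id
  have h7 : Poly (fun v : List Bool × ℕ × ℕ × List Bool => v.2.1 + 1) := by fun_prop
  have h3 : Poly (fun v : List Bool × ℕ × ℕ × List Bool => (v.2.1 + 1).bits.length) :=
    Poly.length (h5.comp (f := fun v : List Bool × ℕ × ℕ × List Bool => v.2.1 + 1) h7)
  have h4 := poly_cN M hβ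
  unfold mA
  exact Poly.ite (Poly.decide_eq (Poly.head? h1) (NPC.Poly.const _))
    (Poly.ite (Poly.decide_lt (Poly.add h2 (NPC.Poly.const 1)) h3)
      (Poly.ite (Poly.decide_lt h7 (Poly.mul (NPC.Poly.const 4) h4)) (NPC.Poly.const _)
        (NPC.Poly.const _)) (NPC.Poly.const _)) h1

theorem poly_mN (M : SAlg) {β : List Bool → ℕ} (hβ : UPoly β) :
    Poly (fun v : Bool × List Bool × ℕ × ℕ × List Bool => mN M β v.2.1 v.1 v.2.2) := by
  have h1 : Poly (fun v : Bool × List Bool × ℕ × ℕ × List Bool =>
      inAct M v.2.1 (v.2.2.1, v.2.2.2.2)) :=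
    (poly_in M).comp (f := fun v : Bool × List Bool × ℕ × ℕ × List Bool => v.2) (by fun_prop)
  have h4 : Poly (fun v : Bool × List Bool × ℕ × ℕ × List Bool => cN M β v.2.1 v.2.2) :=
    (poly_cN M hβ).comp (f := fun v : Bool × List Bool × ℕ × ℕ × List Bool => v.2) (by fun_prop)
  have h6 := poly_of_polyTime M.next_poly
  have h7 := poly_cand
  have h8 : Poly (fun v : Bool × List Bool × ℕ × ℕ × List Bool => M.next (pairBits
      (pairBits (cand v.2.2.1) v.2.1) (v.1 :: v.2.2.2.2))) := by fun_prop
  unfold mN
  exact Poly.ite (Poly.decide_eq (Poly.head? h1) (NPC.Poly.const _))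
    (Poly.pair (by fun_prop) (Poly.pair h4 (NPC.Poly.const _)))
    (Poly.pair (by fun_prop) (Poly.pair (by fun_prop) h8))

theorem poly_act (M : SAlg) {β : List Bool → ℕ} (hβ : UPoly β) :
    Poly (fun v : List Bool => mA M β (unpair v).1 (dst3 (unpair v).2)) := by
  have h2 := poly_unpair
  have h3 := poly_dst3
  exact (poly_mA M hβ).comp (f := fun v : List Bool => ((unpair v).1, dst3 (unpair v).2))
    (by fun_prop)

theorem poly_next (M : SAlg) {β : List Bool → ℕ} (hβ : UPoly β) :
    Poly (fun v : List Bool => mN M β (unpair v).1 ((unpair v).2.head?.getD false)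
      (dst3 (unpair v).2.tail)) := by
  have h2 := poly_unpair
  have h3 := poly_dst3
  exact (poly_mN M hβ).comp (f := fun v : List Bool => ((unpair v).2.head?.getD false,
    (unpair v).1, dst3 (unpair v).2.tail)) (by fun_prop)

end

open Classical in
/-- the number of successful candidates of the right length below `n` -/
noncomputable def cc (r : ℕ) (y : List Bool) (L : Set (List Bool)) (n : ℕ) : ℕ :=
  ((Finset.range n).filter (fun m => m.bits.length = r + 1 ∧ pairBits (cand m) y ∈ L)).card

open Classical in
theorem cc_succ (r : ℕ) (y : List Bool) (L : Set (List Bool)) (n : ℕ) :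
    cc r y L (n + 1) = cc r y L n +
      (if n.bits.length = r + 1 ∧ pairBits (cand n) y ∈ L then 1 else 0) := by
  unfold cc
  rw [Finset.range_add_one, Finset.filter_insert]
  split_ifs with h
  · rw [Finset.card_insert_of_notMem (by simp)]
  · rfl

theorem cc_one (r : ℕ) (y : List Bool) (L : Set (List Bool)) : cc r y L 1 = 0 := by
  unfold cc
  simp

theorem majority {A : Oracle} {L : Set (List Bool)} (h : IsPSPACE A L)
    {β : List Bool → ℕ} (hβ : UPoly β) :
    IsPSPACE A {y | 2 ^ β y < 2 * cc (β y) y L (2 ^ (β y + 1))} := by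
  classical
  obtain ⟨M, p, hM⟩ := h
  obtain ⟨q, hq⟩ := Poly.sz_le hβ
  have hqb : ∀ y, β y ≤ (q.comp (Polynomial.C 4 * Polynomial.X + Polynomial.C 1)).eval y.length := by
    intro y
    refine A2.sz_eval_le ?_
    have h1 := length_lt_sz (List.replicate (β y) ())
    rw [List.length_replicate] at h1
    exact h1.le.trans (hq y)
  let N : SAlg := ⟨fun v => mA M β (unpair v).1 (dst3 (unpair v).2),
    polyTime_of_poly_list (poly_act M hβ),
    fun v => bits (mN M β (unpair v).1 ((unpair v).2.head?.getD false) (dst3 (unpair v).2.tail)),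
    polyTime_bits (poly_next M hβ)⟩
  refine ⟨N, Polynomial.C 8 * (q.comp (Polynomial.C 4 * Polynomial.X + Polynomial.C 1) +
    Polynomial.C 1) + Polynomial.C 3 + (Polynomial.C 4 * p.comp (Polynomial.C 2 *
    q.comp (Polynomial.C 4 * Polynomial.X + Polynomial.C 1) + Polynomial.C 1 + Polynomial.X) +
    Polynomial.C 1) + Polynomial.C 1, fun y => ?_⟩
  have hact : ∀ s, N.act (pairBits y s) = mA M β y (dst3 s) := fun s => by
    show mA M β (unpair (pairBits y s)).1 (dst3 (unpair (pairBits y s)).2) = _
    rw [unpair_pairBits]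
  have hnext : ∀ b s, N.next (pairBits y (b :: s)) = bits (mN M β y b (dst3 s)) := fun b s => by
    show bits (mN M β (unpair (pairBits y (b :: s))).1
      ((unpair (pairBits y (b :: s))).2.head?.getD false)
      (dst3 (unpair (pairBits y (b :: s))).2.tail)) = _
    rw [unpair_pairBits]
    rfl
  -- the memory of the given algorithm occurs
  have inv : ∀ s, N.Reach A y s → 1 ≤ (dst3 s).1 ∧ (dst3 s).1.bits.length ≤ β y + 1 ∧
      M.Reach A (pairBits (cand (dst3 s).1) y) (dst3 s).2.2 ∧ (dst3 s).2.1 < (dst3 s).1 ∧
      (s = [] ∨ s = bits (dst3 s)) := by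
    intro s hs
    induction hs with
    | start =>
        rw [dst3_nil]
        exact ⟨le_rfl, by simp, SAlg.Reach.start, by simp, Or.inl rfl⟩
    | @step s r hs hr ih =>
        obtain ⟨h1, h2, h3, h4, h5⟩ := ih
        rw [hact] at hr
        rw [hnext, dst3_bits]
        unfold mA at hr
        unfold mN
        by_cases c2 : (inAct M y ((dst3 s).1, (dst3 s).2.2)).head? = some true
        · rw [if_pos c2] at hr ⊢
          by_cases c3 : β y + 1 < ((dst3 s).1 + 1).bits.length
          · rw [if_pos c3] at hr
            split_ifs at hr <;> simp at hr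
          · refine ⟨by simp, not_lt.1 c3, SAlg.Reach.start, ?_, Or.inr rfl⟩
            show cN M β y (dst3 s) < (dst3 s).1 + 1
            unfold cN
            split_ifs <;> omega
        · rw [if_neg c2] at hr ⊢
          exact ⟨h1, h2, SAlg.Reach.step h3 hr, h4, Or.inr rfl⟩
  -- simulation
  have sim : ∀ n c s, N.Reach A y s → dst3 s = (n, c, []) →
      ∀ t, M.Reach A (pairBits (cand n) y) t → ∃ s', N.Reach A y s' ∧ dst3 s' = (n, c, t) := by
    intro n c s hs hd t ht
    induction ht with
    | start => exact ⟨s, hs, hd⟩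
    | @step t r ht hr ih =>
        obtain ⟨s', h1, h2⟩ := ih
        have hin : inAct M y (n, t) = false :: r := hr
        have h3 : N.act (pairBits y s') = false :: r := by
          rw [hact, h2]
          simp [mA, hin]
        have h4 := SAlg.Reach.step h1 h3
        refine ⟨_, h4, ?_⟩
        rw [hnext, dst3_bits, h2]
        simp [mN, hin]
  have hcN : ∀ n c t z, inAct M y (n, t) = true :: z → (pairBits (cand n) y ∈ L ↔ z = [true]) →
      cN M β y (n, c, t) = c + (if n.bits.length = β y + 1 ∧ pairBits (cand n) y ∈ L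
        then 1 else 0) := by
    intro n c t z hin hz
    unfold cN
    simp only [hin]
    by_cases h1 : z = [true]
    · rw [if_pos (by rw [h1])]
      by_cases h2 : n.bits.length = β y + 1
      · rw [if_pos h2, if_pos ⟨h2, hz.2 h1⟩]
      · rw [if_neg h2, if_neg (fun h => h2 h.1)]
        rfl
    · rw [if_neg (by simpa using h1), if_neg (fun h => h1 (hz.1 h.2))]
      rfl
  have adv : ∀ n c s, N.Reach A y s → dst3 s = (n, c, []) →
      (n + 1).bits.length ≤ β y + 1 → ∃ s', N.Reach A y s' ∧ dst3 s' = (n + 1,
        c + (if n.bits.length = β y + 1 ∧ pairBits (cand n) y ∈ L then 1 else 0), []) := by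
    intro n c s hs hd hlen
    obtain ⟨_, t, z, h2, h3, h4⟩ := hM (pairBits (cand n) y)
    obtain ⟨s', h5, h6⟩ := sim n c s hs hd t h2
    have hin : inAct M y (n, t) = true :: z := h3
    have h7 : N.act (pairBits y s') = false :: [] := by
      rw [hact, h6]
      unfold mA
      simp only [hin]
      rw [if_pos (by simp), if_neg (by simpa using hlen)]
    have h8 := SAlg.Reach.step h5 h7
    refine ⟨_, h8, ?_⟩
    rw [hnext, dst3_bits, h6, ← hcN n c t z hin h4]
    unfold mN
    simp only [hin]
    rw [if_pos (by simp)]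
  have reach : ∀ n, 1 ≤ n → n.bits.length ≤ β y + 1 →
      ∃ s, N.Reach A y s ∧ dst3 s = (n, cc (β y) y L n, []) := by
    intro n hn
    induction n, hn using Nat.le_induction with
    | base => exact fun _ => ⟨[], SAlg.Reach.start, by rw [cc_one]; exact dst3_nil⟩
    | succ n hn ih =>
        intro h1
        obtain ⟨s, h3, h4⟩ := ih ((bits_length_mono (Nat.le_succ n)).trans h1)
        obtain ⟨s', h5, h6⟩ := adv n _ s h3 h4 h1
        exact ⟨s', h5, by rw [h6, cc_succ]⟩
  refine ⟨fun s hs => ?_, ?_⟩
  · obtain ⟨h1, h2, h3, h4, h5⟩ := inv s hs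
    rcases h5 with h5 | h5
    · rw [h5]
      simp
    · rw [h5, bits_length]
      generalize dst3 s = t at h1 h2 h3 h4
      obtain ⟨n, c, t⟩ := t
      rw [sz_pair, sz_pair]
      have e0 := sz_nat_le c
      rw [← Nat.size_eq_bits_len] at e0
      have e1 := sz_nat_le n
      rw [← Nat.size_eq_bits_len] at e1
      have e7 := bits_length_mono h4.le
      have e2 := sz_listBool_le t
      have e3 := (hM (pairBits (cand n) y)).1 t h3
      have e4 : (pairBits (cand n) y).length ≤ (Polynomial.C 2 *
          q.comp (Polynomial.C 4 * Polynomial.X + Polynomial.C 1) + Polynomial.C 1 +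
          Polynomial.X).eval y.length := by
        rw [length_pairBits, length_cand]
        have := hqb y
        simp only [Polynomial.eval_add, Polynomial.eval_mul, Polynomial.eval_C,
          Polynomial.eval_X] at this ⊢
        simp only at h2
        omega
      have e5 := eval_mono p e4
      have e6 := hqb y
      simp only at h2 e7
      rw [Polynomial.eval_add, Polynomial.eval_add, Polynomial.eval_add, Polynomial.eval_add,
        Polynomial.eval_mul, Polynomial.eval_add, Polynomial.eval_mul, Polynomial.eval_comp (p := p)]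
      simp only [Polynomial.eval_C]
      omega
  · have hlast : (2 ^ (β y + 1) - 1).bits.length ≤ β y + 1 := by
      rw [Nat.size_eq_bits_len, Nat.size_le]
      have : 0 < 2 ^ (β y + 1) := by positivity
      omega
    have hpos : 1 ≤ 2 ^ (β y + 1) - 1 := by
      have : 2 ^ 1 ≤ 2 ^ (β y + 1) := Nat.pow_le_pow_right (by norm_num) (by omega)
      omega
    obtain ⟨s, h4, h5⟩ := reach _ hpos hlast
    obtain ⟨_, t, z, h6, h7, h8⟩ := hM (pairBits (cand (2 ^ (β y + 1) - 1)) y)
    obtain ⟨s', h9, h10⟩ := sim _ _ s h4 h5 t h6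
    have hin : inAct M y (2 ^ (β y + 1) - 1, t) = true :: z := h7
    have hsucc : 2 ^ (β y + 1) - 1 + 1 = 2 ^ (β y + 1) := by omega
    have hc := hcN _ (cc (β y) y L (2 ^ (β y + 1) - 1)) t z hin h8
    rw [← cc_succ, hsucc] at hc
    have hA : N.act (pairBits y s') = if 2 ^ (β y + 1) < 4 * cc (β y) y L (2 ^ (β y + 1)) then
        [true, true] else [true] := by
      rw [hact, h10]
      unfold mA
      rw [hc]
      simp only [hin]
      rw [if_pos (by simp), if_pos, hsucc]
      rw [Nat.size_eq_bits_len, hsucc]
      exact Nat.lt_size.2 le_rfl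
    have hiff : y ∈ {y | 2 ^ β y < 2 * cc (β y) y L (2 ^ (β y + 1))} ↔
        2 ^ (β y + 1) < 4 * cc (β y) y L (2 ^ (β y + 1)) := by
      rw [Set.mem_ofPred_eq, pow_succ]
      generalize cc (β y) y L (2 ^ β y * 2) = c
      omega
    by_cases hyes : 2 ^ (β y + 1) < 4 * cc (β y) y L (2 ^ (β y + 1))
    · exact ⟨s', [true], h9, by rw [hA, if_pos hyes], by simp only [hiff, hyes]⟩
    · exact ⟨s', [], h9, by rw [hA, if_neg hyes], by simp only [hiff, hyes]; simp⟩

/-! ### Counting the random strings -/

theorem bits_cand (n : ℕ) (hn : 1 ≤ n) : n.bits = cand n ++ [true] := by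
  induction n using Nat.binaryRec with
  | zero => omega
  | bit b n ih =>
    rcases Nat.eq_zero_or_pos n with h | h
    · subst h
      cases b
      · simp at hn
      · rfl
    · have h1 := ih h
      have h2 : (Nat.bit b n).bits = b :: n.bits :=
        Nat.bits_append_bit _ _ (fun h0 => absurd h0 (by omega))
      unfold cand
      rw [h2, h1]
      rw [show b :: (cand n ++ [true]) = (b :: cand n) ++ [true] from rfl, List.dropLast_concat]

theorem bits_valB' (n : ℕ) : valB n.bits = n := by
  induction n using Nat.binaryRec with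
  | zero => rfl
  | bit b n ih =>
    rcases Nat.eq_zero_or_pos n with h | h
    · subst h
      cases b <;> rfl
    · have h2 : (Nat.bit b n).bits = b :: n.bits :=
        Nat.bits_append_bit _ _ (fun h0 => absurd h0 (by omega))
      rw [h2, valB_cons, ih]
      cases b
      · simp [Nat.bit]
      · simp [Nat.bit]
        omega

open Classical in
theorem card_eq_cc' (L : Set (List Bool)) (r : ℕ) (x : List Bool) :
    Nat.card {w : Fin r → Bool // pairBits (List.ofFn w) x ∈ L} =
      cc r x L (2 ^ (r + 1)) := by
  unfold cc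
  rw [Nat.card_eq_fintype_card, Fintype.card_subtype]
  refine Finset.card_bij (fun w _ => valB (List.ofFn w ++ [true])) ?_ ?_ ?_
  · intro w hw
    obtain ⟨h1, h2⟩ := bits_valB (List.ofFn w)
    have hc : cand (valB (List.ofFn w ++ [true])) = List.ofFn w := by
      rw [cand, h2]; simp
    have hl : (valB (List.ofFn w ++ [true])).bits.length = r + 1 := by
      rw [h2]; simp
    rw [Finset.mem_filter, Finset.mem_range]
    refine ⟨?_, hl, ?_⟩
    · rw [Nat.size_eq_bits_len] at hl
      exact Nat.size_le.1 hl.le
    · rw [hc]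
      exact (Finset.mem_filter.1 hw).2
  · intro w _ w' _ h
    have h1 := (bits_valB (List.ofFn w)).2
    have h2 := (bits_valB (List.ofFn w')).2
    have h3 : valB (List.ofFn w ++ [true]) = valB (List.ofFn w' ++ [true]) := h
    rw [h3, h2] at h1
    exact (List.ofFn_injective (List.append_cancel_right h1)).symm
  · intro n hn
    rw [Finset.mem_filter, Finset.mem_range] at hn
    obtain ⟨h1, h2, h3⟩ := hn
    have hpos : 1 ≤ n := by
      rcases Nat.eq_zero_or_pos n with h | h
      · subst h; simp at h2
      · exact h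
    have h4 := bits_cand n hpos
    have h5 : (cand n).length = r := by
      rw [length_cand, h2]; rfl
    have h6 : List.ofFn (fun i : Fin r => (cand n).get (i.cast h5.symm)) = cand n := by
      subst h5
      exact List.ofFn_get _
    refine ⟨fun i : Fin r => (cand n).get (i.cast h5.symm), ?_, ?_⟩
    · rw [Finset.mem_filter]
      refine ⟨Finset.mem_univ _, ?_⟩
      rw [h6]
      exact h3
    · show valB (List.ofFn (fun i : Fin r => (cand n).get (i.cast h5.symm)) ++ [true]) = n
      rw [h6]
      rw [← h4, bits_valB']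

theorem card_eq_cc (V : List Bool → List Bool) (r : ℕ) (x : List Bool) :
    Nat.card {w : Fin r → Bool // V (pairBits (List.ofFn w) x) = [true]} =
      cc r x {z | V z = [true]} (2 ^ (r + 1)) :=
  card_eq_cc' {z | V z = [true]} r x

end N2

/-- N2 -/
theorem isPSPACE_of_isPP {A : Oracle} {L : Set (List Bool)} (h : IsPP A L) : IsPSPACE A L := by
  obtain ⟨V, p, hV, hL⟩ := h
  have h1 : IsPSPACE A {z | V z = [true]} := IsP.isPSPACE ⟨V, hV, fun x => Iff.rfl⟩
  have hβ : UPoly (fun y : List Bool => p.eval y.length) :=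
    UPoly.eval (UPoly.length Poly.id) p
  have h2 := N2.majority h1 hβ
  have e : {y : List Bool | 2 ^ p.eval y.length <
      2 * N2.cc (p.eval y.length) y {z | V z = [true]} (2 ^ (p.eval y.length + 1))} = L := by
    ext x
    rw [Set.mem_ofPred_eq, ← N2.card_eq_cc]
    obtain ⟨h3, h4⟩ := hL x
    unfold accPr at h3 h4
    generalize Nat.card {w : Fin (p.eval x.length) → Bool //
      V (pairBits (List.ofFn w) x) = [true]} = c at h3 h4
    have hpos : (0 : ℝ) < 2 ^ p.eval x.length := by positivity
    constructor
    · intro h5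
      by_contra h6
      have h7 := h4 h6
      rw [div_lt_div_iff₀ hpos (by norm_num)] at h7
      have h8 : (2 : ℝ) ^ p.eval x.length < 2 * c := by exact_mod_cast h5
      linarith
    · intro h5
      have h7 := h3 h5
      rw [div_lt_div_iff₀ (by norm_num) hpos] at h7
      have h8 : (2 : ℝ) ^ p.eval x.length < 2 * c := by linarith
      exact_mod_cast h8
  rwa [e] at h2

end Pool.Agent.H943R3.PP
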