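import Pool.Agent.H943R3.PP.Base
import Pool.Agent.H620R2.Gauge.A2
import Pool.Agent.H620R2.Gauge.S
import Pool.Agent.H620R2.GaugeR.Seq

/-!
# Task N4: the exact count language is in `PP`
-/

namespace Pool.Agent.H943R3.PP

open Pool.Agent.NPC Pool.Agent.H620R2.Gauge Finset H568R2 Pool.Agent.H676

namespace N4

/-! ### polynomial-time list operations -/

theorem map_fst_zip_take {α β : Type} : ∀ (l : List α) (l' : List β),
    (l.zip l').map Prod.fst = l.take l'.length
  | [], l' => by simp
  | a :: l, [] => by simp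
  | a :: l, b :: l' => by simp [map_fst_zip_take l l']

theorem poly_take {α β : Type} [TEnc α] [TEnc β] {l : α → List β} {n : α → ℕ} (hl : Poly l)
    (hn : UPoly n) : Poly (fun a => (l a).take (n a)) := by
  have h1 : Poly (fun a => (l a).zip (List.replicate (n a) ())) := Poly.zip hl hn
  refine (NPC.Poly.map (F := fun _ p => p.1) h1 (Poly.fst (Poly.snd Poly.id))).congr fun a => ?_
  have := map_fst_zip_take (l a) (List.replicate (n a) ())
  rw [List.length_replicate] at this
  exact this

theorem poly_drop {α β : Type} [TEnc α] [TEnc β] {l : α → List β} {k : α → ℕ} (hl : Poly l)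
    (hk : UPoly k) : Poly (fun a => (l a).drop (k a)) := by
  have h1 : UPoly (fun a => (l a).length - k a) :=
    UPoly.of_le (Poly.sub (Poly.length hl) hk.toPoly) (UPoly.length hl) (fun a => Nat.sub_le _ _)
  refine (Poly.reverse (poly_take (Poly.reverse hl) h1)).congr fun a => ?_
  rw [List.take_reverse, List.reverse_reverse]
  by_cases h : k a ≤ (l a).length
  · congr 1
    omega
  · rw [List.drop_of_length_le (by omega), List.drop_of_length_le (by omega)]

/-- powers of two -/
def pw (n : ℕ) : ℕ := valB (List.replicate n false ++ [true])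

theorem pw_eq (n : ℕ) : pw n = 2 ^ n := by
  unfold pw
  rw [valB_replicate_false]
  simp

theorem poly_pw {α : Type} [TEnc α] {n : α → ℕ} (hn : UPoly n) : Poly (fun a => pw (n a)) := by
  unfold pw
  refine Poly.valBits (Poly.append ?_ (NPC.Poly.const _))
  refine (NPC.Poly.map (F := fun _ (_ : Unit) => false) hn (NPC.Poly.const false)).congr fun a => ?_
  rw [List.map_replicate]

theorem length_ustep (s : List Bool × List Bool × Bool) :
    (ustep s).2.1.length ≤ s.2.1.length := by
  obtain ⟨a, l, b⟩ := s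
  unfold ustep
  cases b with
  | true => simp
  | false =>
    match l with
    | [] => simp
    | true :: [] => simp
    | true :: c :: l' => simp; omega
    | false :: l' => simp

theorem length_unpair (y : List Bool) : (unpair y).2.length ≤ y.length := by
  unfold unpair
  simp only
  have key : ∀ (k : ℕ) (s : List Bool × List Bool × Bool),
      (ustep^[k] s).2.1.length ≤ s.2.1.length := by
    intro k
    induction k with
    | zero => intro s; exact le_rfl
    | succ k ih =>
      intro s
      rw [Function.iterate_succ_apply]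
      exact (ih _).trans (length_ustep s)
  exact key _ _

/-! ### the algorithm -/

/-- the first block of the random string -/
def u1 (z : List Bool) : List Bool := (unpair z).1.take (unpair (unpair z).2).2.length

/-- the second block -/
def u2 (z : List Bool) : List Bool :=
  ((unpair z).1.drop (unpair (unpair z).2).2.length).take (unpair (unpair z).2).2.length

/-- the rest -/
def u3 (z : List Bool) : List Bool :=
  ((unpair z).1.drop (unpair (unpair z).2).2.length).drop (unpair (unpair z).2).2.length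

/-- the questions -/
def Q (z : List Bool) : List (List Bool) :=
  [(unpair (unpair z).2).2 ++ u1 z, (unpair (unpair z).2).2 ++ u2 z]

/-- the condition, as a function of the number `t`, the power `P = 2 ^ n`, the power
`R = 2 ^ (s - 1)`, the value of the rest and the two answers -/
def Cd (t P R v b1 b2 : ℕ) : Prop :=
  (t % 2 = 1 ∧ t ≤ P) ∧ v + (2 * (t * t) + 2 * (P * P * (b1 * b2))) < R + 1 + 4 * (P * (t * b1))

instance (t P R v b1 b2 : ℕ) : Decidable (Cd t P R v b1 b2) := by
  unfold Cd
  infer_instance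

/-- the output -/
def H (p : List Bool × List Bool) : List Bool :=
  if Cd (valB (unpair (unpair p.1).2).1) (pw (unpair (unpair p.1).2).2.length)
    (pw ((u3 p.1).drop 1).length) (valB (u3 p.1)) (valB p.2 % 2) (valB p.2 / 2)
  then [true] else []

/-- the algorithm -/
def V (A : Oracle) (z : List Bool) : List Bool := H (z, (Q z).map A)

theorem poly_x : Poly (fun z : List Bool => (unpair (unpair z).2).2) :=
  Poly.snd (poly_unpair.comp (Poly.snd poly_unpair))

theorem poly_w : Poly (fun z : List Bool => (unpair (unpair z).2).1) :=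
  Poly.fst (poly_unpair.comp (Poly.snd poly_unpair))

theorem upoly_n : UPoly (fun z : List Bool => (unpair (unpair z).2).2.length) :=
  UPoly.length poly_x

theorem poly_u1 : Poly u1 := poly_take (Poly.fst poly_unpair) upoly_n

theorem poly_u2 : Poly u2 := poly_take (poly_drop (Poly.fst poly_unpair) upoly_n) upoly_n

theorem poly_u3 : Poly u3 := poly_drop (poly_drop (Poly.fst poly_unpair) upoly_n) upoly_n

theorem poly_Q : Poly Q :=
  Poly.cons (Poly.append poly_x poly_u1) (Poly.cons (Poly.append poly_x poly_u2)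
    (NPC.Poly.const []))

theorem poly_Cd {α : Type} [TEnc α] {t P R v b1 b2 : α → ℕ} (ht : Poly t) (hP : Poly P)
    (hR : Poly R) (hv : Poly v) (hb1 : Poly b1) (hb2 : Poly b2) :
    Poly (fun a => decide (Cd (t a) (P a) (R a) (v a) (b1 a) (b2 a))) := by
  have c : ∀ k : ℕ, Poly (fun _ : α => k) := fun k => NPC.Poly.const k
  unfold Cd
  refine Poly.decide_and (Poly.decide_and (Poly.decide_eq (Poly.mod ht (c 2)) (c 1))
    (Poly.decide_le ht hP)) (Poly.decide_lt ?_ ?_)
  · exact Poly.add hv (Poly.add (Poly.mul (c 2) (Poly.mul ht ht))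
      (Poly.mul (c 2) (Poly.mul (Poly.mul hP hP) (Poly.mul hb1 hb2))))
  · exact Poly.add (Poly.add hR (c 1)) (Poly.mul (c 4) (Poly.mul hP (Poly.mul ht hb1)))

theorem poly_H : Poly H := by
  unfold H
  refine Poly.ite (poly_Cd ?_ ?_ ?_ ?_ ?_ ?_) (NPC.Poly.const _) (NPC.Poly.const _)
  · exact Poly.valBits (poly_w.comp (Poly.fst Poly.id))
  · exact poly_pw (upoly_n.comp (Poly.fst Poly.id))
  · exact poly_pw (UPoly.length (poly_drop (poly_u3.comp (Poly.fst Poly.id)) (UPoly.const 1)))
  · exact Poly.valBits (poly_u3.comp (Poly.fst Poly.id))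
  · exact Poly.mod (Poly.valBits (Poly.snd Poly.id)) (NPC.Poly.const 2)
  · exact Poly.div (Poly.valBits (Poly.snd Poly.id)) (NPC.Poly.const 2)

/-- an answer as a number -/
def bn (b : Bool) : ℕ := if b then 1 else 0

theorem V_iff (A : Oracle) (ρ y : List Bool) :
    V A (pairBits ρ y) = [true] ↔
      Cd (valB (unpair y).1) (2 ^ (unpair y).2.length)
        (2 ^ (ρ.length - 2 * (unpair y).2.length - 1))
        (valB (ρ.drop (2 * (unpair y).2.length)))
        (bn (A ((unpair y).2 ++ ρ.take (unpair y).2.length)))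
        (bn (A ((unpair y).2 ++ (ρ.drop (unpair y).2.length).take (unpair y).2.length))) := by
  have e3 : u3 (pairBits ρ y) = ρ.drop (2 * (unpair y).2.length) := by
    unfold u3
    rw [unpair_pairBits]
    simp only
    rw [List.drop_drop, two_mul]
  have eQ : Q (pairBits ρ y) = [(unpair y).2 ++ ρ.take (unpair y).2.length,
      (unpair y).2 ++ (ρ.drop (unpair y).2.length).take (unpair y).2.length] := by
    unfold Q u1 u2
    rw [unpair_pairBits]
  have hval : ∀ b c : Bool, valB [b, c] % 2 = bn b ∧ valB [b, c] / 2 = bn c := by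
    intro b c
    cases b <;> cases c <;> decide
  have hlen : (((u3 (pairBits ρ y)).drop 1).length) =
      ρ.length - 2 * (unpair y).2.length - 1 := by
    rw [e3, List.length_drop, List.length_drop]
  unfold V H
  simp only [eQ, List.map_cons, List.map_nil, hlen, pw_eq, (hval _ _).1, (hval _ _).2]
  rw [unpair_pairBits]
  simp only
  rw [e3]
  constructor
  · intro h
    by_contra hc
    rw [if_neg hc] at h
    exact absurd h (by simp)
  · intro h
    rw [if_pos h]

/-! ### counting -/

theorem valB_bitsOf : ∀ (n j : ℕ), j < 2 ^ n → valB (bitsOf n j) = j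
  | 0, j, hj => by
    have : j = 0 := by simpa using hj
    subst this
    rfl
  | n + 1, j, hj => by
    rw [pow_succ] at hj
    rw [bitsOf, valB_cons, valB_bitsOf n (j / 2) (by omega)]
    rcases Nat.mod_two_eq_zero_or_one j with a | a <;> simp [a] <;> omega

theorem bitsOf_valB : ∀ l : List Bool, bitsOf l.length (valB l) = l
  | [] => rfl
  | b :: l => by
    have h := bitsOf_valB l
    rw [List.length_cons, bitsOf, valB_cons]
    have e1 : ((if b then 1 else 0) + 2 * valB l) / 2 = valB l := by
      cases b <;> simp <;> omega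
    rw [e1, h]
    congr 1
    cases b <;> simp <;> omega

theorem exists_ofFn {l : List Bool} {n : ℕ} (h : l.length = n) :
    ∃ v : Fin n → Bool, List.ofFn v = l := by
  subst h
  exact ⟨l.get, List.ofFn_get l⟩

/-- binary numbers -/
noncomputable def eqv (n : ℕ) : (Fin n → Bool) ≃ Fin (2 ^ n) :=
  Equiv.ofBijective (fun v => ⟨valB (List.ofFn v), by
    have := valB_lt (List.ofFn v)
    rwa [List.length_ofFn] at this⟩) (by
    constructor
    · intro v v' h
      rw [Fin.mk.injEq] at h
      apply List.ofFn_injective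
      rw [← bitsOf_valB (List.ofFn v), ← bitsOf_valB (List.ofFn v'), h, List.length_ofFn,
        List.length_ofFn]
    · rintro ⟨j, hj⟩
      obtain ⟨v, hv⟩ := exists_ofFn (length_bitsOf n j)
      refine ⟨v, ?_⟩
      simp only [hv, valB_bitsOf n j hj])

theorem eqv_val (n : ℕ) (v : Fin n → Bool) : ((eqv n v : Fin (2 ^ n)) : ℕ) = valB (List.ofFn v) :=
  rfl

theorem card_lt (s B : ℕ) (hB : B ≤ 2 ^ s) :
    Nat.card {v : Fin s → Bool // valB (List.ofFn v) < B} = B := by
  have h1 : {v : Fin s → Bool // valB (List.ofFn v) < B} ≃ {j : Fin (2 ^ s) // (j : ℕ) < B} :=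
    (eqv s).subtypeEquiv (fun v => by rw [eqv_val])
  have h2 : {j : Fin (2 ^ s) // (j : ℕ) < B} ≃ Fin B :=
    { toFun := fun j => ⟨j.1, j.2⟩
      invFun := fun j => ⟨⟨j, j.2.trans_le hB⟩, j.2⟩
      left_inv := fun j => rfl
      right_inv := fun j => rfl }
  rw [Nat.card_congr (h1.trans h2), Nat.card_eq_fintype_card, Fintype.card_fin]

theorem sum_bn (A : Oracle) (x : List Bool) :
    ∑ u : Fin x.length → Bool, bn (A (x ++ List.ofFn u)) = cnt A x := by
  unfold cnt
  rw [Finset.card_filter]
  rw [← Fin.sum_univ_eq_sum_range (fun j => if A (x ++ bitsOf x.length j) = true then 1 else 0)]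
  rw [← Equiv.sum_comp (eqv x.length)]
  refine Finset.sum_congr rfl fun u _ => ?_
  rw [eqv_val]
  have h : bitsOf x.length (valB (List.ofFn u)) = List.ofFn u := by
    have := bitsOf_valB (List.ofFn u)
    rwa [List.length_ofFn] at this
  rw [h]
  rfl

/-- splitting the random string -/
theorem card_split (K d : ℕ) (P : List Bool → List Bool → Prop) :
    Nat.card {w : Fin (K + d) → Bool // P ((List.ofFn w).take K) ((List.ofFn w).drop K)} =
      ∑ u : Fin K → Bool, Nat.card {v : Fin d → Bool // P (List.ofFn u) (List.ofFn v)} := by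
  have h1 : {w : Fin (K + d) → Bool // P ((List.ofFn w).take K) ((List.ofFn w).drop K)} ≃
      {p : (Fin K → Bool) × (Fin d → Bool) // P (List.ofFn p.1) (List.ofFn p.2)} :=
    ((Fin.appendEquiv K d).subtypeEquiv (fun p => by
      change _ ↔ P ((List.ofFn (Fin.append p.1 p.2)).take K) ((List.ofFn (Fin.append p.1 p.2)).drop K)
      rw [List.ofFn_fin_append, List.take_left' (List.length_ofFn),
        List.drop_left' (List.length_ofFn)])).symm
  have h2 : {p : (Fin K → Bool) × (Fin d → Bool) // P (List.ofFn p.1) (List.ofFn p.2)} ≃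
      Σ u : Fin K → Bool, {v : Fin d → Bool // P (List.ofFn u) (List.ofFn v)} :=
    { toFun := fun p => ⟨p.1.1, ⟨p.1.2, p.2⟩⟩
      invFun := fun p => ⟨(p.1, p.2.1), p.2.2⟩
      left_inv := fun p => rfl
      right_inv := fun p => rfl }
  rw [Nat.card_congr (h1.trans h2), Nat.card_sigma]

end N4

open N4 in
/-- N4 -/
theorem exLang_pp (A : Oracle) : IsPP A (exLang A) := by
  classical
  refine ⟨V A, Polynomial.C 4 * Polynomial.X + Polynomial.C 8, IsFP.tt poly_Q poly_H, fun y => ?_⟩
  have hM : (Polynomial.C 4 * Polynomial.X + Polynomial.C 8 : Polynomial ℕ).eval y.length =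
      4 * y.length + 8 := by
    simp only [Polynomial.eval_add, Polynomial.eval_mul, Polynomial.eval_X, Polynomial.eval_C]
  rw [hM]
  set x := (unpair y).2 with hx
  set t := valB (unpair y).1 with ht
  set n := x.length with hn
  have hny : n ≤ y.length := length_unpair y
  obtain ⟨s, hs, hs8⟩ : ∃ s, 4 * y.length + 8 = n + (n + s) ∧ 2 * n + 8 ≤ s :=
    ⟨4 * y.length + 8 - 2 * n, by omega, by omega⟩
  have hcount : Nat.card {w : Fin (4 * y.length + 8) → Bool //
      V A (pairBits (List.ofFn w) y) = [true]} =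
      ∑ a : Fin n → Bool, ∑ b : Fin n → Bool,
        Nat.card {v : Fin s → Bool // Cd t (2 ^ n) (2 ^ (s - 1)) (valB (List.ofFn v))
          (bn (A (x ++ List.ofFn a))) (bn (A (x ++ List.ofFn b)))} := by
    rw [hs]
    have e1 : Nat.card {w : Fin (n + (n + s)) → Bool //
        V A (pairBits (List.ofFn w) y) = [true]} =
        Nat.card {w : Fin (n + (n + s)) → Bool // (fun l l' : List Bool =>
          Cd t (2 ^ n) (2 ^ (s - 1)) (valB (l'.drop n)) (bn (A (x ++ l)))
            (bn (A (x ++ l'.take n)))) ((List.ofFn w).take n) ((List.ofFn w).drop n)} := by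
      apply Nat.card_congr
      refine Equiv.subtypeEquivRight fun w => ?_
      rw [V_iff, ← hx, ← ht, ← hn, List.length_ofFn]
      have e2 : n + (n + s) - 2 * n - 1 = s - 1 := by omega
      rw [e2, two_mul, ← List.drop_drop]
    have e3 := card_split n (n + s) (fun l l' : List Bool =>
          Cd t (2 ^ n) (2 ^ (s - 1)) (valB (l'.drop n)) (bn (A (x ++ l)))
            (bn (A (x ++ l'.take n))))
    refine (e1.trans e3).trans ?_
    refine Finset.sum_congr rfl fun a _ => ?_
    have := card_split n s (fun l l' : List Bool =>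
      Cd t (2 ^ n) (2 ^ (s - 1)) (valB l') (bn (A (x ++ List.ofFn a))) (bn (A (x ++ l))))
    exact this
  unfold accPr
  rw [hcount]
  have hpow : (2 : ℕ) ^ s = 2 * 2 ^ (s - 1) := by
    rw [← pow_succ']
    congr 1
    omega
  have hbig : 4 * (2 ^ n * 2 ^ n) * 2 ≤ 2 ^ (s - 1) := by
    have e1 : 4 * (2 ^ n * 2 ^ n) * 2 = 2 ^ (n + n + 3) := by ring
    rw [e1]
    exact Nat.pow_le_pow_right (by norm_num) (by omega)
  have hpos : 1 ≤ 2 ^ n * 2 ^ n := Nat.one_le_iff_ne_zero.2 (by positivity)
  by_cases hgood : t % 2 = 1 ∧ t ≤ 2 ^ n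
  · -- the main case
    have htt : t * t ≤ 2 ^ n * 2 ^ n := Nat.mul_le_mul hgood.2 hgood.2
    have hcard : ∀ b1 b2 : Bool, (Nat.card {v : Fin s → Bool // Cd t (2 ^ n) (2 ^ (s - 1))
        (valB (List.ofFn v)) (bn b1) (bn b2)} : ℝ) =
        2 ^ (s - 1) + 1 - 2 * (t : ℝ) ^ 2 + 4 * (2 ^ n * t) * (bn b1 : ℝ) -
          2 * (2 ^ n * 2 ^ n) * ((bn b1 : ℝ) * (bn b2 : ℝ)) := by
      intro b1 b2
      have hb1 : bn b1 ≤ 1 := by cases b1 <;> simp [bn]
      have hb2 : bn b2 ≤ 1 := by cases b2 <;> simp [bn]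
      have hbb : bn b1 * bn b2 ≤ 1 := Nat.mul_le_mul hb1 hb2
      have hc : 2 * (t * t) + 2 * (2 ^ n * 2 ^ n * (bn b1 * bn b2)) ≤ 2 ^ (s - 1) := by
        have : 2 ^ n * 2 ^ n * (bn b1 * bn b2) ≤ 2 ^ n * 2 ^ n * 1 := Nat.mul_le_mul_left _ hbb
        omega
      have hD : 4 * (2 ^ n * (t * bn b1)) ≤ 4 * (2 ^ n * 2 ^ n) := by
        have h1 : t * bn b1 ≤ 2 ^ n * 1 := Nat.mul_le_mul hgood.2 hb1
        have h2 : 2 ^ n * (t * bn b1) ≤ 2 ^ n * (2 ^ n * 1) := Nat.mul_le_mul_left _ h1
        rw [mul_one] at h2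
        omega
      have h3 : Nat.card {v : Fin s → Bool // Cd t (2 ^ n) (2 ^ (s - 1))
          (valB (List.ofFn v)) (bn b1) (bn b2)} =
          2 ^ (s - 1) + 1 + 4 * (2 ^ n * (t * bn b1)) -
            (2 * (t * t) + 2 * (2 ^ n * 2 ^ n * (bn b1 * bn b2))) := by
        rw [← card_lt s _ (by omega : 2 ^ (s - 1) + 1 + 4 * (2 ^ n * (t * bn b1)) -
            (2 * (t * t) + 2 * (2 ^ n * 2 ^ n * (bn b1 * bn b2))) ≤ 2 ^ s)]
        apply Nat.card_congr
        refine Equiv.subtypeEquivRight fun v => ?_
        unfold Cd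
        constructor
        · rintro ⟨_, h⟩
          omega
        · intro h
          exact ⟨hgood, by omega⟩
      rw [h3, Nat.cast_sub (by omega)]
      push_cast
      ring
    have hsum : ((∑ a : Fin n → Bool, ∑ b : Fin n → Bool,
        Nat.card {v : Fin s → Bool // Cd t (2 ^ n) (2 ^ (s - 1)) (valB (List.ofFn v))
          (bn (A (x ++ List.ofFn a))) (bn (A (x ++ List.ofFn b)))} : ℕ) : ℝ) =
        2 ^ n * 2 ^ n * (2 ^ (s - 1) + 1 - 2 * ((cnt A x : ℝ) - t) ^ 2) := by
      have hS : ∑ u : Fin n → Bool, (bn (A (x ++ List.ofFn u)) : ℝ) = cnt A x := by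
        have := sum_bn A x
        rw [← this]
        push_cast
        rfl
      push_cast
      simp only [hcard]
      have hcardu : (Finset.univ : Finset (Fin n → Bool)).card = 2 ^ n := by
        rw [Finset.card_univ, Fintype.card_fun, Fintype.card_bool, Fintype.card_fin]
      have e1 : ∀ a : Fin n → Bool, ∑ b : Fin n → Bool,
          ((2 : ℝ) ^ (s - 1) + 1 - 2 * (t : ℝ) ^ 2 + 4 * (2 ^ n * t) *
            (bn (A (x ++ List.ofFn a)) : ℝ) - 2 * (2 ^ n * 2 ^ n) *
            ((bn (A (x ++ List.ofFn a)) : ℝ) * (bn (A (x ++ List.ofFn b)) : ℝ))) =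
          2 ^ n * (2 ^ (s - 1) + 1 - 2 * (t : ℝ) ^ 2) +
            (bn (A (x ++ List.ofFn a)) : ℝ) *
              (2 ^ n * (4 * (2 ^ n * t)) - 2 * (2 ^ n * 2 ^ n) * cnt A x) := by
        intro a
        rw [Finset.sum_sub_distrib, Finset.sum_const, hcardu, ← Finset.mul_sum, ← Finset.mul_sum,
          hS, nsmul_eq_mul]
        push_cast
        ring
      rw [Finset.sum_congr rfl fun a _ => e1 a, Finset.sum_add_distrib, Finset.sum_const, hcardu,
        ← Finset.sum_mul, hS, nsmul_eq_mul]
      push_cast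
      ring
    rw [hsum, hs]
    have hden : (2 : ℝ) ^ (n + (n + s)) = 2 ^ n * 2 ^ n * (2 * 2 ^ (s - 1)) := by
      have : (2 : ℝ) ^ s = 2 * 2 ^ (s - 1) := by exact_mod_cast hpow
      rw [pow_add, pow_add, this]
      ring
    have hP : (0 : ℝ) < 2 ^ n * 2 ^ n := by positivity
    have hR : (0 : ℝ) < 2 ^ (s - 1) := by positivity
    rw [hden, mul_div_mul_left _ _ hP.ne']
    constructor
    · rintro ⟨_, h2⟩
      have h3 : (cnt A x : ℝ) - t = 0 := by
        rw [← h2]
        exact sub_self _
      rw [h3, lt_div_iff₀ (by positivity)]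
      linarith
    · intro hy
      have hne : cnt A x ≠ t := fun h => hy ⟨Nat.odd_iff.2 hgood.1, h.symm⟩
      have h3 : (1 : ℝ) ≤ ((cnt A x : ℝ) - t) ^ 2 := by
        have h4 : (1 : ℤ) ≤ ((cnt A x : ℤ) - t) ^ 2 := by
          have h5 : ((cnt A x : ℤ) - t) ≠ 0 := by omega
          have h6 : 0 < ((cnt A x : ℤ) - t) ^ 2 := by positivity
          omega
        exact_mod_cast h4
      rw [div_lt_iff₀ (by positivity)]
      linarith
  · -- the algorithm rejects
    have hzero : ∀ a b : Fin n → Bool, Nat.card {v : Fin s → Bool // Cd t (2 ^ n) (2 ^ (s - 1))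
        (valB (List.ofFn v)) (bn (A (x ++ List.ofFn a))) (bn (A (x ++ List.ofFn b)))} = 0 := by
      intro a b
      have : IsEmpty {v : Fin s → Bool // Cd t (2 ^ n) (2 ^ (s - 1))
          (valB (List.ofFn v)) (bn (A (x ++ List.ofFn a))) (bn (A (x ++ List.ofFn b)))} :=
        ⟨fun v => hgood v.2.1⟩
      exact Nat.card_of_isEmpty
    simp only [hzero, Finset.sum_const_zero, Nat.cast_zero, zero_div]
    refine ⟨fun hy => ?_, fun _ => by norm_num⟩
    exfalso
    apply hgood
    refine ⟨Nat.odd_iff.1 hy.1, ?_⟩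
    have h2 : t = cnt A x := hy.2
    rw [h2]
    unfold cnt
    refine (Finset.card_filter_le _ _).trans ?_
    rw [Finset.card_range]

end Pool.Agent.H943R3.PP
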