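import Pool.Agent.H943R3.PP.N3
import Pool.Agent.H943R3.PP.N4

/-!
# `PP^PH` is contained in `PP^PH` with advice
-/

namespace Pool.Agent.H943R3.PP

open Pool.Agent.NPC Pool.Agent.H620R2.Gauge Pool.Agent.H622R2

namespace Adv

theorem ustep_sum (s : List Bool × List Bool × Bool) :
    (ustep s).1.length + (ustep s).2.1.length ≤ s.1.length + s.2.1.length := by
  obtain ⟨a, l, b⟩ := s
  unfold ustep
  cases b with
  | true => simp
  | false =>
    match l with
    | [] => simp
    | true :: [] => simp
    | true :: c :: l' => simp; omega
    | false :: l' => simp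

theorem length_unpair1 (y : List Bool) : (unpair y).1.length ≤ y.length := by
  unfold unpair
  simp only [List.length_reverse]
  have key : ∀ (k : ℕ) (s : List Bool × List Bool × Bool),
      (ustep^[k] s).1.length + (ustep^[k] s).2.1.length ≤ s.1.length + s.2.1.length := by
    intro k
    induction k with
    | zero => intro s; exact le_rfl
    | succ k ih =>
      intro s
      rw [Function.iterate_succ_apply]
      exact (ih _).trans (ustep_sum s)
  have := key y.length ([], y, false)
  simp only [List.length_nil, zero_add] at this
  omega

/-- the innermost string under `j` further strings -/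
def hh : ℕ → List Bool → List Bool
  | 0, z => z
  | j + 1, z => hh j (unpair z).2

/-- the input, for the string `⟨w, y⟩` -/
def inp (z : List Bool) : List Bool := (unpair (unpair z).2).1

/-- truncation of all the strings -/
noncomputable def gg (r p : Polynomial ℕ) : ℕ → List Bool → List Bool
  | 0, z => pairBits ((unpair z).1.take (r.eval (inp z).length)) (inp z)
  | j + 1, z => pairBits ((unpair z).1.take (p.eval (inp (hh (j + 1) z)).length))
      (gg r p j (unpair z).2)

theorem poly_inp : Poly inp := (Poly.fst poly_unpair).comp (Poly.snd poly_unpair)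

theorem poly_hh (j : ℕ) : Poly (hh j) := by
  induction j with
  | zero => exact Poly.id
  | succ j ih => exact ih.comp (Poly.snd poly_unpair)

theorem poly_gg (r p : Polynomial ℕ) (j : ℕ) : Poly (gg r p j) := by
  induction j with
  | zero =>
    exact poly_pairBits (N3.poly_take (Poly.fst poly_unpair) (N3.poly_plen poly_inp r)) poly_inp
  | succ j ih =>
    exact poly_pairBits (N3.poly_take (Poly.fst poly_unpair)
      (N3.poly_plen (poly_inp.comp (poly_hh (j + 1))) p)) (ih.comp (Poly.snd poly_unpair))

theorem quant_gg (V : List Bool → List Bool) (r p : Polynomial ℕ) (k m' : ℕ) :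
    ∀ (j i : ℕ), i + j = k → ∀ (b : Bool) (z : List Bool), p.eval (inp (hh i z)).length ≤ m' →
      (Quant m' (fun z => V (gg r p k z)) j b z ↔
        Quant (p.eval (inp (hh i z)).length) V j b (gg r p i z)) := by
  intro j
  induction j with
  | zero =>
    intro i hi b z _
    rw [Nat.add_zero] at hi
    subst hi
    exact Iff.rfl
  | succ j ih =>
    intro i hi b z hz
    have hh1 : ∀ v : List Bool, hh (i + 1) (pairBits v z) = hh i z := by
      intro v
      show hh i (unpair (pairBits v z)).2 = hh i z
      rw [unpair_pairBits]
    have hg1 : ∀ v : List Bool, gg r p (i + 1) (pairBits v z) =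
        pairBits (v.take (p.eval (inp (hh i z)).length)) (gg r p i z) := by
      intro v
      show pairBits ((unpair (pairBits v z)).1.take
        (p.eval (inp (hh (i + 1) (pairBits v z))).length)) (gg r p i (unpair (pairBits v z)).2) = _
      rw [hh1, unpair_pairBits]
    have key : ∀ (b' : Bool) (v : List Bool),
        (Quant m' (fun z => V (gg r p k z)) j b' (pairBits v z) ↔
          Quant (p.eval (inp (hh i z)).length) V j b'
            (pairBits (v.take (p.eval (inp (hh i z)).length)) (gg r p i z))) := by
      intro b' v
      have := ih (i + 1) (by omega) b' (pairBits v z) (by rw [hh1]; exact hz)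
      rw [hh1, hg1] at this
      exact this
    cases b with
    | true =>
      constructor
      · rintro ⟨v, _, hv2⟩
        exact ⟨v.take (p.eval (inp (hh i z)).length), by
          rw [List.length_take]; exact min_le_left _ _, (key false v).1 hv2⟩
      · rintro ⟨v, hv1, hv2⟩
        refine ⟨v, hv1.trans hz, (key false v).2 ?_⟩
        rw [List.take_of_length_le hv1]
        exact hv2
    | false =>
      constructor
      · intro h v hv
        have := (key true v).1 (h v (hv.trans hz))
        rw [List.take_of_length_le hv] at this
        exact this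
      · intro h v _
        exact (key true v).2 (h (v.take (p.eval (inp (hh i z)).length))
          (by rw [List.length_take]; exact min_le_left _ _))

theorem card_take (K d : ℕ) (P : List Bool → Prop) :
    Nat.card {w : Fin (K + d) → Bool // P ((List.ofFn w).take K)} =
      Nat.card {u : Fin K → Bool // P (List.ofFn u)} * 2 ^ d := by
  classical
  have h := N4.card_split K d (fun u _ => P u)
  have h1 : Nat.card {w : Fin (K + d) → Bool // P ((List.ofFn w).take K)} =
      ∑ u : Fin K → Bool, Nat.card {v : Fin d → Bool // P (List.ofFn u)} := h
  rw [h1]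
  have h2 : ∀ u : Fin K → Bool, Nat.card {v : Fin d → Bool // P (List.ofFn u)} =
      if P (List.ofFn u) then 2 ^ d else 0 := by
    intro u
    split_ifs with hu
    · rw [Nat.card_congr (Equiv.subtypeUnivEquiv fun _ => hu)]
      simp
    · have : IsEmpty {v : Fin d → Bool // P (List.ofFn u)} := ⟨fun v => hu v.2⟩
      exact Nat.card_of_isEmpty
  rw [Finset.sum_congr rfl fun u _ => h2 u, ← Finset.sum_filter, Finset.sum_const, smul_eq_mul]
  congr 1
  rw [Nat.card_eq_fintype_card, Fintype.card_subtype]

end Adv

open Adv in
theorem withAdvice_of_isPPPH {A : Oracle} {L : Set (List Bool)} (h : IsPPPH A L) :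
    WithAdvice (IsPPPH A) L := by
  obtain ⟨V, p, r, k, hV, hL⟩ := h
  refine ⟨{y | (unpair y).1 ∈ L}, fun _ => [], 0,
    ⟨fun z => V (gg r p k z), p, r, k, hV.precomp (poly_gg r p k), fun y => ?_⟩,
    fun n => by simp, fun x => by rw [Set.mem_ofPred_eq, unpair_pairBits]⟩
  have hy := length_unpair1 y
  have hp : p.eval (unpair y).1.length ≤ p.eval y.length := eval_mono p hy
  have hr : r.eval (unpair y).1.length ≤ r.eval y.length := eval_mono r hy
  obtain ⟨d, hd⟩ := Nat.exists_eq_add_of_le hr
  have key : accPrQ (fun z => V (gg r p k z)) (p.eval y.length) k (r.eval y.length) y =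
      accPrQ V (p.eval (unpair y).1.length) k (r.eval (unpair y).1.length) (unpair y).1 := by
    unfold accPrQ
    rw [hd]
    have h1 : ∀ w : Fin (r.eval (unpair y).1.length + d) → Bool,
        (Quant (p.eval y.length) (fun z => V (gg r p k z)) k true (pairBits (List.ofFn w) y) ↔
          Quant (p.eval (unpair y).1.length) V k true
            (pairBits ((List.ofFn w).take (r.eval (unpair y).1.length)) (unpair y).1)) := by
      intro w
      have hi : inp (hh 0 (pairBits (List.ofFn w) y)) = (unpair y).1 := by
        show (unpair (unpair (pairBits (List.ofFn w) y)).2).1 = _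
        rw [unpair_pairBits]
      have h2 := quant_gg V r p k (p.eval y.length) k 0 (by omega) true
        (pairBits (List.ofFn w) y) (by rw [hi]; exact hp)
      rw [h2, hi]
      have h3 : gg r p 0 (pairBits (List.ofFn w) y) =
          pairBits ((List.ofFn w).take (r.eval (unpair y).1.length)) (unpair y).1 := by
        show pairBits ((unpair (pairBits (List.ofFn w) y)).1.take
          (r.eval (inp (pairBits (List.ofFn w) y)).length)) (inp (pairBits (List.ofFn w) y)) = _
        have hi' : inp (pairBits (List.ofFn w) y) = (unpair y).1 := hi
        rw [hi', unpair_pairBits]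
      rw [h3]
    rw [Nat.card_congr (Equiv.subtypeEquivRight h1)]
    rw [card_take (r.eval (unpair y).1.length) d (fun u =>
      Quant (p.eval (unpair y).1.length) V k true (pairBits u (unpair y).1))]
    rw [pow_add]
    push_cast
    rw [mul_div_mul_right _ _ (by positivity)]
  rw [key]
  exact hL (unpair y).1

end Pool.Agent.H943R3.PP
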