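import Pool.Agent.H943R3.PP.Defs
import Pool.Agent.H620R2.Gauge2.Base
import Pool.Agent.H620R2.Gauge.Event

/-!
# The objects of the proof
-/

namespace Pool.Agent.H943R3.PP

open Pool.Agent.NPC Pool.Agent.H620R2.Gauge Finset H568R2 Pool.Agent.H676

/-- `B` as an index of a character -/
def ind {I : Type*} [DecidableEq I] (B : Finset I) : I → Bool := fun i => decide (i ∈ B)

/-- the numerator and denominator of the approximation of the sign function -/
noncomputable def qq (l k : ℕ) (x : ℝ) : ℝ := (∏ i ∈ Finset.range (l + 1), (x - 2 ^ i)) ^ (2 * k)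

noncomputable def sN (l k : ℕ) (x : ℝ) : ℝ := qq l k (-x) - qq l k x

noncomputable def sD (l k : ℕ) (x : ℝ) : ℝ := qq l k (-x) + qq l k x

open Classical in
/-- the points where all the signs are right -/
noncomputable def EE {I ι : Type*} [Fintype I] [DecidableEq I] (X : Finset ι) (B : ι → Finset I)
    (P : ι → (I → Bool) → ℝ) : Finset (I → Bool) :=
  univ.filter (fun a => ∀ x ∈ X, 0 < P x a * ch (ind (B x)) a)

open Classical in
/-- the low characters -/
noncomputable def LL {I ι : Type*} [Fintype I] [DecidableEq I] (X : Finset ι) (B : ι → Finset I)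
    (D : ℕ) : Finset (I → Bool) :=
  univ.filter (fun S => ∀ x ∈ X, ((B x).filter (fun i => S i = true)).card ≤ (B x).card / 2 + D)

/-- Four times the number of `w` for which the alternation accepts, minus twice the number of all
`w`, minus one (an odd integer). -/
noncomputable def maj {I : Type*} (m : ℕ) (F : List Bool → (I → Bool) → Bool) (k r : ℕ)
    (y : List Bool) (a : I → Bool) : ℝ :=
  4 * ∑ w : Fin r → Bool, (if QF m F k true (pairBits (List.ofFn w) y) a = true then (1 : ℝ) else 0)
    - 2 * 2 ^ r - 1

/-- The bound for the probability. -/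
noncomputable def bnd2 (k : ℕ) (P : Polynomial ℕ) (n u : ℕ) : ℝ :=
  2 ^ P.eval n * (k * (1 / 2) ^ (2 ^ (2 * u) + 1)) +
    2 ^ P.eval n * (2 ^ (u + 2) * ((2 ^ (20 * u) + 1) *
      (1 - (1 / (24 * 2 ^ (2 * u))) ^ k) ^ (2 ^ n / (2 ^ (20 * u) + 1)))) +
    2 ^ P.eval n * (1 / 2) ^ 2 ^ u

/-- The parameters of a `PP^PH` algorithm with advice: the algorithm for the matrix, the bound for
the quantifiers, the number of the random bits, the number of quantifiers, the bound for the
advice. -/
structure Par2 : Type where
  M : Alg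
  p : Polynomial ℕ
  r : Polynomial ℕ
  k : ℕ
  p' : Polynomial ℕ

/-- the bound for the quantifiers on inputs of length `n` with advice of length `c` -/
noncomputable def Par2.m (θ : Par2) (n c : ℕ) : ℕ := θ.p.eval (2 * n + 1 + c)

/-- the number of random bits on inputs of length `n` with advice of length `c` -/
noncomputable def Par2.rr (θ : Par2) (n c : ℕ) : ℕ := θ.r.eval (2 * n + 1 + c)

/-- the length of all strings that occur -/
noncomputable def Par2.L (θ : Par2) : Polynomial ℕ :=
  2 * Polynomial.X + 1 + θ.p' + (2 * θ.r.comp (2 * Polynomial.X + 1 + θ.p') + 1) +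
    Polynomial.C θ.k * (2 * θ.p.comp (2 * Polynomial.X + 1 + θ.p') + 1)

/-- the polynomial for the final bound -/
noncomputable def Par2.P (θ : Par2) : Polynomial ℕ := 2 * θ.L + 20 + θ.M.p.comp θ.L

/-- The event: some advice gives the right answers on the first `2 ^ (u + 2)` inputs
of length `n`. -/
def Ev2 (θ : Par2) (n N u : ℕ) (a : Fin N → Bool) : Prop :=
  ∃ c ≤ θ.p'.eval n, ∃ h : List Bool, h.length = c ∧ ∀ j ∈ Finset.range (2 ^ (u + 2)),
    (0 < maj (θ.m n c) (leaf θ.M N) θ.k (θ.rr n c) (pairBits (bitsOf n j) h) a ↔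
      par (blk N (bitsOf n j)) a = true)

/-- the number of the strings `x w` in the oracle with `|w| = |x|` -/
def cnt (A : Oracle) (x : List Bool) : ℕ :=
  ((Finset.range (2 ^ x.length)).filter (fun j => A (x ++ bitsOf x.length j) = true)).card

/-- The string `⟨w, x⟩` is in this language if the value of `w` is odd and equal to the number of
the strings `x v` in the oracle with `|v| = |x|`. -/
def exLang (A : Oracle) : Set (List Bool) :=
  {y | Odd (valB (unpair y).1) ∧ valB (unpair y).1 = cnt A (unpair y).2}

end Pool.Agent.H943R3.PP
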