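import Pool.Agent.H620R2.Gauge2.Defs
import Pool.Agent.H620R2.GaugeR.Defs

/-!
# Probabilistic polynomial time relative to an oracle

(Continues `Pool.Agent.H620R2.Gauge.Defs`, `Gauge2.Defs` and `GaugeR.Defs`.)
-/

namespace Pool.Agent.H943R3.PP

open Pool.Agent.NPC Pool.Agent.H620R2.Gauge

/-- The language `L` is in `PP` relative to `A`: for a random string `w` of length `p(|x|)` the
algorithm `V` accepts `⟨w, x⟩` with probability more than `1/2` if `x` is in `L`, and with
probability less than `1/2` if it is not. -/
def IsPP (A : Oracle) (L : Set (List Bool)) : Prop :=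
  ∃ (V : List Bool → List Bool) (p : Polynomial ℕ), IsFP A V ∧ ∀ x,
    (x ∈ L → 1 / 2 < accPr V (p.eval x.length) x) ∧
    (x ∉ L → accPr V (p.eval x.length) x < 1 / 2)

/-- The probability that `V` with `k` alternating quantifiers over the strings of length at most
`m` in front of it (the first one existential) accepts the pair of `w` and `x`, where `w` is a
uniformly random string of length `r`. -/
noncomputable def accPrQ (V : List Bool → List Bool) (m k r : ℕ) (x : List Bool) : ℝ :=
  (Nat.card {w : Fin r → Bool // Quant m V k true (pairBits (List.ofFn w) x)} : ℝ) / 2 ^ r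

/-- The language `L` is in `PP^PH` relative to `A`: for a random string `w` of length `r(|x|)` the
pair of `w` and `x` has a certain property in the polynomial hierarchy relative to `A` with
probability more than `1/2` if `x` is in `L`, and less than `1/2` if it is not. -/
def IsPPPH (A : Oracle) (L : Set (List Bool)) : Prop :=
  ∃ (V : List Bool → List Bool) (p r : Polynomial ℕ) (k : ℕ), IsFP A V ∧ ∀ x,
    (x ∈ L → 1 / 2 < accPrQ V (p.eval x.length) k (r.eval x.length) x) ∧
    (x ∉ L → accPrQ V (p.eval x.length) k (r.eval x.length) x < 1 / 2)

end Pool.Agent.H943R3.PP
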