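import Pool.Agent.H943R3.PP.Base

/-!
# Task K1: a function supported by `E` orthogonal to few characters
-/

namespace Pool.Agent.H943R3.PP

open Pool.Agent.NPC Pool.Agent.H620R2.Gauge Finset H568R2 Pool.Agent.H676

variable {I : Type} [Fintype I] [DecidableEq I]

/-- K1 -/
theorem exists_orth (E L : Finset (I → Bool)) (h : L.card < E.card) :
    ∃ f : (I → Bool) → ℝ, f ≠ 0 ∧ (∀ a, a ∉ E → f a = 0) ∧ ∀ S ∈ L, co f S = 0 := by
  classical
  -- the extension by zero, as a linear map
  let ext : (E → ℝ) →ₗ[ℝ] ((I → Bool) → ℝ) :=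
    { toFun := fun g a => if ha : a ∈ E then g ⟨a, ha⟩ else 0
      map_add' := fun g g' => by
        funext a
        by_cases ha : a ∈ E <;> simp [ha]
      map_smul' := fun c g => by
        funext a
        by_cases ha : a ∈ E <;> simp [ha] }
  have hco : ∀ S, ∃ φ : ((I → Bool) → ℝ) →ₗ[ℝ] ℝ, ∀ f, φ f = co f S := by
    intro S
    refine ⟨(1 / (2 : ℝ) ^ Fintype.card I) • ∑ x : I → Bool, (ch S x) • LinearMap.proj x,
      fun f => ?_⟩
    unfold co av
    simp only [LinearMap.smul_apply, LinearMap.sum_apply, LinearMap.proj_apply, smul_eq_mul]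
    rw [one_div, inv_mul_eq_div]
    congr 1
    exact Finset.sum_congr rfl fun x _ => mul_comm _ _
  choose φ hφ using hco
  let Φ : (E → ℝ) →ₗ[ℝ] (L → ℝ) := LinearMap.pi fun S : L => (φ S).comp ext
  have hrank : Module.finrank ℝ (L → ℝ) < Module.finrank ℝ (E → ℝ) := by
    rw [Module.finrank_fintype_fun_eq_card, Module.finrank_fintype_fun_eq_card, Fintype.card_coe,
      Fintype.card_coe]
    exact h
  have hker := LinearMap.ker_ne_bot_of_finrank_lt (f := Φ) hrank
  obtain ⟨g, hg, hg0⟩ := Submodule.exists_mem_ne_zero_of_ne_bot hker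
  refine ⟨ext g, ?_, ?_, ?_⟩
  · intro h0
    apply hg0
    funext a
    have := congrFun h0 a.1
    simpa [ext, a.2] using this
  · intro a ha
    simp [ext, ha]
  · intro S hS
    have h1 : Φ g = 0 := hg
    have h2 := congrFun h1 ⟨S, hS⟩
    rw [← hφ]
    simpa [Φ] using h2

end Pool.Agent.H943R3.PP
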