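import Pool.Agent.H943R3.PP.Base
import Pool.Agent.H620R2.Gauge.X

/-! K2: rational approximation of the sign function. -/

namespace Pool.Agent.H943R3.PP

open Pool.Agent.NPC Pool.Agent.H620R2.Gauge Finset H568R2 Pool.Agent.H676

/-- K2 -/
theorem qq_nonneg (l k : ℕ) (x : ℝ) : 0 ≤ qq l k x := by
  unfold qq
  rw [pow_mul]
  positivity

namespace K2

lemma exists_good {l : ℕ} {x : ℝ} (h1 : 1 ≤ x) (h2 : x ≤ 2 ^ l) :
    ∃ i ∈ Finset.range (l + 1), |x - 2 ^ i| ≤ 1 / 3 * (x + 2 ^ i) := by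
  obtain ⟨n, hn1, hn2⟩ := exists_nat_pow_near h1 (by norm_num : (1 : ℝ) < 2)
  refine ⟨n, ?_, ?_⟩
  · rw [Finset.mem_range]
    have h3 : (2 : ℝ) ^ n ≤ 2 ^ l := hn1.trans h2
    have h4 := (pow_le_pow_iff_right₀ (by norm_num : (1 : ℝ) < 2)).1 h3
    omega
  · rw [abs_of_nonneg (by linarith), pow_succ] at *
    linarith

lemma key {l : ℕ} {x : ℝ} (h1 : 1 ≤ x) (h2 : x ≤ 2 ^ l) :
    |∏ i ∈ Finset.range (l + 1), (x - 2 ^ i)| ≤
      1 / 3 * |∏ i ∈ Finset.range (l + 1), (-x - 2 ^ i)| ∧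
      0 < |∏ i ∈ Finset.range (l + 1), (-x - 2 ^ i)| := by
  have hx : 0 < x := by linarith
  have e1 : |∏ i ∈ Finset.range (l + 1), (-x - 2 ^ i)| =
      ∏ i ∈ Finset.range (l + 1), (x + 2 ^ i) := by
    rw [Finset.abs_prod]
    apply Finset.prod_congr rfl
    intro i _
    have h3 : (0 : ℝ) < 2 ^ i := by positivity
    rw [abs_of_neg (by linarith)]
    ring
  rw [e1]
  constructor
  · rw [Finset.abs_prod]
    obtain ⟨i, hi, hi'⟩ := exists_good h1 h2
    rw [← Finset.mul_prod_erase _ _ hi, ← Finset.mul_prod_erase _ (fun i => x + 2 ^ i) hi,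
      ← mul_assoc]
    apply mul_le_mul hi' _ (Finset.prod_nonneg fun _ _ => abs_nonneg _) (by positivity)
    apply Finset.prod_le_prod (fun _ _ => abs_nonneg _)
    intro j _
    have h3 : (0 : ℝ) < 2 ^ j := by positivity
    rw [abs_le]
    constructor <;> linarith
  · apply Finset.prod_pos
    intro i _
    positivity

lemma qq_abs (l k : ℕ) (x : ℝ) :
    qq l k x = |∏ i ∈ Finset.range (l + 1), (x - 2 ^ i)| ^ (2 * k) := by
  unfold qq
  rw [pow_mul, pow_mul, sq_abs]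

lemma qq_le {l : ℕ} (k : ℕ) {x : ℝ} (h1 : 1 ≤ x) (h2 : x ≤ 2 ^ l) :
    qq l k x ≤ (1 / 9) ^ k * qq l k (-x) ∧ 0 < qq l k (-x) := by
  obtain ⟨h3, h4⟩ := key h1 h2
  rw [qq_abs, qq_abs]
  refine ⟨?_, by positivity⟩
  calc |∏ i ∈ Finset.range (l + 1), (x - 2 ^ i)| ^ (2 * k) ≤
      (1 / 3 * |∏ i ∈ Finset.range (l + 1), (-x - 2 ^ i)|) ^ (2 * k) :=
        pow_le_pow_left₀ (abs_nonneg _) h3 _
    _ = _ := by
        rw [mul_pow, pow_mul (1 / 3 : ℝ)]
        norm_num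

lemma sD_neg (l k : ℕ) (x : ℝ) : sD l k (-x) = sD l k x := by
  unfold sD
  rw [neg_neg, add_comm]

lemma sN_neg (l k : ℕ) (x : ℝ) : sN l k (-x) = - sN l k x := by
  unfold sN
  rw [neg_neg]
  ring

lemma sD_pos' {l k : ℕ} {x : ℝ} (h1 : 1 ≤ x) (h2 : x ≤ 2 ^ l) : 0 < sD l k x := by
  have h3 := (qq_le k h1 h2).2
  have h4 := qq_nonneg l k x
  unfold sD
  linarith

lemma sND' {l k : ℕ} {x : ℝ} (h1 : 1 ≤ x) (h2 : x ≤ 2 ^ l) :
    |sN l k x / sD l k x - 1| ≤ 2 * (1 / 9) ^ k := by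
  obtain ⟨h3, h4⟩ := qq_le k h1 h2
  have h5 := qq_nonneg l k x
  have h6 : 0 < sD l k x := sD_pos' h1 h2
  have h7 : sN l k x / sD l k x - 1 = -(2 * qq l k x / sD l k x) := by
    rw [eq_neg_iff_add_eq_zero]
    field_simp
    unfold sN sD
    ring
  rw [h7, abs_neg, abs_of_nonneg (by positivity), div_le_iff₀ h6]
  have h8 : (1 / 9 : ℝ) ^ k * qq l k (-x) ≤ (1 / 9) ^ k * sD l k x := by
    apply mul_le_mul_of_nonneg_left _ (by positivity)
    unfold sD
    linarith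
  linarith

variable {I : Type} [Fintype I] [DecidableEq I]

lemma deg_pow {D : ℕ} {f : (I → Bool) → ℝ} (h : Deg D f) (n : ℕ) :
    Deg (n * D) (fun a => f a ^ n) := by
  induction n with
  | zero =>
    simp only [zero_mul, pow_zero]
    exact Deg.const 1
  | succ n ih =>
    have h1 := ih.mul h
    rw [Nat.succ_mul]
    refine (congrArg (Deg _) (funext fun a => ?_)).mp h1
    rw [pow_succ]

lemma deg_qq {q l k : ℕ} {P : (I → Bool) → ℝ} (h : Deg q P) :
    Deg (2 * k * (l + 1) * q) (fun a => qq l k (P a)) := by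
  have h1 : Deg ((Finset.range (l + 1)).card * q)
      (fun a => ∏ i ∈ Finset.range (l + 1), (P a - 2 ^ i)) := by
    apply deg_prod (Finset.range (l + 1)) (fun i a => P a - 2 ^ i) q
    intro i _
    have h2 := h.add ((Deg.const (I := I) (-2 ^ i)).mono (Nat.zero_le q))
    refine (congrArg (Deg _) (funext fun a => ?_)).mp h2
    ring
  rw [Finset.card_range] at h1
  have h3 := deg_pow h1 (2 * k)
  rw [← mul_assoc] at h3
  exact h3

lemma deg_neg {q : ℕ} {P : (I → Bool) → ℝ} (h : Deg q P) : Deg q (fun a => -P a) := by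
  have h1 := h.smul (-1)
  refine (congrArg (Deg _) (funext fun a => ?_)).mp h1
  ring

end K2

/-- K2 -/
theorem sD_pos {l k : ℕ} {x : ℝ} (h1 : 1 ≤ |x|) (h2 : |x| ≤ 2 ^ l) : 0 < sD l k x := by
  rcases abs_cases x with ⟨h, _⟩ | ⟨h, _⟩
  · rw [h] at h1 h2
    exact K2.sD_pos' h1 h2
  · rw [h] at h1 h2
    rw [← K2.sD_neg]
    exact K2.sD_pos' h1 h2

/-- K2 -/
theorem sN_abs_le {l k : ℕ} (x : ℝ) : |sN l k x| ≤ sD l k x := by
  have h1 := qq_nonneg l k x
  have h2 := qq_nonneg l k (-x)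
  unfold sN sD
  rw [abs_le]
  constructor <;> linarith

/-- K2 -/
theorem sND_sign {l k : ℕ} {x : ℝ} (h1 : 1 ≤ |x|) (h2 : |x| ≤ 2 ^ l) :
    |sN l k x / sD l k x - (if 0 < x then 1 else -1)| ≤ 2 * (1 / 9) ^ k := by
  rcases abs_cases x with ⟨h, _⟩ | ⟨h, h0⟩
  · rw [h] at h1 h2
    rw [if_pos (by linarith)]
    exact K2.sND' h1 h2
  · rw [h] at h1 h2
    rw [if_neg (by linarith)]
    have h3 := K2.sND' (k := k) h1 h2
    rw [K2.sN_neg, K2.sD_neg, neg_div] at h3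
    rw [← abs_neg] at h3
    have e : -(-(sN l k x / sD l k x) - 1) = sN l k x / sD l k x - -1 := by ring
    rw [e] at h3
    exact h3

section

variable {I : Type} [Fintype I] [DecidableEq I]

/-- K2 -/
theorem deg_sN {q l k : ℕ} {P : (I → Bool) → ℝ} (h : Deg q P) :
    Deg (2 * k * (l + 1) * q) (fun a => sN l k (P a)) := by
  have h1 := (K2.deg_qq (l := l) (k := k) (K2.deg_neg h)).add
    ((K2.deg_qq (l := l) (k := k) h).smul (-1))
  refine (congrArg (Deg _) (funext fun a => ?_)).mp h1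
  unfold sN
  ring

/-- K2 -/
theorem deg_sD {q l k : ℕ} {P : (I → Bool) → ℝ} (h : Deg q P) :
    Deg (2 * k * (l + 1) * q) (fun a => sD l k (P a)) :=
  (K2.deg_qq (l := l) (k := k) (K2.deg_neg h)).add (K2.deg_qq (l := l) (k := k) h)

end

end Pool.Agent.H943R3.PP
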