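import Pool.Agent.H943R3.PP.Base

/-!
# Task K3: the direct product theorem for voting polynomials, main step
-/

namespace Pool.Agent.H943R3.PP

open Finset H568R2 Pool.Agent.H676

namespace K3

variable {I : Type} [Fintype I] [DecidableEq I]

/-- symmetric difference -/
def xr (S T : I → Bool) : I → Bool := fun i => S i ^^ T i

omit [DecidableEq I] in
theorem ch_xr (S T a : I → Bool) : ch (xr S T) a = ch S a * ch T a := by
  unfold ch xr
  rw [← Finset.prod_mul_distrib]
  refine Finset.prod_congr rfl fun i _ => ?_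
  cases S i <;> cases T i <;> cases a i <;> norm_num

omit [DecidableEq I] in
theorem ch_sq (S a : I → Bool) : ch S a * ch S a = 1 := by
  unfold ch
  rw [← Finset.prod_mul_distrib]
  refine Finset.prod_eq_one fun i _ => ?_
  cases S i <;> cases a i <;> norm_num

omit [DecidableEq I] in
theorem ch_cases (S a : I → Bool) : ch S a = 1 ∨ ch S a = -1 := by
  have h := ch_sq S a
  have : (ch S a - 1) * (ch S a + 1) = 0 := by linarith
  rcases mul_eq_zero.1 this with h | h
  · left; linarith
  · right; linarith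

theorem ch_ind (B : Finset I) (a : I → Bool) :
    ch (ind B) a = ∏ i ∈ B, (if a i = true then (-1 : ℝ) else 1) := by
  unfold ch ind
  rw [← Finset.prod_subset (Finset.subset_univ B)]
  · refine Finset.prod_congr rfl fun i hi => ?_
    simp [hi]
  · intro i _ hi
    simp [hi]

theorem ch_biUnion {ι : Type} [DecidableEq ι] (Y : Finset ι) (B : ι → Finset I)
    (hB : ∀ x ∈ Y, ∀ x' ∈ Y, x ≠ x' → Disjoint (B x) (B x')) (a : I → Bool) :
    ch (ind (Y.biUnion B)) a = ∏ x ∈ Y, ch (ind (B x)) a := by
  rw [ch_ind, Finset.prod_biUnion]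
  · refine Finset.prod_congr rfl fun x _ => ?_
    rw [ch_ind]
  · intro x hx y hy hxy
    exact hB x hx y hy hxy

/-- Parseval for a part of the spectrum -/
theorem part_le (f : (I → Bool) → ℝ) (p : (I → Bool) → Prop) [DecidablePred p] :
    ∑ a, (∑ S ∈ univ.filter p, co f S * ch S a) ^ 2 ≤ ∑ a, f a ^ 2 := by
  have h1 : ∀ T, co (fun a => ∑ S ∈ univ.filter p, co f S * ch S a) T =
      if p T then co f T else 0 := by
    intro T
    rw [co_sum]
    have h2 : ∀ S, co (fun a => co f S * ch S a) T = if S = T then co f S else 0 := by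
      intro S
      rw [co_smul]
      unfold co av
      rw [ch_ortho]
      split_ifs with h
      · rw [div_self (by positivity), mul_one]
      · simp
    rw [Finset.sum_congr rfl fun S _ => h2 S]
    rw [Finset.sum_ite_eq' (univ.filter p) T (fun S => co f S)]
    simp
  have h3 := parseval (fun a => ∑ S ∈ univ.filter p, co f S * ch S a)
  have h4 := parseval f
  have h5 : ∑ S, (co (fun a => ∑ S ∈ univ.filter p, co f S * ch S a) S) ^ 2 ≤
      ∑ S, (co f S) ^ 2 := by
    refine Finset.sum_le_sum fun S _ => ?_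
    rw [h1 S]
    split_ifs
    · exact le_rfl
    · rw [zero_pow (by norm_num)]
      exact sq_nonneg _
  rw [h3, h4] at h5
  unfold av at h5
  have h6 : (0 : ℝ) < 2 ^ Fintype.card I := by positivity
  exact (div_le_div_iff_of_pos_right h6).1 h5

/-- the sign -/
noncomputable def sg (x : ℝ) : ℝ := if 0 < x then 1 else -1

theorem sg_abs (x : ℝ) : |sg x| = 1 := by
  unfold sg; split_ifs <;> norm_num

/-- products of numbers of absolute value at most one -/
theorem prod_sub {ι : Type} [DecidableEq ι] (Y : Finset ι) (u v : ι → ℝ) (δ : ℝ)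
    (hu : ∀ x ∈ Y, |u x| ≤ 1) (hv : ∀ x ∈ Y, |v x| ≤ 1) (h : ∀ x ∈ Y, |u x - v x| ≤ δ) :
    |∏ x ∈ Y, u x - ∏ x ∈ Y, v x| ≤ Y.card * δ := by
  induction Y using Finset.induction_on with
  | empty => simp
  | insert y Y hy ih =>
    rw [Finset.prod_insert hy, Finset.prod_insert hy, Finset.card_insert_of_notMem hy]
    have ih' := ih (fun x hx => hu x (Finset.mem_insert_of_mem hx))
      (fun x hx => hv x (Finset.mem_insert_of_mem hx))
      (fun x hx => h x (Finset.mem_insert_of_mem hx))
    have hy1 := hu y (Finset.mem_insert_self y Y)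
    have hy2 := h y (Finset.mem_insert_self y Y)
    have hV : |∏ x ∈ Y, v x| ≤ 1 := by
      rw [Finset.abs_prod]
      exact Finset.prod_le_one (fun x _ => abs_nonneg _)
        (fun x hx => hv x (Finset.mem_insert_of_mem hx))
    have e : u y * ∏ x ∈ Y, u x - v y * ∏ x ∈ Y, v x =
        u y * (∏ x ∈ Y, u x - ∏ x ∈ Y, v x) + (u y - v y) * ∏ x ∈ Y, v x := by ring
    rw [e]
    refine (abs_add_le _ _).trans ?_
    rw [abs_mul, abs_mul]
    have h1 : |u y| * |∏ x ∈ Y, u x - ∏ x ∈ Y, v x| ≤ 1 * (Y.card * δ) :=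
      mul_le_mul hy1 ih' (abs_nonneg _) (by norm_num)
    have h2 : |u y - v y| * |∏ x ∈ Y, v x| ≤ δ * 1 :=
      mul_le_mul hy2 hV (abs_nonneg _) (le_trans (abs_nonneg _) hy2)
    push_cast
    linarith

/-- a function with few small characters times a low degree function times a low character -/
theorem orth {h g : (I → Bool) → ℝ} {D : ℕ} (hg : Deg D g) (T : I → Bool)
    (hh : ∀ R : I → Bool, wt R ≤ D → co h (xr R T) = 0) :
    ∑ a, h a * (g a * ch T a) = 0 := by
  have h1 : ∀ a, h a * (g a * ch T a) = ∑ R, co g R * (h a * ch (xr R T) a) := by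
    intro a
    rw [inversion g a, Finset.sum_mul, Finset.mul_sum]
    refine Finset.sum_congr rfl fun R _ => ?_
    rw [ch_xr]; ring
  rw [Finset.sum_congr rfl fun a _ => h1 a, Finset.sum_comm]
  refine Finset.sum_eq_zero fun R _ => ?_
  rw [← Finset.mul_sum]
  by_cases hR : wt R ≤ D
  · have h2 := hh R hR
    unfold co av at h2
    rw [div_eq_zero_iff] at h2
    rcases h2 with h2 | h2
    · rw [h2, mul_zero]
    · exact absurd h2 (by positivity)
  · rw [hg R (not_le.1 hR), zero_mul]

theorem num_lt (k : ℕ) : 2 ^ k * (k * (2 * (1 / 9 : ℝ) ^ k)) < 1 := by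
  rcases Nat.eq_zero_or_pos k with rfl | hk
  · norm_num
  · have h1 : (k : ℝ) ≤ 2 ^ k := by exact_mod_cast Nat.lt_two_pow_self.le
    have h2 : (2 : ℝ) ^ k * (k * (2 * (1 / 9 : ℝ) ^ k)) ≤ 2 ^ k * (2 ^ k * (2 * (1 / 9 : ℝ) ^ k)) := by
      gcongr
    have h3 : (2 : ℝ) ^ k * (2 ^ k * (2 * (1 / 9 : ℝ) ^ k)) = 2 * (4 / 9) ^ k := by
      rw [show (4 / 9 : ℝ) = 2 * 2 * (1 / 9) by norm_num, mul_pow, mul_pow]; ring
    have h4 : (4 / 9 : ℝ) ^ k ≤ (4 / 9) ^ 1 := pow_le_pow_of_le_one (by norm_num) (by norm_num) hk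
    rw [h3] at h2
    linarith

section main

variable {ι : Type} [DecidableEq ι] (X : Finset ι) (B : ι → Finset I)

/-- the number of elements of `S` in block `x` -/
def nb (S : I → Bool) (x : ι) : ℕ := ((B x).filter (fun i => S i = true)).card

/-- the high blocks of a character -/
def hi (S : I → Bool) : Finset ι := X.filter (fun x => (B x).card / 2 < nb B S x)

variable {X B}

theorem nb_xr_le (S R : I → Bool) (x : ι) : nb B (xr R S) x ≤ nb B S x + wt R := by
  unfold nb wt
  refine (Finset.card_le_card (t := (B x).filter (fun i => S i = true) ∪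
    univ.filter (fun i => R i = true)) ?_).trans (Finset.card_union_le _ _)
  intro i hi
  rw [Finset.mem_filter] at hi
  rw [Finset.mem_union, Finset.mem_filter, Finset.mem_filter]
  have h := hi.2
  unfold xr at h
  cases hS : S i <;> cases hR : R i
  · rw [hS, hR] at h; simp at h
  · exact Or.inr ⟨Finset.mem_univ _, rfl⟩
  · exact Or.inl ⟨hi.1, rfl⟩
  · rw [hS, hR] at h; simp at h

theorem nb_flip (hB : ∀ x ∈ X, ∀ x' ∈ X, x ≠ x' → Disjoint (B x) (B x')) (S : I → Bool)
    (x : ι) (hx : x ∈ X) :
    nb B (xr S (ind ((hi X B S).biUnion B))) x ≤ (B x).card / 2 := by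
  by_cases h : x ∈ hi X B S
  · have h1 : (B x).card / 2 < nb B S x := (Finset.mem_filter.1 h).2
    have h2 : nb B (xr S (ind ((hi X B S).biUnion B))) x =
        ((B x).filter (fun i => ¬ S i = true)).card := by
      unfold nb
      congr 1
      refine Finset.filter_congr fun i hi' => ?_
      have h3 : ind ((hi X B S).biUnion B) i = true := by
        unfold ind
        rw [decide_eq_true_eq, Finset.mem_biUnion]
        exact ⟨x, h, hi'⟩
      unfold xr
      rw [h3]
      cases S i <;> simp
    have h4 : nb B S x + ((B x).filter (fun i => ¬ S i = true)).card = (B x).card := by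
      unfold nb
      exact Finset.card_filter_add_card_filter_not _
    omega
  · have h1 : nb B S x ≤ (B x).card / 2 := by
      by_contra hc
      exact h (Finset.mem_filter.2 ⟨hx, not_le.1 hc⟩)
    have h2 : nb B (xr S (ind ((hi X B S).biUnion B))) x = nb B S x := by
      unfold nb
      congr 1
      refine Finset.filter_congr fun i hi' => ?_
      have h3 : ind ((hi X B S).biUnion B) i = false := by
        unfold ind
        rw [decide_eq_false_iff_not, Finset.mem_biUnion]
        rintro ⟨y, hy, hy'⟩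
        have hyX : y ∈ X := (Finset.mem_filter.1 hy).1
        have hne : x ≠ y := fun e => h (e ▸ hy)
        exact (Finset.disjoint_left.1 (hB x hx y hyX hne)) hi' hy'
      unfold xr
      rw [h3, Bool.xor_false]
    omega

end main

end K3

open K3 in
/-- The direct product theorem, assuming the properties of the approximation of the sign
function. -/
theorem K3.main {I : Type} [Fintype I] [DecidableEq I]
    (orth' : ∀ (E L : Finset (I → Bool)), L.card < E.card →
      ∃ f : (I → Bool) → ℝ, f ≠ 0 ∧ (∀ a, a ∉ E → f a = 0) ∧ ∀ S ∈ L, co f S = 0)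
    (l : ℕ)
    (pos : ∀ (k : ℕ) (x : ℝ), 1 ≤ |x| → |x| ≤ 2 ^ l → 0 < sD l k x)
    (abs_le : ∀ (k : ℕ) (x : ℝ), |sN l k x| ≤ sD l k x)
    (sign : ∀ (k : ℕ) (x : ℝ), 1 ≤ |x| → |x| ≤ 2 ^ l →
      |sN l k x / sD l k x - (if 0 < x then 1 else -1)| ≤ 2 * (1 / 9) ^ k)
    (degN : ∀ (q k : ℕ) (P : (I → Bool) → ℝ), Deg q P →
      Deg (2 * k * (l + 1) * q) (fun a => sN l k (P a)))
    (degD : ∀ (q k : ℕ) (P : (I → Bool) → ℝ), Deg q P →
      Deg (2 * k * (l + 1) * q) (fun a => sD l k (P a)))
    {ι : Type} [DecidableEq ι] (X : Finset ι) (B : ι → Finset I)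
    (hB : ∀ x ∈ X, ∀ x' ∈ X, x ≠ x' → Disjoint (B x) (B x'))
    (P : ι → (I → Bool) → ℝ) (q : ℕ) (hdeg : ∀ x ∈ X, Deg q (P x))
    (h1 : ∀ x ∈ X, ∀ a, 1 ≤ |P x a|) (h2 : ∀ x ∈ X, ∀ a, |P x a| ≤ 2 ^ l) :
    (EE X B P).card ≤ (LL X B (2 * X.card ^ 2 * (l + 1) * q)).card := by
  classical
  by_contra hcon
  rw [not_le] at hcon
  obtain ⟨h, hne, hsup, hort⟩ := orth' _ _ hcon
  set k : ℕ := X.card with hk
  set D : ℕ := 2 * k ^ 2 * (l + 1) * q with hD
  -- the weight
  let ω : (I → Bool) → ℝ := fun a => ∏ x ∈ X, sD l k (P x a)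
  have hω : ∀ a, 0 < ω a := fun a => Finset.prod_pos fun x hx => pos k _ (h1 x hx a) (h2 x hx a)
  let f : (I → Bool) → ℝ := fun a => ω a * h a
  have hf0 : ∀ a, a ∉ EE X B P → f a = 0 := fun a ha => by
    show ω a * h a = 0
    rw [hsup a ha, mul_zero]
  -- the parts of `f`
  let U : Finset ι → (I → Bool) := fun Y => ind (Y.biUnion B)
  let F : Finset ι → (I → Bool) → ℝ := fun Y a =>
    ∑ S ∈ univ.filter (fun S => hi X B S = Y), co f S * ch (xr S (U Y)) a
  let χ : Finset ι → (I → Bool) → ℝ := fun Y a => ch (U Y) a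
  have hχF : ∀ Y a, χ Y a * F Y a =
      ∑ S ∈ univ.filter (fun S => hi X B S = Y), co f S * ch S a := by
    intro Y a
    show ch (U Y) a * ∑ S ∈ univ.filter (fun S => hi X B S = Y), co f S * ch (xr S (U Y)) a = _
    rw [Finset.mul_sum]
    refine Finset.sum_congr rfl fun S _ => ?_
    rw [ch_xr]
    have := ch_sq (U Y) a
    calc ch (U Y) a * (co f S * (ch S a * ch (U Y) a)) =
        co f S * ch S a * (ch (U Y) a * ch (U Y) a) := by ring
      _ = _ := by rw [this, mul_one]
  -- (a) decomposition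
  have ha : ∀ a, f a = ∑ Y ∈ X.powerset, χ Y a * F Y a := by
    intro a
    rw [inversion f a, Finset.sum_congr rfl fun Y _ => hχF Y a]
    rw [Finset.sum_fiberwise_of_maps_to (fun S _ => ?_)]
    rw [Finset.mem_powerset]
    exact Finset.filter_subset _ _
  -- (b) signs
  have hb : ∀ a ∈ EE X B P, ∀ Y ∈ X.powerset, χ Y a = ∏ x ∈ Y, sg (P x a) := by
    intro a ha Y hY
    rw [Finset.mem_powerset] at hY
    show ch (ind (Y.biUnion B)) a = _
    rw [ch_biUnion Y B (fun x hx x' hx' => hB x (hY hx) x' (hY hx'))]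
    refine Finset.prod_congr rfl fun x hx => ?_
    have h3 := (Finset.mem_filter.1 ha).2 x (hY hx)
    unfold sg
    rcases ch_cases (ind (B x)) a with h4 | h4
    · rw [h4] at h3 ⊢
      rw [if_pos (by linarith)]
    · rw [h4] at h3 ⊢
      rw [if_neg (by linarith)]
  -- (c) orthogonality
  let s : Finset ι → (I → Bool) → ℝ := fun Y a => ∏ x ∈ Y, (sN l k (P x a) / sD l k (P x a))
  have hc : ∀ Y ∈ X.powerset, ∑ a, f a * (s Y a * F Y a) = 0 := by
    intro Y hY
    rw [Finset.mem_powerset] at hY
    let g : (I → Bool) → ℝ := fun a => ∏ x ∈ X, (if x ∈ Y then sN l k (P x a) else sD l k (P x a))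
    have hg : ∀ a, ω a * s Y a = g a := by
      intro a
      show (∏ x ∈ X, sD l k (P x a)) * ∏ x ∈ Y, (sN l k (P x a) / sD l k (P x a)) =
        ∏ x ∈ X, (if x ∈ Y then sN l k (P x a) else sD l k (P x a))
      have e1 : ∏ x ∈ Y, (sN l k (P x a) / sD l k (P x a)) =
          ∏ x ∈ X, (if x ∈ Y then sN l k (P x a) / sD l k (P x a) else 1) := by
        rw [Finset.prod_ite_mem, Finset.inter_eq_right.2 hY]
      rw [e1, ← Finset.prod_mul_distrib]
      refine Finset.prod_congr rfl fun x hx => ?_
      have := pos k _ (h1 x hx a) (h2 x hx a)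
      split_ifs
      · field_simp
      · rw [mul_one]
    have hgd : Deg D g := by
      have e2 : ∀ Z : Finset ι, Z ⊆ X → Deg (Z.card * (2 * k * (l + 1) * q))
          (fun a => ∏ x ∈ Z, (if x ∈ Y then sN l k (P x a) else sD l k (P x a))) := by
        intro Z
        induction Z using Finset.induction_on with
        | empty =>
          intro _
          simp only [Finset.prod_empty, Finset.card_empty, zero_mul]
          exact Deg.const 1
        | insert z Z hz ih =>
          intro hZ
          have hzX := hZ (Finset.mem_insert_self z Z)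
          have e3 : Deg (2 * k * (l + 1) * q)
              (fun a => (if z ∈ Y then sN l k (P z a) else sD l k (P z a))) := by
            by_cases hzY : z ∈ Y
            · simp only [hzY, if_true]
              exact degN q k (P z) (hdeg z hzX)
            · simp only [hzY, if_false]
              exact degD q k (P z) (hdeg z hzX)
          have e4 := e3.mul (ih fun x hx => hZ (Finset.mem_insert_of_mem hx))
          rw [Finset.card_insert_of_notMem hz, add_mul, one_mul, add_comm]
          refine (congrArg (Deg _) (funext fun a => ?_)).mp e4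
          rw [Finset.prod_insert hz]
      refine (e2 X (Finset.Subset.refl X)).mono (le_of_eq ?_)
      rw [hD, ← hk]; ring
    have e5 : ∀ a, f a * (s Y a * F Y a) =
        ∑ S ∈ univ.filter (fun S => hi X B S = Y), co f S * (h a * (g a * ch (xr S (U Y)) a)) := by
      intro a
      show ω a * h a * (s Y a * ∑ S ∈ univ.filter (fun S => hi X B S = Y),
        co f S * ch (xr S (U Y)) a) = _
      rw [← hg a, Finset.mul_sum, Finset.mul_sum]
      refine Finset.sum_congr rfl fun S _ => ?_
      ring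
    rw [Finset.sum_congr rfl fun a _ => e5 a, Finset.sum_comm]
    refine Finset.sum_eq_zero fun S hS => ?_
    have hSY := (Finset.mem_filter.1 hS).2
    rw [← Finset.mul_sum, orth hgd, mul_zero]
    intro R hR
    apply hort
    unfold LL
    rw [Finset.mem_filter]
    refine ⟨Finset.mem_univ _, fun x hx => ?_⟩
    have e6 := nb_xr_le (B := B) (xr S (U Y)) R x
    have e7 := nb_flip hB S x hx
    rw [hSY] at e7
    exact e6.trans (Nat.add_le_add e7 hR)
  -- the estimate
  set Wf : ℝ := ∑ a, f a ^ 2 with hW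
  have hF2 : ∀ Y, ∑ a, F Y a ^ 2 ≤ Wf := by
    intro Y
    have e1 := part_le f (fun S => hi X B S = Y)
    refine le_trans (le_of_eq ?_) e1
    refine Finset.sum_congr rfl fun a _ => ?_
    rw [← hχF Y a, mul_pow]
    have := ch_sq (U Y) a
    have e2 : χ Y a ^ 2 = 1 := by rw [sq]; exact this
    rw [e2, one_mul]
  have hsum : Wf = ∑ Y ∈ X.powerset, ∑ a, f a * ((χ Y a - s Y a) * F Y a) := by
    have e1 : ∀ Y ∈ X.powerset, ∑ a, f a * ((χ Y a - s Y a) * F Y a) =
        ∑ a, f a * (χ Y a * F Y a) := by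
      intro Y hY
      have e2 := hc Y hY
      have e3 : ∀ a, f a * ((χ Y a - s Y a) * F Y a) =
          f a * (χ Y a * F Y a) - f a * (s Y a * F Y a) := fun a => by ring
      rw [Finset.sum_congr rfl fun a _ => e3 a, Finset.sum_sub_distrib, e2, sub_zero]
    rw [Finset.sum_congr rfl e1, Finset.sum_comm, hW]
    refine Finset.sum_congr rfl fun a _ => ?_
    rw [← Finset.mul_sum, ← ha a, sq]
  set δ : ℝ := 2 * (1 / 9) ^ k with hδ
  have hδ0 : 0 ≤ δ := by rw [hδ]; positivity
  have hkδ : 0 ≤ (k : ℝ) * δ := mul_nonneg (Nat.cast_nonneg k) hδ0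
  have hbound : ∀ Y ∈ X.powerset, ∑ a, f a * ((χ Y a - s Y a) * F Y a) ≤ k * δ * Wf := by
    intro Y hY
    have e1 : ∀ a, f a * ((χ Y a - s Y a) * F Y a) ≤ k * δ * ((f a ^ 2 + F Y a ^ 2) / 2) := by
      intro a
      by_cases haE : a ∈ EE X B P
      · have hYX := Finset.mem_powerset.1 hY
        have e2 : |χ Y a - s Y a| ≤ k * δ := by
          rw [hb a haE Y hY]
          have e3 := prod_sub Y (fun x => sg (P x a)) (fun x => sN l k (P x a) / sD l k (P x a)) δ
            (fun x _ => (sg_abs _).le) (fun x hx => by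
              have := pos k _ (h1 x (hYX hx) a) (h2 x (hYX hx) a)
              rw [abs_div, abs_of_pos this, div_le_one this]
              exact abs_le k _) (fun x hx => by
              rw [abs_sub_comm]
              exact sign k _ (h1 x (hYX hx) a) (h2 x (hYX hx) a))
          refine e3.trans ?_
          have e4 : (Y.card : ℝ) ≤ k := by
            rw [hk]; exact_mod_cast Finset.card_le_card hYX
          exact mul_le_mul_of_nonneg_right e4 hδ0
        have e5 : f a * ((χ Y a - s Y a) * F Y a) ≤ |χ Y a - s Y a| * (|f a| * |F Y a|) := by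
          have e7 : |f a * ((χ Y a - s Y a) * F Y a)| = |f a| * (|χ Y a - s Y a| * |F Y a|) := by
            rw [abs_mul (f a), abs_mul (χ Y a - s Y a)]
          refine (le_abs_self _).trans (le_of_eq ?_)
          rw [e7, ← mul_assoc, ← mul_assoc, mul_comm |f a|]
        have e6 : |f a| * |F Y a| ≤ (f a ^ 2 + F Y a ^ 2) / 2 := by
          have := sq_nonneg (|f a| - |F Y a|)
          rw [sub_sq, sq_abs, sq_abs] at this
          linarith
        refine e5.trans ?_
        exact mul_le_mul e2 e6 (mul_nonneg (abs_nonneg _) (abs_nonneg _)) hkδ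
      · rw [hf0 a haE, zero_mul]
        exact mul_nonneg hkδ (div_nonneg (add_nonneg (sq_nonneg _) (sq_nonneg _)) (by norm_num))
    refine (Finset.sum_le_sum fun a _ => e1 a).trans ?_
    rw [← Finset.mul_sum, ← Finset.sum_div, Finset.sum_add_distrib]
    apply mul_le_mul_of_nonneg_left _ hkδ
    have := hF2 Y
    linarith
  have hfin : Wf ≤ 2 ^ k * (k * δ) * Wf := by
    calc Wf = _ := hsum
      _ ≤ ∑ Y ∈ X.powerset, k * δ * Wf := Finset.sum_le_sum hbound
      _ = 2 ^ k * (k * δ) * Wf := by
        rw [Finset.sum_const, Finset.card_powerset, nsmul_eq_mul, ← hk]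
        push_cast; ring
  have hlt := num_lt k
  have hW0 : 0 ≤ Wf := Finset.sum_nonneg fun a _ => sq_nonneg _
  have hWz : Wf = 0 := by
    by_contra hne'
    have hpos : 0 < Wf := lt_of_le_of_ne hW0 (Ne.symm hne')
    have : 2 ^ k * (k * δ) * Wf < 1 * Wf := mul_lt_mul_of_pos_right hlt hpos
    linarith
  apply hne
  funext a
  have e1 := (Finset.sum_eq_zero_iff_of_nonneg (fun a _ => sq_nonneg (f a))).1 hWz a
    (Finset.mem_univ a)
  have e2 : ω a * h a = 0 := by
    have : f a ^ 2 = 0 := e1
    exact pow_eq_zero_iff (by norm_num) |>.1 this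
  rcases mul_eq_zero.1 e2 with e3 | e3
  · exact absurd e3 (hω a).ne'
  · exact e3

end Pool.Agent.H943R3.PP
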