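import Pool.Agent.H943R3.PP.K1
import Pool.Agent.H943R3.PP.K2
import Pool.Agent.H943R3.PP.K3

/-!
# Task K3: the direct product theorem for voting polynomials
-/

namespace Pool.Agent.H943R3.PP

open Finset H568R2 Pool.Agent.H676

theorem card_EE_le {I : Type} [Fintype I] [DecidableEq I] {ι : Type} [DecidableEq ι]
    (X : Finset ι) (B : ι → Finset I)
    (hB : ∀ x ∈ X, ∀ x' ∈ X, x ≠ x' → Disjoint (B x) (B x'))
    (P : ι → (I → Bool) → ℝ) (q l : ℕ) (hdeg : ∀ x ∈ X, Deg q (P x))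
    (h1 : ∀ x ∈ X, ∀ a, 1 ≤ |P x a|) (h2 : ∀ x ∈ X, ∀ a, |P x a| ≤ 2 ^ l) :
    (EE X B P).card ≤ (LL X B (2 * X.card ^ 2 * (l + 1) * q)).card :=
  K3.main (fun E L h => exists_orth E L h) l (fun _ _ h h' => sD_pos h h')
    (fun _ x => sN_abs_le x) (fun _ _ h h' => sND_sign h h') (fun _ _ _ h => deg_sN h)
    (fun _ _ _ h => deg_sD h) X B hB P q hdeg h1 h2

end Pool.Agent.H943R3.PP
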