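import Mathlib

/-!
Project PP (helper943), task K5 (helper690): at most 3/4 of the subsets of a set with T elements
have at most T/2 + D elements, if 16 (D+1)^2 is at most T.
-/

namespace Pool.Agent.H943R3.PP

namespace K5

theorem cb_sq (m : ℕ) : m.centralBinom ^ 2 * (2 * m + 1) ≤ 16 ^ m := by
  induction m with
  | zero => simp
  | succ m ih =>
    have h1 : (m + 1) * (m + 1).centralBinom = 2 * (2 * m + 1) * m.centralBinom :=
      Nat.succ_mul_centralBinom_succ m
    have h2 : (m + 1) ^ 2 * ((m + 1).centralBinom ^ 2 * (2 * (m + 1) + 1)) ≤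
        (m + 1) ^ 2 * 16 ^ (m + 1) := by
      have e1 : (m + 1) ^ 2 * ((m + 1).centralBinom ^ 2 * (2 * (m + 1) + 1)) =
          (4 * (2 * m + 1) * (2 * m + 3)) * (m.centralBinom ^ 2 * (2 * m + 1)) := by
        have : (m + 1) ^ 2 * ((m + 1).centralBinom ^ 2 * (2 * (m + 1) + 1)) =
          ((m + 1) * (m + 1).centralBinom) ^ 2 * (2 * m + 3) := by ring
        rw [this, h1]
        ring
      rw [e1]
      have e2 : 4 * (2 * m + 1) * (2 * m + 3) ≤ 16 * (m + 1) ^ 2 := by nlinarith
      calc (4 * (2 * m + 1) * (2 * m + 3)) * (m.centralBinom ^ 2 * (2 * m + 1))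
          ≤ (16 * (m + 1) ^ 2) * 16 ^ m := Nat.mul_le_mul e2 ih
        _ = (m + 1) ^ 2 * 16 ^ (m + 1) := by ring
    exact Nat.le_of_mul_le_mul_left h2 (by positivity)

theorem two_mul_choose (m : ℕ) : 2 * (2 * m + 1).choose m = (m + 1).centralBinom := by
  have h : (m + 1).centralBinom = (2 * m + 1 + 1).choose (m + 1) := by
    rw [Nat.centralBinom_eq_two_mul_choose]
    rfl
  rw [h, Nat.choose_succ_succ, Nat.choose_symm_half]
  ring

theorem mid_sq (T : ℕ) : (T.choose (T / 2)) ^ 2 * T ≤ 4 ^ T := by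
  rcases Nat.even_or_odd' T with ⟨m, rfl | rfl⟩
  · have e : 2 * m / 2 = m := by omega
    have e4 : (4 : ℕ) ^ (2 * m) = 16 ^ m := by
      rw [pow_mul]
      norm_num
    rw [e, e4, ← Nat.centralBinom_eq_two_mul_choose]
    exact le_trans (Nat.mul_le_mul_left _ (Nat.le_succ _)) (cb_sq m)
  · have e : (2 * m + 1) / 2 = m := by omega
    have e4 : (4 : ℕ) * 4 ^ (2 * m + 1) = 16 ^ (m + 1) := by
      have : (16 : ℕ) = 4 ^ 2 := by norm_num
      rw [this, ← pow_mul, ← pow_succ']
      ring_nf
    have h1 := cb_sq (m + 1)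
    rw [← two_mul_choose, ← e4] at h1
    rw [e]
    have h2 : 4 * ((2 * m + 1).choose m ^ 2 * (2 * m + 1)) ≤ 4 * 4 ^ (2 * m + 1) := by
      refine le_trans ?_ h1
      have : (2 * (2 * m + 1).choose m) ^ 2 * (2 * (m + 1) + 1) =
        4 * ((2 * m + 1).choose m ^ 2 * (2 * m + 1)) + 8 * (2 * m + 1).choose m ^ 2 := by ring
      rw [this]
      exact Nat.le_add_right _ _
    exact Nat.le_of_mul_le_mul_left h2 (by norm_num)

theorem half_sum (T : ℕ) :
    2 * ∑ j ∈ Finset.range (T / 2 + 1), T.choose j ≤ 2 ^ T + T.choose (T / 2) := by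
  rcases Nat.even_or_odd' T with ⟨m, rfl | rfl⟩
  · have e : 2 * m / 2 = m := by omega
    rw [e]
    have h := Nat.sum_range_choose_halfway m
    rw [Finset.sum_range_succ'] at h
    have h3 : ∀ i ∈ Finset.range m, (2 * m + 1).choose (i + 1) =
        (2 * m).choose i + (2 * m).choose (i + 1) := fun i _ => Nat.choose_succ_succ _ _
    rw [Finset.sum_congr rfl h3, Finset.sum_add_distrib] at h
    have h4 : ∑ j ∈ Finset.range (m + 1), (2 * m).choose j =
        ∑ i ∈ Finset.range m, (2 * m).choose (i + 1) + (2 * m).choose 0 :=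
      Finset.sum_range_succ' _ _
    have h5 : ∑ j ∈ Finset.range (m + 1), (2 * m).choose j =
        ∑ i ∈ Finset.range m, (2 * m).choose i + (2 * m).choose m :=
      Finset.sum_range_succ _ _
    have e4 : (2 : ℕ) ^ (2 * m) = 4 ^ m := by
      rw [pow_mul]
      norm_num
    rw [e4]
    simp only [Nat.choose_zero_right] at h h4
    omega
  · have e : (2 * m + 1) / 2 = m := by omega
    rw [e, Nat.sum_range_choose_halfway m]
    have e4 : (2 : ℕ) ^ (2 * m + 1) = 2 * 4 ^ m := by
      rw [pow_succ, pow_mul]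
      norm_num
      ring
    omega

theorem card_low (T N : ℕ) :
    ((Finset.range T).powerset.filter (fun s => s.card ≤ N)).card =
      ∑ j ∈ Finset.range (N + 1), T.choose j := by
  classical
  rw [Finset.card_eq_sum_card_fiberwise (f := Finset.card) (t := Finset.range (N + 1))]
  · refine Finset.sum_congr rfl fun j hj => ?_
    have : ((Finset.range T).powerset.filter (fun s => s.card ≤ N)).filter
        (fun s => s.card = j) = Finset.powersetCard j (Finset.range T) := by
      ext s
      simp only [Finset.mem_filter, Finset.mem_powerset, Finset.mem_powersetCard]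
      constructor
      · rintro ⟨⟨h1, _⟩, h2⟩
        exact ⟨h1, h2⟩
      · rintro ⟨h1, h2⟩
        refine ⟨⟨h1, ?_⟩, h2⟩
        have := Finset.mem_range.mp hj
        omega
    rw [this, Finset.card_powersetCard, Finset.card_range]
  · intro s hs
    have h2 := (Finset.mem_filter.mp (Finset.mem_coe.mp hs)).2
    exact Finset.mem_coe.mpr (Finset.mem_range.mpr (Nat.lt_succ_of_le h2))

theorem low_sum (T D : ℕ) :
    2 * ∑ j ∈ Finset.range (T / 2 + D + 1), T.choose j ≤
      2 ^ T + (2 * D + 1) * T.choose (T / 2) := by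
  induction D with
  | zero =>
    have := half_sum T
    simpa using this
  | succ D ih =>
    rw [show T / 2 + (D + 1) + 1 = (T / 2 + D + 1) + 1 by ring, Finset.sum_range_succ]
    have h := Nat.choose_le_middle (T / 2 + D + 1) T
    nlinarith

end K5

open K5 in
/-- K5 -/
theorem binom_low (T D : ℕ) (h : 16 * (D + 1) ^ 2 ≤ T) :
    (((Finset.range T).powerset.filter (fun s => s.card ≤ T / 2 + D)).card : ℝ) ≤
      3 / 4 * 2 ^ T := by
  rw [card_low]
  have h1 : T.choose (T / 2) * (4 * (D + 1)) ≤ 2 ^ T := by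
    have h2 : (T.choose (T / 2) * (4 * (D + 1))) ^ 2 ≤ (2 ^ T) ^ 2 := by
      calc (T.choose (T / 2) * (4 * (D + 1))) ^ 2
          = T.choose (T / 2) ^ 2 * (16 * (D + 1) ^ 2) := by ring
        _ ≤ T.choose (T / 2) ^ 2 * T := Nat.mul_le_mul_left _ h
        _ ≤ 4 ^ T := mid_sq T
        _ = (2 ^ T) ^ 2 := by
          rw [← pow_mul, mul_comm T 2, pow_mul]
          norm_num
    exact (Nat.pow_le_pow_iff_left (by norm_num)).mp h2
  have h3 := low_sum T D
  have h4 : 4 * ∑ j ∈ Finset.range (T / 2 + D + 1), T.choose j ≤ 3 * 2 ^ T := by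
    nlinarith
  have h5 : (4 : ℝ) * ((∑ j ∈ Finset.range (T / 2 + D + 1), T.choose j : ℕ) : ℝ) ≤
      3 * 2 ^ T := by
    exact_mod_cast h4
  linarith

end Pool.Agent.H943R3.PP
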