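import Pool.Agent.H943R3.PP.Base
import Pool.Agent.H620R2.Gauge.X
import Pool.Agent.H620R2.Gauge2.V1
import Pool.Agent.H943R3.PP.K5

/-! K4: counting the low characters (helper49) -/

namespace Pool.Agent.H943R3.PP

open Pool.Agent.NPC Pool.Agent.H620R2.Gauge Finset H568R2 Pool.Agent.H676

namespace K4

theorem low_card {α : Type*} [DecidableEq α] (B : Finset α) (m : ℕ) :
    (B.powerset.filter (fun s => s.card ≤ m)).card = ∑ j ∈ Finset.range (m + 1), B.card.choose j := by
  rw [Finset.card_eq_sum_card_fiberwise (f := Finset.card) (t := Finset.range (m + 1))]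
  · refine Finset.sum_congr rfl fun j hj => ?_
    rw [← Finset.card_powersetCard]
    congr 1
    ext s
    simp only [Finset.mem_filter, Finset.mem_powerset, Finset.mem_powersetCard]
    constructor
    · rintro ⟨⟨h1, _⟩, h3⟩
      exact ⟨h1, h3⟩
    · rintro ⟨h1, h3⟩
      rw [Finset.mem_range] at hj
      exact ⟨⟨h1, by omega⟩, h3⟩
  · intro s hs
    simp only [Finset.coe_filter, Set.mem_ofPred_eq] at hs
    simp only [Finset.coe_range, Set.mem_Iio]
    omega

variable {I : Type} [Fintype I] [DecidableEq I]

theorem fiber_card (B s : Finset I) (hs : s ⊆ B) :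
    ((univ : Finset (I → Bool)).filter (fun S => B.filter (fun i => S i = true) = s)).card *
      2 ^ B.card = 2 ^ Fintype.card I := by
  have h1 : (univ : Finset (I → Bool)).filter (fun S => B.filter (fun i => S i = true) = s) =
      Fintype.piFinset (fun i => if i ∈ B then {decide (i ∈ s)} else (univ : Finset Bool)) := by
    ext S
    simp only [Finset.mem_filter, Finset.mem_univ, true_and, Fintype.mem_piFinset]
    constructor
    · intro h i
      by_cases hi : i ∈ B
      · rw [if_pos hi, Finset.mem_singleton, ← h]
        simp [hi]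
      · rw [if_neg hi]
        exact Finset.mem_univ _
    · intro h
      ext i
      rw [Finset.mem_filter]
      have hi := h i
      by_cases hiB : i ∈ B
      · rw [if_pos hiB, Finset.mem_singleton] at hi
        rw [hi]
        simp [hiB]
      · constructor
        · intro h'
          exact absurd h'.1 hiB
        · intro h'
          exact absurd (hs h') hiB
  rw [h1, Fintype.card_piFinset]
  have h2 : ∀ i : I, ((if i ∈ B then {decide (i ∈ s)} else (univ : Finset Bool)) : Finset Bool).card *
      (if i ∈ B then 2 else 1) = 2 := by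
    intro i
    by_cases hi : i ∈ B
    · rw [if_pos hi, if_pos hi, Finset.card_singleton]
    · rw [if_neg hi, if_neg hi]
      rfl
  have h3 : (2 : ℕ) ^ B.card = ∏ i : I, (if i ∈ B then 2 else 1) := by
    rw [Finset.prod_ite_mem, Finset.univ_inter, Finset.prod_const]
  rw [h3, ← Finset.prod_mul_distrib, Finset.prod_congr rfl (fun i _ => h2 i), Finset.prod_const,
    Finset.card_univ]

theorem block_card (B : Finset I) (m : ℕ) :
    ((univ : Finset (I → Bool)).filter
      (fun S => (B.filter (fun i => S i = true)).card ≤ m)).card * 2 ^ B.card =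
      (B.powerset.filter (fun s => s.card ≤ m)).card * 2 ^ Fintype.card I := by
  rw [Finset.card_eq_sum_card_fiberwise (f := fun S : I → Bool => B.filter (fun i => S i = true))
    (t := B.powerset.filter (fun s => s.card ≤ m)), Finset.sum_mul]
  · rw [← smul_eq_mul (b := 2 ^ Fintype.card I), ← Finset.sum_const]
    refine Finset.sum_congr rfl fun s hs => ?_
    rw [Finset.mem_filter, Finset.mem_powerset] at hs
    rw [← fiber_card B s hs.1]
    congr 2
    ext S
    simp only [Finset.mem_filter, Finset.mem_univ, true_and]
    constructor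
    · rintro ⟨_, h⟩
      exact h
    · intro h
      refine ⟨?_, h⟩
      rw [h]
      exact hs.2
  · intro S hS
    simp only [Finset.coe_filter, Finset.mem_univ, true_and, Set.mem_ofPred_eq] at hS
    simp only [Finset.coe_filter, Finset.mem_powerset, Set.mem_ofPred_eq]
    exact ⟨Finset.filter_subset _ _, hS⟩

theorem Ex_ind_le (B : Finset I) (D : ℕ) (hD : 16 * (D + 1) ^ 2 ≤ B.card) :
    Ex unif (fun S : I → Bool =>
      if (B.filter (fun i => S i = true)).card ≤ B.card / 2 + D then (1 : ℝ) else 0) ≤ 3 / 4 := by
  rw [Ex_unif]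
  unfold av
  rw [Finset.sum_ite, Finset.sum_const_zero, add_zero, Finset.sum_const, nsmul_eq_mul, mul_one,
    div_le_iff₀ (by positivity)]
  have h1 := block_card B (B.card / 2 + D)
  have h2 := binom_low B.card D hD
  rw [low_card] at h2
  rw [low_card] at h1
  rw [Finset.card_range] at h2
  have h3 : ((((univ : Finset (I → Bool)).filter
      (fun S => (B.filter (fun i => S i = true)).card ≤ B.card / 2 + D)).card : ℕ) : ℝ) *
      2 ^ B.card = ((∑ j ∈ Finset.range (B.card / 2 + D + 1), B.card.choose j : ℕ) : ℝ) *
        2 ^ Fintype.card I := by exact_mod_cast h1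
  have h4 : (0 : ℝ) < 2 ^ B.card := by positivity
  have h5 : (0 : ℝ) < 2 ^ Fintype.card I := by positivity
  have h6 : ((((univ : Finset (I → Bool)).filter
      (fun S => (B.filter (fun i => S i = true)).card ≤ B.card / 2 + D)).card : ℕ) : ℝ) *
      2 ^ B.card ≤ (3 / 4 * 2 ^ Fintype.card I) * 2 ^ B.card := by
    rw [h3]
    calc _ ≤ (3 / 4 * 2 ^ B.card) * 2 ^ Fintype.card I := mul_le_mul_of_nonneg_right h2 h5.le
      _ = _ := by ring
  exact le_of_mul_le_mul_right h6 h4

end K4

variable {I : Type} [Fintype I] [DecidableEq I]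

/-- K4 -/
theorem card_LL_le {ι : Type} [DecidableEq ι] (X : Finset ι) (B : ι → Finset I)
    (hB : ∀ x ∈ X, ∀ x' ∈ X, x ≠ x' → Disjoint (B x) (B x')) (D : ℕ)
    (hD : ∀ x ∈ X, 16 * (D + 1) ^ 2 ≤ (B x).card) :
    ((LL X B D).card : ℝ) ≤ (3 / 4) ^ X.card * 2 ^ Fintype.card I := by
  have key := prod_block X B
    (fun x (S : I → Bool) =>
      if ((B x).filter (fun i => S i = true)).card ≤ (B x).card / 2 + D then (1 : ℝ) else 0)
    (fun _ => 3 / 4) ?_ ?_ ?_
  · rw [Finset.prod_const, Ex_unif] at key
    unfold av at key
    rw [div_le_iff₀ (by positivity)] at key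
    refine le_trans (le_of_eq ?_) key
    have h1 : ∀ S : I → Bool, ∏ x ∈ X,
        (if ((B x).filter (fun i => S i = true)).card ≤ (B x).card / 2 + D then (1 : ℝ) else 0) =
        if S ∈ LL X B D then 1 else 0 := by
      intro S
      by_cases hS : S ∈ LL X B D
      · rw [if_pos hS]
        refine Finset.prod_eq_one fun x hx => ?_
        rw [LL, Finset.mem_filter] at hS
        rw [if_pos (hS.2 x hx)]
      · rw [if_neg hS]
        have : ∃ x ∈ X, ¬ ((B x).filter (fun i => S i = true)).card ≤ (B x).card / 2 + D := by
          by_contra hcon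
          push Not at hcon
          exact hS (by rw [LL, Finset.mem_filter]; exact ⟨Finset.mem_univ _, hcon⟩)
        obtain ⟨x, hx, hx'⟩ := this
        exact Finset.prod_eq_zero hx (if_neg hx')
    rw [Finset.sum_congr rfl fun S _ => h1 S, Finset.sum_ite_mem, Finset.univ_inter,
      Finset.sum_const, nsmul_eq_mul, mul_one]
  · intro x _ S
    split_ifs <;> norm_num
  · intro x hx x' hx' hne a b
    have hd := hB x hx x' hx' hne
    have h1 : (B x).filter (fun i => mix (B x') b a i = true) =
        (B x).filter (fun i => a i = true) := by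
      refine Finset.filter_congr fun i hi => ?_
      have : i ∉ B x' := fun h => Finset.disjoint_left.1 hd hi h
      simp only [mix, if_neg this]
    simp only [h1]
  · intro x hx a
    refine le_trans (le_of_eq ?_) (K4.Ex_ind_le (B x) D (hD x hx))
    refine congrArg (Ex unif) (funext fun b => ?_)
    have h1 : (B x).filter (fun i => mix (B x) b a i = true) =
        (B x).filter (fun i => b i = true) := by
      refine Finset.filter_congr fun i hi => ?_
      simp only [mix, if_pos hi]
    simp only [h1]

end Pool.Agent.H943R3.PP
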