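import Pool.Agent.H943R3.PP.Base
import Pool.Agent.H620R2.Gauge.X
import Pool.Agent.H943R3.PP.K3b
import Pool.Agent.H943R3.PP.K4

/-!
# K6: from the direct product theorem to probabilities
-/

namespace Pool.Agent.H943R3.PP

open Pool.Agent.NPC Pool.Agent.H620R2.Gauge Finset H568R2 Pool.Agent.H676

namespace K6

theorem sgb_sq (b : Bool) : sgb b * sgb b = 1 := by cases b <;> norm_num [sgb]

theorem sgb_abs (b : Bool) : |sgb b| = 1 := by cases b <;> norm_num [sgb]

section

variable {I : Type} [Fintype I] [DecidableEq I]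

theorem ch_ind (U : Finset I) (a : I → Bool) : ch (ind U) a = ∏ i ∈ U, sgb (a i) := by
  unfold ch ind
  rw [← Finset.prod_subset (Finset.subset_univ U)]
  · refine Finset.prod_congr rfl fun i hi => ?_
    simp [hi, sgb]
  · intro i _ hi
    simp [hi]

/-- the sign of the fixed part -/
noncomputable def cc (ρ : Restr I) (B : Finset I) : ℝ :=
  ∏ i ∈ B.filter (fun i => ¬ ρ i = none), sgb ((ρ i).getD false)

theorem cc_abs (ρ : Restr I) (B : Finset I) : |cc ρ B| = 1 := by
  unfold cc
  rw [Finset.abs_prod]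
  exact Finset.prod_eq_one fun i _ => sgb_abs _

theorem sgb_par_ov (ρ : Restr I) (B : Finset I) (a : I → Bool) :
    sgb (par B (ov ρ a)) = cc ρ B * ch (ind (B.filter (fun i => ρ i = none))) a := by
  rw [sgb_par, ← Finset.prod_filter_mul_prod_filter_not B (fun i => ρ i = none), mul_comm, ch_ind,
    cc]
  congr 1
  · refine Finset.prod_congr rfl fun i hi => ?_
    have := (Finset.mem_filter.1 hi).2
    unfold ov
    cases h : ρ i with
    | none => exact absurd h this
    | some b => rfl
  · refine Finset.prod_congr rfl fun i hi => ?_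
    unfold ov
    rw [(Finset.mem_filter.1 hi).2]
    rfl

end

end K6

open K6

theorem ptf_bound {I : Type} [Fintype I] [DecidableEq I] {ι : Type} [DecidableEq ι] (ρ : Restr I)
    (X : Finset ι) (B : ι → Finset I)
    (hB : ∀ x ∈ X, ∀ x' ∈ X, x ≠ x' → Disjoint (B x) (B x')) (G : ι → (I → Bool) → ℝ) (t l : ℕ)
    (hG : ∀ x ∈ X, Deg t (fun a => G x (ov ρ a))) (h1 : ∀ x ∈ X, ∀ a, 1 ≤ |G x a|)
    (h2 : ∀ x ∈ X, ∀ a, |G x a| ≤ 2 ^ l)
    (hs : ∀ x ∈ X, 16 * (2 * X.card ^ 2 * (l + 1) * t + 1) ^ 2 ≤
      ((B x).filter (fun i => ρ i = none)).card) :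
    Ex unif (fun a : I → Bool =>
      if ∀ x ∈ X, (0 < G x (ov ρ a) ↔ par (B x) (ov ρ a) = true) then (1 : ℝ) else 0) ≤
      (3 / 4) ^ X.card := by
  classical
  set B' : ι → Finset I := fun x => (B x).filter (fun i => ρ i = none) with hB'
  set P : ι → (I → Bool) → ℝ := fun x a => -(cc ρ (B x)) * G x (ov ρ a) with hP
  have hB'dis : ∀ x ∈ X, ∀ x' ∈ X, x ≠ x' → Disjoint (B' x) (B' x') := by
    intro x hx x' hx' hne
    exact Finset.disjoint_of_subset_left (Finset.filter_subset _ _)
      (Finset.disjoint_of_subset_right (Finset.filter_subset _ _) (hB x hx x' hx' hne))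
  have hPdeg : ∀ x ∈ X, Deg t (P x) := fun x hx => (hG x hx).smul (-(cc ρ (B x)))
  have hPabs : ∀ x a, |P x a| = |G x (ov ρ a)| := by
    intro x a
    rw [hP]
    simp only
    rw [abs_mul, abs_neg, cc_abs, one_mul]
  have hP1 : ∀ x ∈ X, ∀ a, 1 ≤ |P x a| := fun x hx a => by rw [hPabs]; exact h1 x hx _
  have hP2 : ∀ x ∈ X, ∀ a, |P x a| ≤ 2 ^ l := fun x hx a => by rw [hPabs]; exact h2 x hx _
  have hEE := card_EE_le X B' hB'dis P t l hPdeg hP1 hP2
  have hLL := card_LL_le X B' hB'dis (2 * X.card ^ 2 * (l + 1) * t) hs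
  -- the pointwise implication
  have hpt : ∀ a : I → Bool,
      (if ∀ x ∈ X, (0 < G x (ov ρ a) ↔ par (B x) (ov ρ a) = true) then (1 : ℝ) else 0) ≤
      (if a ∈ EE X B' P then (1 : ℝ) else 0) := by
    intro a
    split_ifs with hA hE hE
    · exact le_rfl
    · exfalso
      apply hE
      unfold EE
      rw [Finset.mem_filter]
      refine ⟨Finset.mem_univ _, fun x hx => ?_⟩
      have hsg := sgb_par_ov ρ (B x) a
      have hiff := hA x hx
      have hG0 : G x (ov ρ a) ≠ 0 := by
        intro h0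
        have := h1 x hx (ov ρ a)
        rw [h0, abs_zero] at this
        linarith
      have hprod : P x a * ch (ind (B' x)) a = -(G x (ov ρ a) * sgb (par (B x) (ov ρ a))) := by
        rw [hsg]
        simp only [hP, hB']
        ring
      rw [hprod]
      cases hpar : par (B x) (ov ρ a) with
      | true =>
        have : 0 < G x (ov ρ a) := hiff.2 hpar
        simp only [sgb, if_true]
        linarith
      | false =>
        have h3 : ¬ 0 < G x (ov ρ a) := by
          intro h4
          have := hiff.1 h4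
          rw [hpar] at this
          exact Bool.false_ne_true this
        have h4 : G x (ov ρ a) < 0 := lt_of_le_of_ne (not_lt.1 h3) hG0
        simp only [sgb, Bool.false_eq_true, if_false]
        linarith
    · exact zero_le_one
    · exact le_rfl
  have hun : ∀ b : Bool, 0 ≤ unif b := fun b => by unfold unif; norm_num
  refine (Ex_mono hun hpt).trans ?_
  rw [Ex_unif]
  unfold av
  rw [Finset.sum_ite_mem, Finset.univ_inter, Finset.sum_const, nsmul_eq_mul, mul_one]
  rw [div_le_iff₀ (by positivity)]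
  have : ((EE X B' P).card : ℝ) ≤ ((LL X B' (2 * X.card ^ 2 * (l + 1) * t)).card : ℝ) := by
    exact_mod_cast hEE
  exact this.trans hLL

end Pool.Agent.H943R3.PP
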