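import Pool.Agent.H943R3.PP.Base
import Pool.Agent.H620R2.Gauge.Comb
import Pool.Agent.H943R3.PP.K6

/-!
# M1: `PP^PH` machines and restrictions
-/

namespace Pool.Agent.H943R3.PP

open Pool.Agent.NPC Pool.Agent.H620R2.Gauge Finset H568R2 Pool.Agent.H676

namespace M1

section

variable {I : Type} [Fintype I] [DecidableEq I]

open Classical in
/-- the number of the accepting `w` -/
noncomputable def nn (m : ℕ) (F : List Bool → (I → Bool) → Bool) (k r : ℕ)
    (y : List Bool) (a : I → Bool) : ℕ :=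
  (univ.filter (fun w : Fin r → Bool =>
    QF m F k true (pairBits (List.ofFn w) y) a = true)).card

theorem maj_eq (m : ℕ) (F : List Bool → (I → Bool) → Bool) (k r : ℕ)
    (y : List Bool) (a : I → Bool) :
    maj m F k r y a = 4 * (nn m F k r y a : ℝ) - 2 * 2 ^ r - 1 := by
  unfold maj nn
  rw [Finset.sum_ite, Finset.sum_const_zero, add_zero, Finset.sum_const, nsmul_eq_mul, mul_one]

theorem nn_le (m : ℕ) (F : List Bool → (I → Bool) → Bool) (k r : ℕ)
    (y : List Bool) (a : I → Bool) : nn m F k r y a ≤ 2 ^ r := by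
  unfold nn
  refine (Finset.card_le_univ _).trans ?_
  rw [Fintype.card_fun, Fintype.card_bool, Fintype.card_fin]

theorem one_le_maj (m : ℕ) (F : List Bool → (I → Bool) → Bool) (k r : ℕ)
    (y : List Bool) (a : I → Bool) : 1 ≤ |maj m F k r y a| := by
  rw [maj_eq]
  have h : (4 * (nn m F k r y a : ℝ) - 2 * 2 ^ r - 1) =
      ((4 * (nn m F k r y a : ℤ) - 2 * 2 ^ r - 1 : ℤ) : ℝ) := by push_cast; ring
  rw [h, ← Int.cast_abs]
  have h2 : (1 : ℤ) ≤ |4 * (nn m F k r y a : ℤ) - 2 * 2 ^ r - 1| := by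
    apply Int.one_le_abs
    intro h3
    have h4 : (2 : ℤ) * (2 * (nn m F k r y a : ℤ) - 2 ^ r) = 1 := by linarith
    omega
  exact_mod_cast h2

theorem maj_le (m : ℕ) (F : List Bool → (I → Bool) → Bool) (k r : ℕ)
    (y : List Bool) (a : I → Bool) : |maj m F k r y a| ≤ 2 ^ (r + 2) := by
  rw [maj_eq, abs_le]
  have h1 : (nn m F k r y a : ℝ) ≤ 2 ^ r := by exact_mod_cast nn_le m F k r y a
  have h2 : (0 : ℝ) ≤ (nn m F k r y a : ℝ) := by positivity
  have h3 : (1 : ℝ) ≤ 2 ^ r := one_le_pow₀ (by norm_num)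
  have h4 : (2 : ℝ) ^ (r + 2) = 4 * 2 ^ r := by rw [pow_add]; norm_num; ring
  rw [h4]
  constructor <;> linarith

theorem maj_deg {m : ℕ} {F : List Bool → (I → Bool) → Bool} {k r t : ℕ}
    {y : List Bool} {ρ : Restr I}
    (h : ∀ w : Fin r → Bool, DTr t (rs (QF m F k true (pairBits (List.ofFn w) y)) ρ)) :
    Deg t (fun a => maj m F k r y (ov ρ a)) := by
  have h1 : Deg t (fun a : I → Bool => ∑ w ∈ (univ : Finset (Fin r → Bool)),
      br (rs (QF m F k true (pairBits (List.ofFn w) y)) ρ) a) :=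
    Deg.sum fun w _ => (h w).deg
  have h2 := (h1.smul 4).add ((Deg.const (I := I) (-(2 * 2 ^ r) - 1)).mono (Nat.zero_le t))
  refine (congrArg (Deg _) (funext fun a => ?_)).mp h2
  unfold maj br rs
  ring

end

end M1

open M1

open Classical in
theorem comb2 {I : Type} [Fintype I] [DecidableEq I] {t : ℕ} (ht : 1 ≤ t) {q : ℝ} (h0 : 0 ≤ q)
    (h1 : q ≤ 1 / 3) (m : ℕ)
    (F : List Bool → (I → Bool) → Bool) (k ℓ r₀ : ℕ)
    (hF : ∀ y : List Bool, y.length ≤ ℓ + (2 * r₀ + 1) + k * (2 * m + 1) → DTr t (F y))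
    {ι η : Type} [DecidableEq ι] (X : Finset ι) (B : ι → Finset I)
    (hB : ∀ x ∈ X, ∀ x' ∈ X, x ≠ x' → Disjoint (B x) (B x'))
    (H : Finset η) (y : ι → η → List Bool) (hy : ∀ x ∈ X, ∀ h ∈ H, (y x h).length ≤ ℓ)
    (r s : ℕ) (hr : 16 * (2 * X.card ^ 2 * (r₀ + 3) * t + 1) ^ 2 ≤ r)
    (hs : ∀ x ∈ X, (r + 1) * s ≤ (B x).card) :
    Ex unif (fun a : I → Bool =>
      if ∃ h ∈ H, ∀ x ∈ X, (0 < maj m F k r₀ (y x h) a ↔ par (B x) a = true)
        then (1 : ℝ) else 0) ≤
      k * 2 ^ (ℓ + (2 * r₀ + 1) + k * (2 * m + 1) + 2) * (12 * t * q) ^ (t + 1) +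
        X.card * ((r + 1) * (1 - q ^ k) ^ s) + H.card * (3 / 4) ^ X.card := by
  have hq0 : 0 ≤ q ^ k := pow_nonneg h0 k
  have hq1 : q ^ k ≤ 1 := pow_le_one₀ h0 (by linarith)
  rw [← Ex_ov (q := q ^ k)]
  have hpt : ∀ ρ : Restr I, Ex unif (fun a : I → Bool =>
      if ∃ h ∈ H, ∀ x ∈ X, (0 < maj m F k r₀ (y x h) (ov ρ a) ↔ par (B x) (ov ρ a) = true)
        then (1 : ℝ) else 0) ≤
      ((if ¬ ∀ y : List Bool, y.length ≤ ℓ + (2 * r₀ + 1) →
          ∀ b, DTr t (rs (QF m F k b y) ρ) then (1 : ℝ) else 0) +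
        ∑ x ∈ X, (if ((B x).filter (fun i => ρ i = none)).card ≤ r then (1 : ℝ) else 0)) +
        H.card * (3 / 4) ^ X.card := by
    intro ρ
    have hle1 : Ex unif (fun a : I → Bool =>
      if ∃ h ∈ H, ∀ x ∈ X, (0 < maj m F k r₀ (y x h) (ov ρ a) ↔ par (B x) (ov ρ a) = true)
        then (1 : ℝ) else 0) ≤ 1 := by
      calc _ ≤ Ex unif (fun _ : I → Bool => (1 : ℝ)) := by
            apply Ex_mono unif_nonneg
            intro a
            split_ifs <;> norm_num
        _ = 1 := Ex_const unif_sum 1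
    have hs0 : 0 ≤ ∑ x ∈ X, (if ((B x).filter (fun i => ρ i = none)).card ≤ r
        then (1 : ℝ) else 0) := Finset.sum_nonneg fun x _ => by split_ifs <;> norm_num
    have hh0 : 0 ≤ (H.card : ℝ) * (3 / 4) ^ X.card := by positivity
    by_cases hG : ∀ y : List Bool, y.length ≤ ℓ + (2 * r₀ + 1) →
        ∀ b, DTr t (rs (QF m F k b y) ρ)
    · have h3 : (0:ℝ) ≤ (if ¬ ∀ y : List Bool, y.length ≤ ℓ + (2 * r₀ + 1) →
          ∀ b, DTr t (rs (QF m F k b y) ρ) then (1 : ℝ) else 0) := by split_ifs <;> norm_num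
      by_cases hst : ∃ x ∈ X, ((B x).filter (fun i => ρ i = none)).card ≤ r
      · obtain ⟨x, hx, hxr⟩ := hst
        have h2 : (1 : ℝ) ≤ ∑ x ∈ X, (if ((B x).filter (fun i => ρ i = none)).card ≤ r
            then (1 : ℝ) else 0) := by
          refine le_trans ?_ (Finset.single_le_sum (f := fun x =>
            if ((B x).filter (fun i => ρ i = none)).card ≤ r then (1 : ℝ) else 0)
            (fun x _ => by positivity) hx)
          rw [if_pos hxr]
        linarith
      · push Not at hst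
        have h4 : Ex unif (fun a : I → Bool =>
            if ∃ h ∈ H, ∀ x ∈ X,
              (0 < maj m F k r₀ (y x h) (ov ρ a) ↔ par (B x) (ov ρ a) = true)
              then (1 : ℝ) else 0) ≤ Ex unif (fun a : I → Bool => ∑ h ∈ H,
            if ∀ x ∈ X, (0 < maj m F k r₀ (y x h) (ov ρ a) ↔ par (B x) (ov ρ a) = true)
              then (1 : ℝ) else 0) := by
          apply Ex_mono unif_nonneg
          intro a
          split_ifs with h
          · obtain ⟨h, hh, hx⟩ := h
            refine le_trans ?_ (Finset.single_le_sum (f := fun h =>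
              if ∀ x ∈ X, (0 < maj m F k r₀ (y x h) (ov ρ a) ↔ par (B x) (ov ρ a) = true)
              then (1 : ℝ) else 0) (fun x _ => by positivity) hh)
            rw [if_pos hx]
          · exact Finset.sum_nonneg fun x _ => by split_ifs <;> norm_num
        have h5 : ∀ h ∈ H, Ex unif (fun a : I → Bool =>
            if ∀ x ∈ X, (0 < maj m F k r₀ (y x h) (ov ρ a) ↔ par (B x) (ov ρ a) = true)
              then (1 : ℝ) else 0) ≤ (3 / 4) ^ X.card := by
          intro h hh
          refine ptf_bound ρ X B hB (fun x => maj m F k r₀ (y x h)) t (r₀ + 2) ?_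
            (fun x _ a => one_le_maj m F k r₀ (y x h) a)
            (fun x _ a => maj_le m F k r₀ (y x h) a) ?_
          · intro x hx
            apply maj_deg
            intro w
            apply hG
            rw [length_pairBits, List.length_ofFn]
            have := hy x hx h hh
            omega
          · intro x hx
            exact hr.trans (hst x hx).le
        rw [Ex_sum] at h4
        have h6 := Finset.sum_le_sum h5
        rw [Finset.sum_const, nsmul_eq_mul] at h6
        linarith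
    · rw [if_pos hG]
      linarith
  refine (Ex_mono (wq_nonneg hq0 hq1) hpt).trans ?_
  rw [Ex_add, Ex_add, Ex_sum, Ex_const (wq_sum (q ^ k))]
  have h7 := switch_alt ht h0 h1 m F k (ℓ + (2 * r₀ + 1)) hF
  have h8 : ∀ x ∈ X, Ex (wq (q ^ k)) (fun ρ : Restr I =>
      if ((B x).filter (fun i => ρ i = none)).card ≤ r then (1 : ℝ) else 0) ≤
      (r + 1) * (1 - q ^ k) ^ s := fun x hx => few_stars hq0 hq1 (B x) r s (hs x hx)
  have h9 := Finset.sum_le_sum h8
  rw [Finset.sum_const, nsmul_eq_mul] at h9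
  linarith

end Pool.Agent.H943R3.PP
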