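import Pool.Agent.H943R3.PP.M1
import Pool.Agent.H620R2.Gauge.Event

/-! # Task M2: the bound for the event -/

namespace Pool.Agent.H943R3.PP

open Pool.Agent.NPC Pool.Agent.H620R2.Gauge Finset H568R2 Pool.Agent.H676

namespace M2

theorem eval_L (θ : Par2) (n : ℕ) : θ.L.eval n =
    2 * n + 1 + θ.p'.eval n + (2 * θ.rr n (θ.p'.eval n) + 1) +
      θ.k * (2 * θ.m n (θ.p'.eval n) + 1) := by
  simp [Par2.L, Par2.m, Par2.rr, Polynomial.eval_comp]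

theorem m_mono (θ : Par2) (n : ℕ) {c d : ℕ} (h : c ≤ d) : θ.m n c ≤ θ.m n d :=
  eval_mono _ (by omega)

theorem rr_mono (θ : Par2) (n : ℕ) {c d : ℕ} (h : c ≤ d) : θ.rr n c ≤ θ.rr n d :=
  eval_mono _ (by omega)

theorem len_le (θ : Par2) {n c : ℕ} (hc : c ≤ θ.p'.eval n) :
    2 * n + 1 + c + (2 * θ.rr n c + 1) + θ.k * (2 * θ.m n c + 1) ≤ θ.L.eval n := by
  rw [eval_L]
  have h1 := m_mono θ n hc
  have h0 := rr_mono θ n hc
  have h2 : θ.k * (2 * θ.m n c + 1) ≤ θ.k * (2 * θ.m n (θ.p'.eval n) + 1) :=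
    Nat.mul_le_mul_left _ (by omega)
  omega

/-- the event for advice of length `c` -/
def EvC2 (θ : Par2) (n N u c : ℕ) (a : Fin N → Bool) : Prop :=
  ∃ h ∈ strsOf c, ∀ j ∈ Finset.range (2 ^ (u + 2)),
    (0 < maj (θ.m n c) (leaf θ.M N) θ.k (θ.rr n c) (pairBits (bitsOf n j) h) a ↔
      par (blk N (bitsOf n j)) a = true)

theorem num_r {u r₀ : ℕ} (hu : 3 ≤ u) (hr : r₀ + 3 ≤ 2 ^ (2 * u)) :
    16 * (2 * (2 ^ (u + 2)) ^ 2 * (r₀ + 3) * 2 ^ (2 * u) + 1) ^ 2 ≤ 2 ^ (20 * u) := by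
  have h1 : 2 * (2 ^ (u + 2)) ^ 2 * (r₀ + 3) * 2 ^ (2 * u) ≤
      2 * (2 ^ (u + 2)) ^ 2 * 2 ^ (2 * u) * 2 ^ (2 * u) :=
    Nat.mul_le_mul (Nat.mul_le_mul le_rfl hr) le_rfl
  have h2 : 2 * (2 ^ (u + 2)) ^ 2 * 2 ^ (2 * u) * 2 ^ (2 * u) = 2 ^ (6 * u + 5) := by
    rw [← pow_mul, ← pow_succ', ← pow_add, ← pow_add]
    congr 1
    ring
  have h3 : 2 * (2 ^ (u + 2)) ^ 2 * (r₀ + 3) * 2 ^ (2 * u) + 1 ≤ 2 ^ (6 * u + 6) := by
    have h4 : 2 ^ (6 * u + 6) = 2 * 2 ^ (6 * u + 5) := by rw [← pow_succ']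
    have h5 : 1 ≤ 2 ^ (6 * u + 5) := Nat.one_le_two_pow
    omega
  calc 16 * (2 * (2 ^ (u + 2)) ^ 2 * (r₀ + 3) * 2 ^ (2 * u) + 1) ^ 2
      ≤ 16 * (2 ^ (6 * u + 6)) ^ 2 := Nat.mul_le_mul le_rfl (Nat.pow_le_pow_left h3 2)
    _ = 2 ^ (12 * u + 16) := by
        rw [← pow_mul]
        have : (16 : ℕ) = 2 ^ 4 := by norm_num
        rw [this, ← pow_add]
        congr 1
        ring
    _ ≤ 2 ^ (20 * u) := Nat.pow_le_pow_right (by norm_num) (by omega)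

theorem three_quarters (u : ℕ) : (3 / 4 : ℝ) ^ (2 ^ (u + 2)) ≤ (1 / 2) ^ 2 ^ u := by
  rw [pow_add, Nat.mul_comm, pow_mul]
  exact pow_le_pow_left₀ (by positivity) (by norm_num) _

end M2

open M2

open Classical in
/-- M2 -/
theorem ev2_bound (θ : Par2) {n N u : ℕ} (hP : θ.P.eval n ≤ 2 ^ (2 * u))
    (hu : 40 * (θ.k + 1) * u ≤ n) (hN : 2 ^ (2 * n + 1) ≤ N + 1) :
    Ex unif (fun a : Fin N → Bool => if Ev2 θ n N u a then (1 : ℝ) else 0) ≤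
      bnd2 θ.k θ.P n u := by
  set t : ℕ := 2 ^ (2 * u) with ht
  have ht1 : 1 ≤ t := Nat.one_le_two_pow
  have htR : (1 : ℝ) ≤ (t : ℝ) := by exact_mod_cast ht1
  set q : ℝ := 1 / (24 * t) with hq
  have hq0 : 0 ≤ q := by positivity
  have hq1 : q ≤ 1 / 3 := by
    rw [hq, div_le_div_iff₀ (by positivity) (by norm_num)]
    linarith
  have hE : θ.P.eval n = 2 * θ.L.eval n + 20 + θ.M.p.eval (θ.L.eval n) := by
    simp [Par2.P, Polynomial.eval_comp]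
  have hu3 : 3 ≤ u := by
    by_contra hcon
    have h1 : 2 ^ (2 * u) ≤ 2 ^ 4 := Nat.pow_le_pow_right (by norm_num) (by omega)
    have h2 : (2 : ℕ) ^ 4 = 16 := by norm_num
    omega
  have hun : u + 2 ≤ n := by nlinarith [Nat.zero_le (θ.k * u)]
  set K : ℕ := 2 ^ (u + 2) with hK
  set r : ℕ := 2 ^ (20 * u) with hr
  set s : ℕ := 2 ^ n / (2 ^ (20 * u) + 1) with hs
  -- the bound for advice of length c
  have hc : ∀ c ∈ Finset.range (θ.p'.eval n + 1), Ex unif (fun a : Fin N → Bool =>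
      if EvC2 θ n N u c a then (1 : ℝ) else 0) ≤
      θ.k * 2 ^ (θ.L.eval n + 2) * (1 / 2) ^ (t + 1) + K * ((r + 1) * (1 - q ^ θ.k) ^ s) +
        2 ^ θ.p'.eval n * (1 / 2) ^ 2 ^ u := by
    intro c hc
    rw [Finset.mem_range, Nat.lt_succ_iff] at hc
    have hlen := len_le θ hc
    have h1 := comb2 (I := Fin N) ht1 hq0 hq1 (θ.m n c) (leaf θ.M N) θ.k (2 * n + 1 + c)
      (θ.rr n c) (by
      intro y hy
      have h2 := dtr_out θ.M N y
      refine h2.mono ?_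
      calc θ.M.p.eval y.length ≤ θ.M.p.eval (θ.L.eval n) := eval_mono _ (by omega)
        _ ≤ t := by omega) (Finset.range (2 ^ (u + 2))) (fun j => blk N (bitsOf n j)) (by
      intro j hj j' hj' hne
      rw [Finset.mem_range] at hj hj'
      apply blk_disj
      · rw [length_bitsOf, length_bitsOf]
      · intro h
        exact hne (bitsOf_inj (lt_of_lt_of_le hj (Nat.pow_le_pow_right (by norm_num) hun))
          (lt_of_lt_of_le hj' (Nat.pow_le_pow_right (by norm_num) hun)) h)) (strsOf c)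
      (fun j h => pairBits (bitsOf n j) h) (by
      intro j _ h hh
      rw [length_pairBits, length_bitsOf]
      obtain ⟨i, _, rfl⟩ := Finset.mem_image.1 hh
      rw [length_bitsOf]) r s (by
        rw [Finset.card_range]
        exact num_r hu3 (by omega)) (by
      intro j _
      rw [blk_card N _ (by rw [length_bitsOf]; exact hN), length_bitsOf]
      exact Nat.mul_div_le _ _)
    refine (Ex_mono unif_nonneg (fun a => ?_)).trans (h1.trans ?_)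
    · by_cases h : EvC2 θ n N u c a
      · have h' := h
        unfold EvC2 at h'
        rw [if_pos h, if_pos h']
      · have h' := h
        unfold EvC2 at h'
        rw [if_neg h, if_neg h']
    rw [Finset.card_range]
    have hqt : 12 * (t : ℝ) * q = 1 / 2 := by
      rw [hq]; field_simp; norm_num
    rw [hqt]
    have h3 : (2 : ℝ) ^ (2 * n + 1 + c + (2 * θ.rr n c + 1) + θ.k * (2 * θ.m n c + 1) + 2) ≤
        2 ^ (θ.L.eval n + 2) :=
      pow_le_pow_right₀ (by norm_num) (by omega)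
    have h4 : ((strsOf c).card : ℝ) ≤ 2 ^ θ.p'.eval n := by
      have h5 : (strsOf c).card ≤ 2 ^ θ.p'.eval n :=
        (card_strsOf c).trans (Nat.pow_le_pow_right (by norm_num) hc)
      exact_mod_cast h5
    have h6 : (0 : ℝ) ≤ (1 / 2) ^ (t + 1) := by positivity
    have h8 : (θ.k : ℝ) * 2 ^ (2 * n + 1 + c + (2 * θ.rr n c + 1) + θ.k * (2 * θ.m n c + 1) + 2) *
        (1 / 2) ^ (t + 1) ≤ θ.k * 2 ^ (θ.L.eval n + 2) * (1 / 2) ^ (t + 1) :=
      mul_le_mul_of_nonneg_right (mul_le_mul_of_nonneg_left h3 (by positivity)) h6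
    have h9 : ((strsOf c).card : ℝ) * (3 / 4) ^ 2 ^ (u + 2) ≤
        2 ^ θ.p'.eval n * (1 / 2) ^ 2 ^ u :=
      mul_le_mul h4 (three_quarters u) (by positivity) (by positivity)
    have h10 : (((2 ^ (u + 2) : ℕ) : ℝ)) = (K : ℝ) := rfl
    rw [h10]
    linarith
  -- union over c
  have hU : Ex unif (fun a : Fin N → Bool => if Ev2 θ n N u a then (1 : ℝ) else 0) ≤
      ∑ c ∈ Finset.range (θ.p'.eval n + 1), Ex unif (fun a : Fin N → Bool =>
      if EvC2 θ n N u c a then (1 : ℝ) else 0) := by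
    rw [← Ex_sum]
    apply Ex_mono unif_nonneg
    intro a
    by_cases hE : Ev2 θ n N u a
    · rw [if_pos hE]
      obtain ⟨c, hc, h, hh, hj⟩ := hE
      refine le_trans ?_ (Finset.single_le_sum (f := fun c =>
        if EvC2 θ n N u c a then (1 : ℝ) else 0) (fun c _ => by positivity)
        (Finset.mem_range.2 (Nat.lt_succ_of_le hc)))
      have hEC : EvC2 θ n N u c a := ⟨h, by rw [← hh]; exact mem_strsOf h, hj⟩
      show 1 ≤ (if EvC2 θ n N u c a then (1:ℝ) else 0)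
      rw [if_pos hEC]
    · rw [if_neg hE]
      exact Finset.sum_nonneg fun c _ => by positivity
  refine hU.trans ((Finset.sum_le_sum hc).trans ?_)
  rw [Finset.sum_const, Finset.card_range, nsmul_eq_mul]
  -- numeric
  have hp1 : ((θ.p'.eval n + 1 : ℕ) : ℝ) ≤ 2 ^ θ.p'.eval n := by
    have : θ.p'.eval n + 1 ≤ 2 ^ θ.p'.eval n := Nat.lt_two_pow_self
    exact_mod_cast this
  have hq1' : q ^ θ.k ≤ 1 := pow_le_one₀ hq0 (by linarith)
  have e1 : (0:ℝ) ≤ (K:ℝ) * ((r + 1) * (1 - q ^ θ.k) ^ s) := by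
    have : (0:ℝ) ≤ (1 - q ^ θ.k) ^ s := pow_nonneg (by linarith) _
    positivity
  have hqb : q = 1 / (24 * 2 ^ (2 * u)) := by rw [hq, ht]; push_cast; rfl
  have hrb : (r : ℝ) = 2 ^ (20 * u) := by rw [hr]; push_cast; rfl
  have hKb : (K : ℝ) = 2 ^ (u + 2) := by rw [hK]; push_cast; rfl
  have g5 : θ.p'.eval n ≤ θ.L.eval n := by rw [eval_L]; omega
  have k1 : (2:ℝ) ^ θ.p'.eval n * 2 ^ (θ.L.eval n + 2) ≤ 2 ^ θ.P.eval n := by
    rw [← pow_add]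
    exact pow_le_pow_right₀ (by norm_num) (by omega)
  have k2 : (2:ℝ) ^ θ.p'.eval n ≤ 2 ^ θ.P.eval n :=
    pow_le_pow_right₀ (by norm_num) (by omega)
  have k3 : (2:ℝ) ^ θ.p'.eval n * 2 ^ θ.p'.eval n ≤ 2 ^ θ.P.eval n := by
    rw [← pow_add]
    exact pow_le_pow_right₀ (by norm_num) (by omega)
  -- the three terms
  have T1 : 2 ^ θ.p'.eval n * ((θ.k:ℝ) * 2 ^ (θ.L.eval n + 2) * (1 / 2) ^ (t + 1)) ≤
      2 ^ θ.P.eval n * (θ.k * (1 / 2) ^ (t + 1)) := by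
    have h6 : (0 : ℝ) ≤ θ.k * (1 / 2) ^ (t + 1) := by positivity
    have : 2 ^ θ.p'.eval n * ((θ.k:ℝ) * 2 ^ (θ.L.eval n + 2) * (1 / 2) ^ (t + 1)) =
      (2 ^ θ.p'.eval n * 2 ^ (θ.L.eval n + 2)) * (θ.k * (1 / 2) ^ (t + 1)) := by ring
    rw [this]
    exact mul_le_mul_of_nonneg_right k1 h6
  have T2 : 2 ^ θ.p'.eval n * ((K:ℝ) * ((r + 1) * (1 - q ^ θ.k) ^ s)) ≤
      2 ^ θ.P.eval n * ((K:ℝ) * ((r + 1) * (1 - q ^ θ.k) ^ s)) :=
    mul_le_mul_of_nonneg_right k2 e1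
  have T3 : 2 ^ θ.p'.eval n * (2 ^ θ.p'.eval n * (1 / 2) ^ 2 ^ u) ≤
      2 ^ θ.P.eval n * ((1:ℝ) / 2) ^ 2 ^ u := by
    rw [← mul_assoc]
    exact mul_le_mul_of_nonneg_right k3 (by positivity)
  have hall : ((θ.p'.eval n + 1 : ℕ) : ℝ) * (θ.k * 2 ^ (θ.L.eval n + 2) * (1 / 2) ^ (t + 1) +
      K * ((r + 1) * (1 - q ^ θ.k) ^ s) + 2 ^ θ.p'.eval n * (1 / 2) ^ 2 ^ u) ≤
      2 ^ θ.p'.eval n * (θ.k * 2 ^ (θ.L.eval n + 2) * (1 / 2) ^ (t + 1) +
      K * ((r + 1) * (1 - q ^ θ.k) ^ s) + 2 ^ θ.p'.eval n * (1 / 2) ^ 2 ^ u) := by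
    apply mul_le_mul_of_nonneg_right hp1
    positivity
  refine hall.trans ?_
  have hb : bnd2 θ.k θ.P n u = 2 ^ θ.P.eval n * (θ.k * (1 / 2) ^ (t + 1)) +
      2 ^ θ.P.eval n * ((K:ℝ) * ((r + 1) * (1 - q ^ θ.k) ^ s)) +
      2 ^ θ.P.eval n * ((1:ℝ) / 2) ^ 2 ^ u := by
    unfold bnd2
    rw [hqb, hrb, hKb]
  rw [hb]
  linarith

end Pool.Agent.H943R3.PP
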