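import Pool.Agent.H943R3.PP.Base
import Pool.Agent.H620R2.Gauge.Y

/-!
# Task M3: the choice of the parameters (helper619, adapted from `Gauge/Y.lean` by helper620)
-/

namespace Pool.Agent.H943R3.PP

open Filter
open Pool.Agent.H620R2.Gauge

namespace M3

/-- the condition on real numbers -/
lemma Y_real (k : ℕ) (δ : ℝ) : ∀ᶠ x : ℝ in atTop,
    (k : ℝ) + 1 + 4 * x * (x ^ 20 + 1) ≤ 2 ^ (x / 8) ∧ 1 / δ ≤ 2 ^ (x / 8) := by
  have hb : (0 : ℝ) < Real.log 2 / 8 := by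
    have := Real.log_pos (by norm_num : (1 : ℝ) < 2)
    positivity
  have h1 := (isLittleO_pow_exp_pos_mul_atTop (k := 22) hb).def (zero_lt_one)
  filter_upwards [h1, eventually_ge_atTop ((k : ℝ) + 9), eventually_ge_atTop (1 / δ),
    eventually_ge_atTop (1 : ℝ)] with x hx h2 h3 h4
  have hx0 : 0 < x := by linarith
  have h5 : x ^ 22 ≤ 2 ^ (x / 8) := by
    rw [Real.rpow_def_of_pos (by norm_num)]
    rw [one_mul, Real.norm_eq_abs, Real.norm_eq_abs, abs_of_pos (by positivity),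
      abs_of_pos (Real.exp_pos _)] at hx
    rw [show Real.log 2 * (x / 8) = Real.log 2 / 8 * x by ring]
    exact hx
  have hx4 : 1 ≤ x ^ 21 := one_le_pow₀ h4
  have hx41 : x ≤ x ^ 21 := by
    calc x = x ^ 1 := by ring
      _ ≤ x ^ 21 := pow_le_pow_right₀ h4 (by norm_num)
  have hk : (0 : ℝ) ≤ k := Nat.cast_nonneg k
  constructor
  · refine le_trans ?_ h5
    calc (k : ℝ) + 1 + 4 * x * (x ^ 20 + 1) = (k + 1) + 4 * x ^ 21 + 4 * x := by ring
      _ ≤ (k + 1) * x ^ 21 + 4 * x ^ 21 + 4 * x ^ 21 := by nlinarith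
      _ = (k + 9) * x ^ 21 := by ring
      _ ≤ x * x ^ 21 := by gcongr
      _ = x ^ 22 := by ring
  · refine le_trans ?_ h5
    refine h3.trans ?_
    calc x = x ^ 1 := by ring
      _ ≤ x ^ 22 := pow_le_pow_right₀ h4 (by norm_num)

/-- the bound of `bnd2` -/
lemma Y_bnd (k : ℕ) (P : Polynomial ℕ) (n u : ℕ) (hu : 1 ≤ u) (hn : 40 * (k + 1) * u ≤ n) :
    bnd2 k P n u ≤ 2 ^ P.eval n * ((1 / 2) ^ 2 ^ u *
      ((k : ℝ) + 1 + 4 * (2 : ℝ) ^ u * (((2 : ℝ) ^ u) ^ 20 + 1))) := by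
  unfold bnd2
  set T : ℝ := (2 : ℝ) ^ u with hT
  have hT0 : 0 < T := by positivity
  have h3u : (2 : ℝ) ^ (20 * u) = T ^ 20 := by rw [hT, ← pow_mul]; congr 1; ring
  have h4u : (2 : ℝ) ^ (u + 2) = 4 * T := by rw [hT, pow_add]; ring
  rw [h3u, h4u]
  set x : ℝ := (1 / (24 * 2 ^ (2 * u))) ^ k with hx
  set s : ℕ := 2 ^ n / (2 ^ (20 * u) + 1) with hs
  have hx0 : 0 < x := by positivity
  have hx1 : x ≤ 1 := by
    rw [hx]
    apply pow_le_one₀ (by positivity)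
    rw [div_le_one (by positivity)]
    have : (1 : ℝ) ≤ 2 ^ (2 * u) := one_le_pow₀ (by norm_num)
    linarith
  have hkey : 2 ^ ((5 + 2 * u) * k) * 2 ^ u ≤ s := by
    have h1 : 2 ^ n / 2 ^ (20 * u + 1) ≤ s := by
      apply Nat.div_le_div_left
      · rw [pow_succ]
        have := Nat.one_le_two_pow (n := 20 * u)
        omega
      · positivity
    refine le_trans ?_ h1
    have hk1 : k ≤ k * u := Nat.le_mul_of_pos_right k hu
    have e1 : 40 * (k + 1) * u = 40 * (k * u) + 40 * u := by ring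
    have e2 : (5 + 2 * u) * k = 5 * k + 2 * (k * u) := by ring
    rw [Nat.pow_div (by omega) (by norm_num), ← pow_add]
    exact Nat.pow_le_pow_right (by norm_num) (by omega)
  have hxs : T ≤ x * s := by
    have h1 : (2 : ℝ) ^ ((5 + 2 * u) * k) * 2 ^ u ≤ (s : ℝ) := by exact_mod_cast hkey
    have h2 : 1 ≤ x * 2 ^ ((5 + 2 * u) * k) := by
      rw [hx, pow_mul (2 : ℝ) (5 + 2 * u) k, ← mul_pow]
      apply one_le_pow₀
      rw [pow_add, one_div, inv_mul_eq_div, le_div_iff₀ (by positivity), one_mul]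
      have : (0 : ℝ) < 2 ^ (2 * u) := by positivity
      nlinarith
    calc T = 1 * T := by ring
      _ ≤ (x * 2 ^ ((5 + 2 * u) * k)) * T := by gcongr
      _ = x * (2 ^ ((5 + 2 * u) * k) * 2 ^ u) := by rw [hT]; ring
      _ ≤ x * s := by gcongr
  have hexp : (1 - x) ^ s ≤ (1 / 2) ^ 2 ^ u := by
    calc (1 - x) ^ s ≤ (Real.exp (-x)) ^ s := by
          apply pow_le_pow_left₀ (by linarith)
          have := Real.add_one_le_exp (-x)
          linarith
      _ = Real.exp (-(x * s)) := by rw [← Real.exp_nat_mul]; congr 1; ring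
      _ ≤ Real.exp (-T) := by
          apply Real.exp_le_exp.2
          linarith
      _ = (Real.exp (-1)) ^ 2 ^ u := by
          rw [← Real.exp_nat_mul, hT]; congr 1; push_cast; ring
      _ ≤ (1 / 2) ^ 2 ^ u := by
          apply pow_le_pow_left₀ (Real.exp_pos _).le
          rw [Real.exp_neg, one_div]
          apply inv_anti₀ (by norm_num)
          have := Real.add_one_le_exp (1 : ℝ)
          linarith
  have hfirst : ((1 : ℝ) / 2) ^ (2 ^ (2 * u) + 1) ≤ (1 / 2) ^ 2 ^ u := by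
    apply pow_le_pow_of_le_one (by norm_num) (by norm_num)
    have : 2 ^ u ≤ 2 ^ (2 * u) := Nat.pow_le_pow_right (by norm_num) (by omega)
    omega
  have hp : (0 : ℝ) < 2 ^ P.eval n := by positivity
  have hk : (0 : ℝ) ≤ k := Nat.cast_nonneg k
  calc 2 ^ P.eval n * (k * (1 / 2) ^ (2 ^ (2 * u) + 1)) +
        2 ^ P.eval n * (4 * T * ((T ^ 20 + 1) * (1 - x) ^ s)) + 2 ^ P.eval n * (1 / 2) ^ 2 ^ u
      ≤ 2 ^ P.eval n * (k * (1 / 2) ^ 2 ^ u) +
        2 ^ P.eval n * (4 * T * ((T ^ 20 + 1) * (1 / 2) ^ 2 ^ u)) +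
          2 ^ P.eval n * (1 / 2) ^ 2 ^ u := by
        gcongr
    _ = _ := by ring

end M3

open M3

/-- M3 -/
theorem asym2 (k : ℕ) (P Q : Polynomial ℕ) (f : ℕ → ℝ) (hf : Cond f) (δ : ℝ) (hδ : 0 < δ)
    (n₀ : ℕ) :
    ∃ n N u : ℕ, n₀ ≤ n ∧ P.eval n ≤ 2 ^ (2 * u) ∧ 40 * (k + 1) * u ≤ n ∧
      2 ^ (Q.eval n + 1) ≤ N ∧ bnd2 k P n u * 2 ^ f N ≤ δ := by
  set c : ℕ := 40 * (k + 1) with hc
  have hc0 : 0 < c := by omega
  set Q' : Polynomial ℕ := Q + Polynomial.X with hQ'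
  have hQ'ev : ∀ n, Q'.eval n = Q.eval n + n := by intro n; simp [hQ']
  set e : ℕ := Q'.natDegree with he
  set D : ℕ := e + 1 with hD
  -- eventual conditions
  have hu : Tendsto (fun n : ℕ => n / c) atTop atTop := Nat.tendsto_div_const_atTop hc0.ne'
  have hTt : Tendsto (fun u : ℕ => (2 : ℝ) ^ u) atTop atTop :=
    tendsto_pow_atTop_atTop_of_one_lt (by norm_num)
  have hev : ∀ᶠ n : ℕ in atTop,
      (8 * (P.eval 1 * (c * (n / c + 1)) ^ P.natDegree) ≤ 2 ^ (n / c)) ∧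
      ((k : ℝ) + 1 + 4 * (2 : ℝ) ^ (n / c) * (((2 : ℝ) ^ (n / c)) ^ 20 + 1) ≤
          2 ^ ((2 : ℝ) ^ (n / c) / 8) ∧ 1 / δ ≤ 2 ^ ((2 : ℝ) ^ (n / c) / 8)) ∧
      c + 8 ≤ n / c ∧ n₀ ≤ n ∧ 1 ≤ n ∧ Q'.eval 1 * 2 ^ e + 1 ≤ n := by
    filter_upwards [hu.eventually (Y_exp (P.eval 1) c P.natDegree),
      hu.eventually (hTt.eventually (M3.Y_real k δ)), hu.eventually (eventually_ge_atTop (c + 8)),
      eventually_ge_atTop n₀, eventually_ge_atTop 1,
      eventually_ge_atTop (Q'.eval 1 * 2 ^ e + 1)] with n h1 h2 h3 h4 h5 h6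
    exact ⟨h1, h2, h3, h4, h5, h6⟩
  obtain ⟨n1, hn1⟩ := eventually_atTop.1 hev
  -- the choice of N
  set ε : ℝ := 1 / (2 * (D : ℝ)) with hε
  have hD0 : (0 : ℝ) < D := by rw [hD]; positivity
  have hε0 : 0 < ε := by positivity
  obtain ⟨N, hN1, hN2⟩ := ((hf ε hε0).and_eventually
    (eventually_ge_atTop (2 ^ (Q'.eval n1 + 1)))).exists
  -- the choice of n
  have hbig : ∀ m, 2 ^ (Q'.eval m + 1) ≤ N → m ≤ N := by
    intro m hm
    have h1 : m < 2 ^ m := Nat.lt_two_pow_self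
    have h2 : 2 ^ m ≤ 2 ^ (Q'.eval m + 1) :=
      Nat.pow_le_pow_right (by norm_num) (by rw [hQ'ev]; omega)
    omega
  set n : ℕ := Nat.findGreatest (fun m => 2 ^ (Q'.eval m + 1) ≤ N) N with hn
  have hnP : 2 ^ (Q'.eval n + 1) ≤ N :=
    Nat.findGreatest_spec (P := fun m => 2 ^ (Q'.eval m + 1) ≤ N) (hbig n1 hN2) hN2
  have hn1n : n1 ≤ n :=
    Nat.le_findGreatest (P := fun m => 2 ^ (Q'.eval m + 1) ≤ N) (hbig n1 hN2) hN2
  have hmax : N < 2 ^ (Q'.eval (n + 1) + 1) := by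
    by_contra hcon
    push Not at hcon
    have := Nat.le_findGreatest (P := fun m => 2 ^ (Q'.eval m + 1) ≤ N) (hbig _ hcon) hcon
    rw [← hn] at this
    omega
  obtain ⟨c1, ⟨c2, c3⟩, c4, c5, c6, c7⟩ := hn1 n hn1n
  set u : ℕ := n / c with hudef
  set T : ℝ := (2 : ℝ) ^ u with hT
  have hT0 : 0 < T := by positivity
  have hcu : c * u ≤ n := Nat.mul_div_le n c
  have hnu : n ≤ c * (u + 1) := by
    have := Nat.lt_mul_div_succ n hc0
    exact this.le
  -- P is small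
  have hP8 : 8 * P.eval n ≤ 2 ^ u := by
    refine le_trans ?_ c1
    apply Nat.mul_le_mul_left
    refine (Y_poly_le P n c6).trans ?_
    exact Nat.mul_le_mul_left _ (Nat.pow_le_pow_left hnu _)
  -- f N is small
  have hNpos : 1 ≤ N := le_trans Nat.one_le_two_pow hN2
  have hlog : Real.logb 2 N ≤ ((n ^ D : ℕ) : ℝ) := by
    have h1 : (N : ℝ) ≤ (2 : ℝ) ^ (Q'.eval (n + 1) + 1) := by exact_mod_cast hmax.le
    have h2 : Real.logb 2 N ≤ ((Q'.eval (n + 1) + 1 : ℕ) : ℝ) := by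
      have h3 := Real.logb_le_logb_of_le (b := 2) (by norm_num)
        (by exact_mod_cast hNpos : (0 : ℝ) < N) h1
      rw [Real.logb_pow, Real.logb_self_eq_one (by norm_num), mul_one] at h3
      exact h3
    refine h2.trans ?_
    have h4 : Q'.eval (n + 1) + 1 ≤ n ^ D := by
      have h5 : Q'.eval (n + 1) ≤ Q'.eval 1 * (2 * n) ^ e := by
        refine (Y_poly_le Q' (n + 1) (by omega)).trans ?_
        exact Nat.mul_le_mul_left _ (Nat.pow_le_pow_left (by omega) _)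
      have h6 : 1 ≤ n ^ e := Nat.one_le_pow _ _ c6
      calc Q'.eval (n + 1) + 1 ≤ Q'.eval 1 * (2 * n) ^ e + 1 := by omega
        _ = Q'.eval 1 * 2 ^ e * n ^ e + 1 := by rw [mul_pow]; ring
        _ ≤ Q'.eval 1 * 2 ^ e * n ^ e + n ^ e := by omega
        _ = (Q'.eval 1 * 2 ^ e + 1) * n ^ e := by ring
        _ ≤ n * n ^ e := Nat.mul_le_mul_right _ c7
        _ = n ^ D := by rw [hD, pow_succ]; ring
    exact_mod_cast h4
  have hlog0 : 0 ≤ Real.logb 2 N := Real.logb_nonneg (by norm_num) (by exact_mod_cast hNpos)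
  have hsqrt : (Real.logb 2 N) ^ ε ≤ (u : ℝ) - 3 := by
    have hn0 : (0 : ℝ) ≤ n := Nat.cast_nonneg n
    calc (Real.logb 2 N) ^ ε ≤ (((n ^ D : ℕ) : ℝ)) ^ ε := Real.rpow_le_rpow hlog0 hlog hε0.le
      _ = (n : ℝ) ^ (1 / 2 : ℝ) := by
          push_cast
          rw [← Real.rpow_natCast, ← Real.rpow_mul hn0]
          congr 1
          rw [hε]; field_simp
      _ = Real.sqrt n := by rw [Real.sqrt_eq_rpow]
      _ ≤ (u : ℝ) - 3 := by
          apply Real.sqrt_le_iff.2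
          have h1 : (c : ℝ) + 8 ≤ u := by exact_mod_cast c4
          have h2 : (n : ℝ) ≤ c * (u + 1) := by exact_mod_cast hnu
          have h3 : (0 : ℝ) ≤ c := Nat.cast_nonneg c
          constructor
          · linarith
          · nlinarith [mul_nonneg (sub_nonneg.2 h1) h3]
  have hfN : f N ≤ T / 8 := by
    refine hN1.trans ?_
    calc (2 : ℝ) ^ (Real.logb 2 N) ^ ε ≤ 2 ^ ((u : ℝ) - 3) :=
          Real.rpow_le_rpow_of_exponent_le (by norm_num) hsqrt
      _ = T / 8 := by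
          rw [Real.rpow_sub (by norm_num), Real.rpow_natCast, hT]
          norm_num
  -- conclusion
  refine ⟨n, N, u, c5, ?_, hcu, ?_, ?_⟩
  · have : 2 ^ u ≤ 2 ^ (2 * u) := Nat.pow_le_pow_right (by norm_num) (by omega)
    omega
  · refine le_trans ?_ hnP
    exact Nat.pow_le_pow_right (by norm_num) (by rw [hQ'ev]; omega)
  · have hb := M3.Y_bnd k P n u (by omega) hcu
    rw [← hT] at hb
    have h2 : (0 : ℝ) < 2 := by norm_num
    have e1 : (2 : ℝ) ^ P.eval n ≤ 2 ^ (T / 8) := by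
      rw [← Real.rpow_natCast]
      apply Real.rpow_le_rpow_of_exponent_le (by norm_num)
      have : (8 : ℝ) * P.eval n ≤ T := by rw [hT]; exact_mod_cast hP8
      linarith
    have e2 : ((1 : ℝ) / 2) ^ 2 ^ u = 2 ^ (-T) := by
      rw [Real.rpow_neg h2.le, one_div, inv_pow, hT, ← Real.rpow_natCast]
      push_cast; rfl
    have e3 : (2 : ℝ) ^ f N ≤ 2 ^ (T / 8) := Real.rpow_le_rpow_of_exponent_le (by norm_num) hfN
    have hA : (0 : ℝ) < 2 ^ (T / 8) := by positivity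
    calc bnd2 k P n u * 2 ^ f N
        ≤ (2 ^ P.eval n * ((1 / 2) ^ 2 ^ u * ((k : ℝ) + 1 + 4 * T * (T ^ 20 + 1)))) *
            2 ^ f N := by
          gcongr
      _ ≤ (2 ^ (T / 8) * (2 ^ (-T) * 2 ^ (T / 8))) * 2 ^ (T / 8) := by
          rw [e2]
          gcongr
      _ = 2 ^ (T / 8 + (-T + T / 8) + T / 8) := by
          rw [Real.rpow_add h2, Real.rpow_add h2, Real.rpow_add h2]
      _ ≤ 2 ^ (-(T / 8)) := by
          apply Real.rpow_le_rpow_of_exponent_le (by norm_num)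
          linarith
      _ ≤ δ := by
          rw [Real.rpow_neg h2.le]
          rw [inv_le_comm₀ hA hδ]
          rw [← one_div]
          exact c3

end Pool.Agent.H943R3.PP
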