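import Pool.Agent.H943R3.PP.Base
import Pool.Agent.H943R3.PP.M2
import Pool.Agent.H943R3.PP.M3
import Pool.Agent.H620R2.Gauge.Cover

/-! # Task M4: covers of the sets of oracles for which the parity language is in `PP^PH/poly` -/

namespace Pool.Agent.H943R3.PP.M4

open Pool.Agent.NPC Pool.Agent.H620R2.Gauge Finset H568R2 Pool.Agent.H676 Pool.Agent.H943R3.PP

instance : Countable Par2 := by
  have h2 : Countable (Polynomial ℕ) := by
    have : Function.Injective (fun p : Polynomial ℕ => (p.toFinsupp.coeff : ℕ →₀ ℕ)) := by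
      intro p q h
      ext n
      exact DFunLike.congr_fun h n
    exact this.countable
  let F : Par2 → Alg × Polynomial ℕ × Polynomial ℕ × ℕ × Polynomial ℕ :=
    fun θ => (θ.M, θ.p, θ.r, θ.k, θ.p')
  have hF : Function.Injective F := by
    rintro ⟨M, p, r, k, p'⟩ ⟨N, q, s, l, q'⟩ h
    simp only [F, Prod.mk.injEq] at h
    obtain ⟨rfl, rfl, rfl, rfl, rfl⟩ := h
    rfl
  exact hF.countable

theorem eval_L (θ : Par2) (n : ℕ) : θ.L.eval n =
    2 * n + 1 + θ.p'.eval n + (2 * θ.rr n (θ.p'.eval n) + 1) +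
      θ.k * (2 * θ.m n (θ.p'.eval n) + 1) := by
  simp [Par2.L, Par2.m, Par2.rr, Polynomial.eval_comp]

theorem m_mono (θ : Par2) (n : ℕ) {c d : ℕ} (h : c ≤ d) : θ.m n c ≤ θ.m n d :=
  eval_mono _ (by omega)

theorem rr_mono (θ : Par2) (n : ℕ) {c d : ℕ} (h : c ≤ d) : θ.rr n c ≤ θ.rr n d :=
  eval_mono _ (by omega)

theorem len_le (θ : Par2) {n c : ℕ} (hc : c ≤ θ.p'.eval n) :
    2 * n + 1 + c + (2 * θ.rr n c + 1) + θ.k * (2 * θ.m n c + 1) ≤ θ.L.eval n := by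
  rw [eval_L θ]
  have h1 := m_mono θ n hc
  have h3 := rr_mono θ n hc
  have h2 : θ.k * (2 * θ.m n c + 1) ≤ θ.k * (2 * θ.m n (θ.p'.eval n) + 1) :=
    Nat.mul_le_mul_left _ (by omega)
  omega

/-- the oracles for which the parameters are good -/
def Easy2 (θ : Par2) : Set Oracle :=
  {A | ∃ (V : List Bool → List Bool) (h : ℕ → List Bool),
    (∀ x, θ.M.out A x = some (V x)) ∧ (∀ n, (h n).length ≤ θ.p'.eval n) ∧
    ∀ x, x ∈ parLang A ↔ 1 / 2 < accPrQ V (θ.p.eval (pairBits x (h x.length)).length) θ.k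
      (θ.r.eval (pairBits x (h x.length)).length) (pairBits x (h x.length))}

theorem mem_easy2 {A : Oracle} (h : WithAdvice (IsPPPH A) (parLang A)) : ∃ θ, A ∈ Easy2 θ := by
  obtain ⟨L', h, p', ⟨V, p, r, k, ⟨M, hM⟩, hL'⟩, hh, hx⟩ := h
  refine ⟨⟨M, p, r, k, p'⟩, V, h, hM, hh, fun x => (hx x).trans ?_⟩
  constructor
  · intro h1
    exact (hL' _).1 h1
  · intro h1
    by_contra h2
    have h3 := (hL' _).2 h2
    exact absurd h1 (not_lt.2 h3.le)

theorem maj_iff {N : ℕ} (A : Oracle) (M : Alg) (V : List Bool → List Bool) (m k r ℓ : ℕ)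
    (hV : ∀ y : List Bool, y.length ≤ ℓ → (V y = [true] ↔ leaf M N y (pre N A) = true))
    (y : List Bool) (hy : y.length + (2 * r + 1) + k * (2 * m + 1) ≤ ℓ) :
    0 < maj m (leaf M N) k r y (pre N A) ↔ 1 / 2 < accPrQ V m k r y := by
  classical
  have h1 : ∑ w : Fin r → Bool,
      (if QF m (leaf M N) k true (pairBits (List.ofFn w) y) (pre N A) = true then (1 : ℝ) else 0) =
      (Nat.card {w : Fin r → Bool // Quant m V k true (pairBits (List.ofFn w) y)} : ℝ) := by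
    rw [Finset.sum_boole, Nat.card_eq_fintype_card, Fintype.card_subtype]
    congr 2
    ext w
    simp only [Finset.mem_filter, Finset.mem_univ, true_and]
    rw [quant_iff (m := m) ℓ hV k true (pairBits (List.ofFn w) y) (by
      rw [length_pairBits, List.length_ofFn]
      omega)]
  unfold maj accPrQ
  rw [h1]
  generalize Nat.card {w : Fin r → Bool // Quant m V k true (pairBits (List.ofFn w) y)} = s
  rw [lt_div_iff₀ (by positivity)]
  constructor
  · intro h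
    linarith
  · intro h
    have h2 : (2 : ℝ) ^ r < 2 * s := by linarith
    have h3 : 2 ^ r < 2 * s := by exact_mod_cast h2
    have h4 : ((2 ^ r + 1 : ℕ) : ℝ) ≤ ((2 * s : ℕ) : ℝ) := by exact_mod_cast h3
    push_cast at h4
    linarith

theorem ev2_of_easy (θ : Par2) : ∃ Q : Polynomial ℕ, ∀ A ∈ Easy2 θ, ∀ n N u : ℕ,
    2 ^ (Q.eval n + 1) ≤ N → Ev2 θ n N u (pre N A) := by
  obtain ⟨qb, hqb⟩ := Alg.out_local θ.M
  refine ⟨qb.comp θ.L + 2 * Polynomial.X, ?_⟩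
  rintro A ⟨V, h, hM, hh, hx⟩ n N u hN
  have hQ : (qb.comp θ.L + 2 * Polynomial.X).eval n = qb.eval (θ.L.eval n) + 2 * n := by
    simp [Polynomial.eval_comp]
  rw [hQ] at hN
  have hV : ∀ y : List Bool, y.length ≤ θ.L.eval n →
      (V y = [true] ↔ leaf θ.M N y (pre N A) = true) := by
    intro y hy
    obtain ⟨Q, _, hQl, hQA⟩ := hqb A y
    have h1 : θ.M.out (orc N (pre N A)) y = θ.M.out A y := by
      apply hQA
      intro q hq
      apply orc_pre
      have h2 := idx_lt q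
      have h3 : q.length ≤ qb.eval (θ.L.eval n) := (hQl q hq).trans (eval_mono _ hy)
      have h4 : 2 ^ (q.length + 1) ≤ 2 ^ (qb.eval (θ.L.eval n) + 2 * n + 1) :=
        Nat.pow_le_pow_right (by norm_num) (by omega)
      omega
    unfold leaf
    rw [h1, hM y, decide_eq_true_eq, Option.some.injEq]
  refine ⟨(h n).length, hh n, h n, rfl, ?_⟩
  intro j _
  have hlen : (bitsOf n j).length = n := length_bitsOf n j
  have h1 := hx (bitsOf n j)
  rw [hlen, length_pairBits, hlen] at h1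
  have hN' : 2 ^ (2 * (bitsOf n j).length + 1) ≤ N + 1 := by
    rw [hlen]
    have h4 : 2 ^ (2 * n + 1) ≤ 2 ^ (qb.eval (θ.L.eval n) + 2 * n + 1) :=
        Nat.pow_le_pow_right (by norm_num) (by omega)
    omega
  have h2 := blk_par N A (bitsOf n j) hN'
  have h3 := maj_iff A θ.M V (θ.m n (h n).length) θ.k (θ.rr n (h n).length) (θ.L.eval n) hV
    (pairBits (bitsOf n j) (h n)) (by
      rw [length_pairBits, hlen]
      exact len_le θ (hh n))
  rw [h2, h1, h3]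
  rfl

theorem cover_easy2
    (ev2_bound : ∀ (θ : Par2) {n N u : ℕ}, θ.P.eval n ≤ 2 ^ (2 * u) → 40 * (θ.k + 1) * u ≤ n →
      2 ^ (2 * n + 1) ≤ N + 1 → ∀ D : DecidablePred (fun a : Fin N → Bool => Ev2 θ n N u a),
      Ex unif (fun a : Fin N → Bool => @ite ℝ (Ev2 θ n N u a) (D a) 1 0) ≤ bnd2 θ.k θ.P n u)
    (asym2 : ∀ (k : ℕ) (P Q : Polynomial ℕ) (f : ℕ → ℝ), Cond f → ∀ δ : ℝ, 0 < δ → ∀ n₀ : ℕ,
      ∃ n N u : ℕ, n₀ ≤ n ∧ P.eval n ≤ 2 ^ (2 * u) ∧ 40 * (k + 1) * u ≤ n ∧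
        2 ^ (Q.eval n + 1) ≤ N ∧ bnd2 k P n u * 2 ^ f N ≤ δ)
    (θ : Par2) (f : ℕ → ℝ) (hf : Cond f)
    (δ : ℝ) (hδ : 0 < δ) : ∃ S : Set (List Bool), (∀ A ∈ Easy2 θ, ∃ σ ∈ S, Extends A σ) ∧
    ∑' σ : S, ENNReal.ofReal (2 ^ (f σ.1.length - σ.1.length)) ≤ ENNReal.ofReal δ := by
  classical
  obtain ⟨Q, hQ⟩ := ev2_of_easy θ
  obtain ⟨n, N, u, _, hP, hu, hN, hb⟩ := asym2 θ.k θ.P (Q + 2 * Polynomial.X) f hf δ hδ 0
  have hQe : (Q + 2 * Polynomial.X).eval n = Q.eval n + 2 * n := by simp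
  rw [hQe] at hN
  have hN1 : 2 ^ (Q.eval n + 1) ≤ N :=
    le_trans (Nat.pow_le_pow_right (by norm_num) (by omega)) hN
  have hN2 : 2 ^ (2 * n + 1) ≤ N + 1 :=
    le_trans (Nat.pow_le_pow_right (by norm_num) (by omega)) (hN.trans (Nat.le_succ _))
  have hev := ev2_bound θ hP hu hN2 (Classical.decPred _)
  refine ⟨(fun a : Fin N → Bool => List.ofFn a) '' {a | Ev2 θ n N u a}, ?_, ?_⟩
  · intro A hA
    refine ⟨List.ofFn (pre N A), ⟨pre N A, hQ A hA n N u hN1, rfl⟩, ?_⟩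
    intro i hi
    rw [List.getElem_ofFn]
    rfl
  · have hinj : Set.InjOn (fun a : Fin N → Bool => List.ofFn a) {a | Ev2 θ n N u a} :=
      fun a _ b _ h => List.ofFn_injective h
    rw [tsum_image (fun σ : List Bool => ENNReal.ofReal (2 ^ (f σ.length - σ.length))) hinj]
    simp only [List.length_ofFn]
    rw [tsum_fintype, Finset.sum_const, nsmul_eq_mul, Finset.card_univ]
    rw [← ENNReal.ofReal_natCast, ← ENNReal.ofReal_mul (by positivity)]
    apply ENNReal.ofReal_le_ofReal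
    have h1 : Fintype.card {a : Fin N → Bool | Ev2 θ n N u a} =
        (univ.filter (fun a : Fin N → Bool => Ev2 θ n N u a)).card := by
      rw [← Fintype.card_subtype]
      rfl
    have h2 := card_of_Ex (fun a : Fin N → Bool => Ev2 θ n N u a)
    have h3 : (2 : ℝ) ^ (f N - N) = 2 ^ (-(N : ℝ)) * 2 ^ f N := by
      rw [← Real.rpow_add (by norm_num)]; congr 1; ring
    have h4 : (univ.filter (fun a : Fin N → Bool => Ev2 θ n N u a)).card =
        (@Finset.filter _ (fun a : Fin N → Bool => Ev2 θ n N u a)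
          (fun a => Classical.propDecidable _) univ).card := by
      apply congrArg Finset.card
      ext a
      simp
    rw [h1, h3, ← mul_assoc, h4, h2]
    exact (mul_le_mul_of_nonneg_right hev (by positivity)).trans hb

theorem null2_of
    (ev2_bound : ∀ (θ : Par2) {n N u : ℕ}, θ.P.eval n ≤ 2 ^ (2 * u) → 40 * (θ.k + 1) * u ≤ n →
      2 ^ (2 * n + 1) ≤ N + 1 → ∀ D : DecidablePred (fun a : Fin N → Bool => Ev2 θ n N u a),
      Ex unif (fun a : Fin N → Bool => @ite ℝ (Ev2 θ n N u a) (D a) 1 0) ≤ bnd2 θ.k θ.P n u)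
    (asym2 : ∀ (k : ℕ) (P Q : Polynomial ℕ) (f : ℕ → ℝ), Cond f → ∀ δ : ℝ, 0 < δ → ∀ n₀ : ℕ,
      ∃ n N u : ℕ, n₀ ≤ n ∧ P.eval n ≤ 2 ^ (2 * u) ∧ 40 * (k + 1) * u ≤ n ∧
        2 ^ (Q.eval n + 1) ≤ N ∧ bnd2 k P n u * 2 ^ f N ≤ δ)
    (f : ℕ → ℝ) (hf : Cond f) (O : Set Oracle)
    (hO : ∀ A ∈ O, WithAdvice (IsPPPH A) (parLang A)) : Null f O := by
  intro δ hδ
  obtain ⟨δ', hδ', hsum⟩ := ENNReal.exists_pos_sum_of_countable
    (ENNReal.ofReal_pos.2 hδ).ne' Par2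
  choose S hS hSs using fun θ : Par2 =>
    cover_easy2 ev2_bound asym2 θ f hf (δ' θ) (by exact_mod_cast hδ' θ)
  refine ⟨⋃ θ, S θ, ?_, ?_⟩
  · intro A hA
    obtain ⟨θ, hθ⟩ := mem_easy2 (hO A hA)
    obtain ⟨σ, hσ, hE⟩ := hS θ A hθ
    exact ⟨σ, Set.mem_iUnion.2 ⟨θ, hσ⟩, hE⟩
  · refine (ENNReal.tsum_iUnion_le_tsum (fun σ : List Bool =>
      ENNReal.ofReal (2 ^ (f σ.length - σ.length))) S).trans ?_
    refine (ENNReal.tsum_le_tsum hSs).trans ?_
    refine le_trans (le_of_eq ?_) hsum.le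
    congr 1
    funext θ
    exact ENNReal.ofReal_coe_nnreal

end Pool.Agent.H943R3.PP.M4

namespace Pool.Agent.H943R3.PP

open Pool.Agent.NPC Pool.Agent.H620R2.Gauge Finset H568R2 Pool.Agent.H676

/-- M4 -/
theorem null2 (f : ℕ → ℝ) (hf : Cond f) (O : Set Oracle)
    (hO : ∀ A ∈ O, WithAdvice (IsPPPH A) (parLang A)) : Null f O := by
  classical
  refine M4.null2_of (fun θ n N u hP hu hN D => ?_)
    (fun k P Q f hf δ hδ n₀ => asym2 k P Q f hf δ hδ n₀) f hf O hO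
  refine le_trans (le_of_eq ?_) (ev2_bound θ hP hu hN)
  unfold Ex
  apply Finset.sum_congr rfl
  intro a _
  by_cases h : Ev2 θ n N u a
  · simp only [if_pos h]
  · simp only [if_neg h]

end Pool.Agent.H943R3.PP
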