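import Pool.Agent.H943R3.PP.Base
import Pool.Agent.H620R2.Gauge.Upper

/-! N1: `NP` and `coNP` are contained in the polynomial hierarchy (helper49) -/

namespace Pool.Agent.H943R3.PP

open Pool.Agent.NPC Pool.Agent.H620R2.Gauge Pool.Agent.H622R2

/-- N1 -/
theorem isPH_of_isNP {A : Oracle} {L : Set (List Bool)} (h : IsNP A L) : IsPH A L := by
  obtain ⟨V, p, hV, hL⟩ := h
  exact ⟨V, p, 1, hV, fun x => hL x⟩

namespace N1

/-- postcomposition with a polynomial-time function, one query-free step at the end -/
theorem postcomp {A : Oracle} {V g : List Bool → List Bool} (hV : IsFP A V) (hg : Poly g) :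
    IsFP A (fun y => g (V y)) := by
  obtain ⟨M, hM⟩ := hV
  have hD := poly_of_polyTime M.poly
  -- the new action: replace the final output
  let D' : List Bool → List Bool := fun z =>
    if M.D z = [] then true :: g [] else
      if (M.D z).head?.getD false = true then true :: g (M.D z).tail else M.D z
  have hD' : Poly D' := by
    refine Poly.ite (Poly.decide_eq hD (NPC.Poly.const [])) (NPC.Poly.const _) ?_
    refine Poly.ite (Poly.decide_eq (Poly.head?_getD hD false) (NPC.Poly.const true)) ?_ hD
    exact Poly.cons (NPC.Poly.const true) (hg.comp (Poly.tail hD))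
  refine ⟨⟨D', polyTime_of_poly_list hD', M.p⟩, fun x => ?_⟩
  have key : ∀ (n : ℕ) (a z : List Bool), M.run A x n a = some z →
      Alg.run ⟨D', polyTime_of_poly_list hD', M.p⟩ A x n a = some (g z) := by
    intro n
    induction n with
    | zero => intro a z h; simp [Alg.run] at h
    | succ n ih =>
      intro a z h
      rcases hq : M.D (pairBits x a) with _ | ⟨c, q⟩
      · simp only [Alg.run, hq, Option.some.injEq] at h
        subst h
        have h1 : D' (pairBits x a) = true :: g [] := by simp [D', hq]
        simp only [Alg.run, h1]
      · cases c with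
        | true =>
          simp only [Alg.run, hq, Option.some.injEq] at h
          subst h
          have h1 : D' (pairBits x a) = true :: g q := by simp [D', hq]
          simp only [Alg.run, h1]
        | false =>
          simp only [Alg.run, hq] at h
          have h1 : D' (pairBits x a) = false :: q := by simp [D', hq]
          simp only [Alg.run, h1]
          exact ih _ _ h
  exact key _ _ _ (hM x)

end N1

/-- N1 -/
theorem isPH_of_isNP_compl {A : Oracle} {L : Set (List Bool)} (h : IsNP A Lᶜ) : IsPH A L := by
  obtain ⟨V, p, hV, hL⟩ := h
  have hsnd : Poly (fun y : List Bool => (unpair y).2) := Poly.snd poly_unpair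
  have hg : Poly (fun y : List Bool => pairBits (unpair y).1 (unpair (unpair y).2).2) :=
    poly_pairBits (Poly.fst poly_unpair) (hsnd.comp hsnd)
  have hpost : Poly (fun z : List Bool => if z = [true] then ([] : List Bool) else [true]) :=
    Poly.ite (Poly.decide_eq NPC.Poly.id (NPC.Poly.const [true])) (NPC.Poly.const _)
      (NPC.Poly.const _)
  refine ⟨_, p, 2, N1.postcomp (hV.precomp hg) hpost, fun x => ?_⟩
  have hW : ∀ w w' : List Bool,
      (if V (pairBits (unpair (pairBits w' (pairBits w x))).1
        (unpair (unpair (pairBits w' (pairBits w x))).2).2) = [true] then ([] : List Bool)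
        else [true]) = [true] ↔ V (pairBits w' x) ≠ [true] := by
    intro w w'
    rw [unpair_pairBits]
    simp only [unpair_pairBits]
    split_ifs with h1
    · simp [h1]
    · simp [h1]
  have hx := hL x
  rw [Set.mem_compl_iff] at hx
  constructor
  · intro hxL
    refine ⟨[], Nat.zero_le _, fun w' hw' => ?_⟩
    show (if V (pairBits (unpair (pairBits w' (pairBits [] x))).1
        (unpair (unpair (pairBits w' (pairBits [] x))).2).2) = [true] then ([] : List Bool)
        else [true]) = [true]
    rw [hW]
    intro hV1
    exact (hx.2 ⟨w', hw', hV1⟩) hxL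
  · rintro ⟨w, _, hw⟩
    by_contra hxL
    obtain ⟨w', hw', hV1⟩ := hx.1 hxL
    have := hw w' hw'
    exact (hW w w').1 this hV1

end Pool.Agent.H943R3.PP
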