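import Pool.Agent.H943R3.PP.Base
import Pool.Agent.H620R2.Gauge.Upper

/-! N3: the polynomial hierarchy is closed under polynomially bounded existential quantifiers
(helper49) -/

namespace Pool.Agent.H943R3.PP

open Pool.Agent.NPC Pool.Agent.H620R2.Gauge Pool.Agent.H622R2

namespace N3

theorem take_eq {β : Type} (l : List β) : ∀ j k : ℕ, ((l.zipIdx k).filter fun p =>
    decide (p.2 < k + j)).map Prod.fst = l.take j := by
  induction l with
  | nil => intro j k; simp
  | cons v l ih =>
    intro j k
    rw [List.zipIdx_cons]
    cases j with
    | zero =>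
      rw [List.take_zero, List.map_eq_nil_iff, List.filter_eq_nil_iff]
      intro p hp
      have : k ≤ p.2 := by
        rcases List.mem_cons.1 hp with rfl | hp
        · exact le_rfl
        · have := (List.mem_zipIdx hp).1
          omega
      simp only [add_zero, decide_eq_true_eq, not_lt]
      exact this
    | succ j =>
      rw [List.filter_cons, if_pos (by simp), List.map_cons, List.take_succ_cons, ← ih j (k + 1)]
      congr 2
      ext p
      rw [show k + 1 + j = k + (j + 1) by omega]

theorem poly_take {α β : Type} [TEnc α] [TEnc β] {l : α → List β} {n : α → ℕ} (hl : Poly l)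
    (hn : Poly n) : Poly (fun a => (l a).take (n a)) := by
  refine (NPC.Poly.map (F := fun _ (p : β × ℕ) => p.1) (NPC.Poly.filter (p := fun a (p : β × ℕ) =>
    decide (p.2 < n a)) (Poly.zipIdx hl) (Poly.decide_lt (Poly.snd (Poly.snd Poly.id))
      (hn.comp (Poly.fst Poly.id)))) (Poly.fst (Poly.snd Poly.id))).congr fun a => ?_
  rw [← take_eq (l a) (n a) 0]
  simp

theorem poly_plen {α : Type} [TEnc α] {l : α → List Bool} (hl : Poly l) (p : Polynomial ℕ) :
    Poly (fun a => p.eval (l a).length) :=
  UPoly.toPoly ((UPoly.length hl).eval p)

/-- the innermost pair `⟨w | r, x⟩`, for `z = ⟨w', ⟨w, x⟩⟩` -/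
noncomputable def base (r : Polynomial ℕ) (z : List Bool) : List Bool :=
  pairBits ((unpair (unpair z).2).1.take (r.eval (unpair (unpair z).2).2.length))
    (unpair (unpair z).2).2

/-- the innermost pair under `j` further strings -/
noncomputable def hh (r : Polynomial ℕ) : ℕ → List Bool → List Bool
  | 0, z => base r z
  | j + 1, z => hh r j (unpair z).2

/-- truncation of all the strings -/
noncomputable def gg (r p : Polynomial ℕ) : ℕ → List Bool → List Bool
  | 0, z => base r z
  | j + 1, z => pairBits ((unpair z).1.take (p.eval (hh r (j + 1) z).length)) (gg r p j (unpair z).2)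

theorem poly_base (r : Polynomial ℕ) : Poly (base r) := by
  have hsnd : Poly (fun y : List Bool => (unpair y).2) := Poly.snd poly_unpair
  have hfst : Poly (fun y : List Bool => (unpair y).1) := Poly.fst poly_unpair
  have h1 : Poly (fun z : List Bool => (unpair (unpair z).2).1) := hfst.comp hsnd
  have h2 : Poly (fun z : List Bool => (unpair (unpair z).2).2) := hsnd.comp hsnd
  exact poly_pairBits (poly_take h1 (poly_plen h2 r)) h2

theorem poly_hh (r : Polynomial ℕ) (j : ℕ) : Poly (hh r j) := by
  induction j with
  | zero => exact poly_base r
  | succ j ih => exact ih.comp (Poly.snd poly_unpair)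

theorem poly_gg (r p : Polynomial ℕ) (j : ℕ) : Poly (gg r p j) := by
  induction j with
  | zero => exact poly_base r
  | succ j ih =>
    exact poly_pairBits (poly_take (Poly.fst poly_unpair) (poly_plen (poly_hh r (j + 1)) p))
      (ih.comp (Poly.snd poly_unpair))

theorem quant_gg (V : List Bool → List Bool) (r p : Polynomial ℕ) (k m' : ℕ) :
    ∀ (j i : ℕ), i + j = k → ∀ (b : Bool) (z : List Bool), p.eval (hh r i z).length ≤ m' →
      (Quant m' (fun z => V (gg r p k z)) j b z ↔
        Quant (p.eval (hh r i z).length) V j b (gg r p i z)) := by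
  intro j
  induction j with
  | zero =>
    intro i hi b z _
    rw [Nat.add_zero] at hi
    subst hi
    exact Iff.rfl
  | succ j ih =>
    intro i hi b z hz
    have hh1 : ∀ v : List Bool, hh r (i + 1) (pairBits v z) = hh r i z := by
      intro v
      show hh r i (unpair (pairBits v z)).2 = hh r i z
      rw [unpair_pairBits]
    have hg1 : ∀ v : List Bool, gg r p (i + 1) (pairBits v z) =
        pairBits (v.take (p.eval (hh r i z).length)) (gg r p i z) := by
      intro v
      show pairBits ((unpair (pairBits v z)).1.take
        (p.eval (hh r (i + 1) (pairBits v z)).length)) (gg r p i (unpair (pairBits v z)).2) = _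
      rw [hh1, unpair_pairBits]
    have key : ∀ (b' : Bool) (v : List Bool),
        (Quant m' (fun z => V (gg r p k z)) j b' (pairBits v z) ↔
          Quant (p.eval (hh r i z).length) V j b'
            (pairBits (v.take (p.eval (hh r i z).length)) (gg r p i z))) := by
      intro b' v
      have := ih (i + 1) (by omega) b' (pairBits v z) (by rw [hh1]; exact hz)
      rw [hh1, hg1] at this
      exact this
    cases b with
    | true =>
      constructor
      · rintro ⟨v, _, hv2⟩
        exact ⟨v.take (p.eval (hh r i z).length), by rw [List.length_take]; exact min_le_left _ _,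
          (key false v).1 hv2⟩
      · rintro ⟨v, hv1, hv2⟩
        refine ⟨v, hv1.trans hz, (key false v).2 ?_⟩
        rw [List.take_of_length_le hv1]
        exact hv2
    | false =>
      constructor
      · intro h v hv
        have := (key true v).1 (h v (hv.trans hz))
        rw [List.take_of_length_le hv] at this
        exact this
      · intro h v _
        exact (key true v).2 (h (v.take (p.eval (hh r i z).length))
          (by rw [List.length_take]; exact min_le_left _ _))

end N3

/-- N3 -/
theorem isPH_ex {A : Oracle} {L : Set (List Bool)} (h : IsPH A L) (r : Polynomial ℕ) :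
    IsPH A {x | ∃ w : List Bool, w.length ≤ r.eval x.length ∧ pairBits w x ∈ L} := by
  obtain ⟨V, p, k, hV, hL⟩ := h
  refine ⟨fun z => V (N3.gg r p k z),
    r + p.comp (Polynomial.C 2 * r + Polynomial.C 1 + Polynomial.X), k + 2,
    hV.precomp (N3.poly_gg r p k), fun x => ?_⟩
  set m' := (r + p.comp (Polynomial.C 2 * r + Polynomial.C 1 + Polynomial.X)).eval x.length
    with hm'
  have hm1 : r.eval x.length ≤ m' := by
    rw [hm', Polynomial.eval_add]
    exact Nat.le_add_right _ _
  have hm2 : ∀ n ≤ 2 * r.eval x.length + 1 + x.length, p.eval n ≤ m' := by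
    intro n hn
    rw [hm', Polynomial.eval_add, Polynomial.eval_comp]
    refine (eval_mono p hn).trans ?_
    simp only [Polynomial.eval_add, Polynomial.eval_mul, Polynomial.eval_C, Polynomial.eval_X]
    exact Nat.le_add_left _ _
  have hbase : ∀ w w' : List Bool, N3.base r (pairBits w' (pairBits w x)) =
      pairBits (w.take (r.eval x.length)) x := by
    intro w w'
    unfold N3.base
    rw [unpair_pairBits]
    simp only [unpair_pairBits]
  have key : ∀ w w' : List Bool,
      (Quant m' (fun z => V (N3.gg r p k z)) k true (pairBits w' (pairBits w x)) ↔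
        pairBits (w.take (r.eval x.length)) x ∈ L) := by
    intro w w'
    have h1 := N3.quant_gg V r p k m' k 0 (by omega) true (pairBits w' (pairBits w x)) ?_
    · rw [h1, hL]
      show Quant (p.eval (N3.base r (pairBits w' (pairBits w x))).length) V k true
        (N3.base r (pairBits w' (pairBits w x))) ↔ _
      rw [hbase]
    · show p.eval (N3.base r (pairBits w' (pairBits w x))).length ≤ m'
      rw [hbase]
      apply hm2
      rw [length_pairBits, List.length_take]
      omega
  constructor
  · rintro ⟨w, hw1, hw2⟩
    refine ⟨w, hw1.trans hm1, fun w' _ => (key w w').2 ?_⟩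
    rw [List.take_of_length_le hw1]
    exact hw2
  · rintro ⟨w, _, hw2⟩
    refine ⟨w.take (r.eval x.length), ?_, (key w []).1 (hw2 [] (Nat.zero_le _))⟩
    rw [List.length_take]
    exact min_le_left _ _

end Pool.Agent.H943R3.PP
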