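import Pool.Agent.H943R3.PP.Base
import Pool.Agent.H620R2.Gauge.Upper

/-!
# Tasks N5 and N6: simple inclusions
-/

namespace Pool.Agent.H943R3.PP

open Pool.Agent.NPC Pool.Agent.H620R2.Gauge

theorem cnt_le (A : Oracle) (x : List Bool) : cnt A x ≤ 2 ^ x.length := by
  unfold cnt
  refine (Finset.card_filter_le _ _).trans ?_
  rw [Finset.card_range]

theorem parLang_eq (A : Oracle) : parLang A =
    {x | ∃ w : List Bool, w.length ≤ (Polynomial.X + 1 : Polynomial ℕ).eval x.length ∧
      pairBits w x ∈ exLang A} := by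
  ext x
  have hx : x ∈ parLang A ↔ Odd (cnt A x) := Iff.rfl
  rw [hx, Set.mem_setOf_eq]
  constructor
  · intro h
    refine ⟨(cnt A x).bits, ?_, ?_⟩
    · have h1 : (cnt A x).size ≤ x.length + 1 := by
        rw [Nat.size_le]
        refine lt_of_le_of_lt (cnt_le A x) ?_
        exact Nat.pow_lt_pow_right (by norm_num) (Nat.lt_succ_self _)
      rw [← Nat.size_eq_bits_len] at h1
      simpa using h1
    · show Odd (valB (unpair (pairBits _ x)).1) ∧ valB (unpair (pairBits _ x)).1 =
        cnt A (unpair (pairBits _ x)).2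
      rw [unpair_pairBits, valB_bits]
      exact ⟨h, rfl⟩
  · rintro ⟨w, _, hw⟩
    have hw' : Odd (valB (unpair (pairBits w x)).1) ∧ valB (unpair (pairBits w x)).1 =
        cnt A (unpair (pairBits w x)).2 := hw
    rw [unpair_pairBits] at hw'
    obtain ⟨h1, h2⟩ := hw'
    rw [← h2]
    exact h1

theorem isPP_of_isP {A : Oracle} {L : Set (List Bool)} (h : IsP A L) : IsPP A L := by
  obtain ⟨V, hV, hL⟩ := h
  refine ⟨fun y => V (unpair y).2, 0, hV.precomp (Poly.snd poly_unpair), fun x => ?_⟩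
  have h0 : (0 : Polynomial ℕ).eval x.length = 0 := by simp
  rw [h0]
  unfold accPr
  rw [pow_zero, div_one]
  have h1 : ∀ w : Fin 0 → Bool, V (unpair (pairBits (List.ofFn w) x)).2 = V x := by
    intro w
    rw [unpair_pairBits]
  constructor
  · intro hx
    have h2 : V x = [true] := (hL x).1 hx
    have h3 : Nat.card {w : Fin 0 → Bool // V (unpair (pairBits (List.ofFn w) x)).2 = [true]} =
        1 := by
      rw [Nat.card_eq_one_iff_unique]
      refine ⟨⟨fun a b => Subtype.ext (Subsingleton.elim _ _)⟩, ⟨⟨Fin.elim0, ?_⟩⟩⟩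
      rw [h1, h2]
    rw [h3]
    norm_num
  · intro hx
    have h2 : V x ≠ [true] := fun e => hx ((hL x).2 e)
    have h3 : IsEmpty {w : Fin 0 → Bool // V (unpair (pairBits (List.ofFn w) x)).2 = [true]} := by
      constructor
      rintro ⟨w, hw⟩
      rw [h1] at hw
      exact h2 hw
    rw [Nat.card_of_isEmpty]
    norm_num

theorem isPPPH_of_isPP {A : Oracle} {L : Set (List Bool)} (h : IsPP A L) : IsPPPH A L := by
  obtain ⟨V, p, hV, hL⟩ := h
  exact ⟨V, 0, p, 0, hV, hL⟩

end Pool.Agent.H943R3.PP
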