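import Pool.Agent.H943R3.PP.Base
import Pool.Agent.H620R2.Gauge.X
import Pool.Agent.H620R2.Gauge.T
import Pool.Agent.H620R2.Gauge.W
import Pool.Agent.H620R2.GaugeR.Seq
import Pool.Agent.H620R2.Gauge.U1

/-! Statements of the tasks. -/

namespace Pool.Agent.H943R3.PP.Stub

open Pool.Agent.NPC Pool.Agent.H620R2.Gauge Finset H568R2 Pool.Agent.H676 Pool.Agent.H943R3.PP

section K

variable {I : Type} [Fintype I] [DecidableEq I]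

/-- K1 -/
theorem exists_orth (E L : Finset (I → Bool)) (h : L.card < E.card) :
    ∃ f : (I → Bool) → ℝ, f ≠ 0 ∧ (∀ a, a ∉ E → f a = 0) ∧ ∀ S ∈ L, co f S = 0 := by sorry

/-- K2 -/
theorem qq_nonneg (l k : ℕ) (x : ℝ) : 0 ≤ qq l k x := by sorry

/-- K2 -/
theorem sD_pos {l k : ℕ} {x : ℝ} (h1 : 1 ≤ |x|) (h2 : |x| ≤ 2 ^ l) : 0 < sD l k x := by sorry

/-- K2 -/
theorem sN_abs_le {l k : ℕ} (x : ℝ) : |sN l k x| ≤ sD l k x := by sorry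

/-- K2 -/
theorem sND_sign {l k : ℕ} {x : ℝ} (h1 : 1 ≤ |x|) (h2 : |x| ≤ 2 ^ l) :
    |sN l k x / sD l k x - (if 0 < x then 1 else -1)| ≤ 2 * (1 / 9) ^ k := by sorry

/-- K2 -/
theorem deg_sN {q l k : ℕ} {P : (I → Bool) → ℝ} (h : Deg q P) :
    Deg (2 * k * (l + 1) * q) (fun a => sN l k (P a)) := by sorry

/-- K2 -/
theorem deg_sD {q l k : ℕ} {P : (I → Bool) → ℝ} (h : Deg q P) :
    Deg (2 * k * (l + 1) * q) (fun a => sD l k (P a)) := by sorry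

/-- K3 -/
theorem card_EE_le {ι : Type} [DecidableEq ι] (X : Finset ι) (B : ι → Finset I)
    (hB : ∀ x ∈ X, ∀ x' ∈ X, x ≠ x' → Disjoint (B x) (B x'))
    (P : ι → (I → Bool) → ℝ) (q l : ℕ) (hdeg : ∀ x ∈ X, Deg q (P x))
    (h1 : ∀ x ∈ X, ∀ a, 1 ≤ |P x a|) (h2 : ∀ x ∈ X, ∀ a, |P x a| ≤ 2 ^ l) :
    (EE X B P).card ≤ (LL X B (2 * X.card ^ 2 * (l + 1) * q)).card := by sorry

/-- K5 -/
theorem binom_low (T D : ℕ) (h : 16 * (D + 1) ^ 2 ≤ T) :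
    (((Finset.range T).powerset.filter (fun s => s.card ≤ T / 2 + D)).card : ℝ) ≤
      3 / 4 * 2 ^ T := by sorry

/-- K4 -/
theorem card_LL_le {ι : Type} [DecidableEq ι] (X : Finset ι) (B : ι → Finset I)
    (hB : ∀ x ∈ X, ∀ x' ∈ X, x ≠ x' → Disjoint (B x) (B x')) (D : ℕ)
    (hD : ∀ x ∈ X, 16 * (D + 1) ^ 2 ≤ (B x).card) :
    ((LL X B D).card : ℝ) ≤ (3 / 4) ^ X.card * 2 ^ Fintype.card I := by sorry

/-- K6 -/
theorem ptf_bound {ι : Type} [DecidableEq ι] (ρ : Restr I) (X : Finset ι) (B : ι → Finset I)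
    (hB : ∀ x ∈ X, ∀ x' ∈ X, x ≠ x' → Disjoint (B x) (B x')) (G : ι → (I → Bool) → ℝ) (t l : ℕ)
    (hG : ∀ x ∈ X, Deg t (fun a => G x (ov ρ a))) (h1 : ∀ x ∈ X, ∀ a, 1 ≤ |G x a|)
    (h2 : ∀ x ∈ X, ∀ a, |G x a| ≤ 2 ^ l)
    (hs : ∀ x ∈ X, 16 * (2 * X.card ^ 2 * (l + 1) * t + 1) ^ 2 ≤
      ((B x).filter (fun i => ρ i = none)).card) :
    Ex unif (fun a : I → Bool =>
      if ∀ x ∈ X, (0 < G x (ov ρ a) ↔ par (B x) (ov ρ a) = true) then (1 : ℝ) else 0) ≤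
      (3 / 4) ^ X.card := by sorry

open Classical in
/-- M1 -/
theorem comb2 {t : ℕ} (ht : 1 ≤ t) {q : ℝ} (h0 : 0 ≤ q) (h1 : q ≤ 1 / 3) (m : ℕ)
    (F : List Bool → (I → Bool) → Bool) (k ℓ r₀ : ℕ)
    (hF : ∀ y : List Bool, y.length ≤ ℓ + (2 * r₀ + 1) + k * (2 * m + 1) → DTr t (F y))
    {ι η : Type} [DecidableEq ι] (X : Finset ι) (B : ι → Finset I)
    (hB : ∀ x ∈ X, ∀ x' ∈ X, x ≠ x' → Disjoint (B x) (B x'))
    (H : Finset η) (y : ι → η → List Bool) (hy : ∀ x ∈ X, ∀ h ∈ H, (y x h).length ≤ ℓ)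
    (r s : ℕ) (hr : 16 * (2 * X.card ^ 2 * (r₀ + 3) * t + 1) ^ 2 ≤ r)
    (hs : ∀ x ∈ X, (r + 1) * s ≤ (B x).card) :
    Ex unif (fun a : I → Bool =>
      if ∃ h ∈ H, ∀ x ∈ X, (0 < maj m F k r₀ (y x h) a ↔ par (B x) a = true)
        then (1 : ℝ) else 0) ≤
      k * 2 ^ (ℓ + (2 * r₀ + 1) + k * (2 * m + 1) + 2) * (12 * t * q) ^ (t + 1) +
        X.card * ((r + 1) * (1 - q ^ k) ^ s) + H.card * (3 / 4) ^ X.card := by sorry

end K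

open Classical in
/-- M2 -/
theorem ev2_bound (θ : Par2) {n N u : ℕ} (hP : θ.P.eval n ≤ 2 ^ (2 * u))
    (hu : 40 * (θ.k + 1) * u ≤ n) (hN : 2 ^ (2 * n + 1) ≤ N + 1) :
    Ex unif (fun a : Fin N → Bool => if Ev2 θ n N u a then (1 : ℝ) else 0) ≤
      bnd2 θ.k θ.P n u := by sorry

/-- M3 -/
theorem asym2 (k : ℕ) (P Q : Polynomial ℕ) (f : ℕ → ℝ) (hf : Cond f) (δ : ℝ) (hδ : 0 < δ)
    (n₀ : ℕ) :
    ∃ n N u : ℕ, n₀ ≤ n ∧ P.eval n ≤ 2 ^ (2 * u) ∧ 40 * (k + 1) * u ≤ n ∧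
      2 ^ (Q.eval n + 1) ≤ N ∧ bnd2 k P n u * 2 ^ f N ≤ δ := by sorry

/-- M4 -/
theorem null2 (f : ℕ → ℝ) (hf : Cond f) (O : Set Oracle)
    (hO : ∀ A ∈ O, WithAdvice (IsPPPH A) (parLang A)) : Null f O := by sorry

/-- N1 -/
theorem isPH_of_isNP {A : Oracle} {L : Set (List Bool)} (h : IsNP A L) : IsPH A L := by sorry

/-- N1 -/
theorem isPH_of_isNP_compl {A : Oracle} {L : Set (List Bool)} (h : IsNP A Lᶜ) : IsPH A L := by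
  sorry

/-- N2 -/
theorem isPSPACE_of_isPP {A : Oracle} {L : Set (List Bool)} (h : IsPP A L) : IsPSPACE A L := by
  sorry

/-- N3 -/
theorem isPH_ex {A : Oracle} {L : Set (List Bool)} (h : IsPH A L) (r : Polynomial ℕ) :
    IsPH A {x | ∃ w : List Bool, w.length ≤ r.eval x.length ∧ pairBits w x ∈ L} := by sorry

/-- N4 -/
theorem exLang_pp (A : Oracle) : IsPP A (exLang A) := by sorry

/-- N5 -/
theorem parLang_ph {A : Oracle} (h : ∀ L, IsPP A L → IsPH A L) : IsPH A (parLang A) := by sorry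

/-- N6 -/
theorem isPP_of_isP {A : Oracle} {L : Set (List Bool)} (h : IsP A L) : IsPP A L := by sorry

/-- N6 -/
theorem isPPPH_of_isPP {A : Oracle} {L : Set (List Bool)} (h : IsPP A L) : IsPPPH A L := by sorry

end Pool.Agent.H943R3.PP.Stub
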