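import Pool.Agent.H620R2.Gauge.Defs

/-! The union of two null sets is a null set. -/

namespace Pool.Agent.H943R3.PP

open Pool.Agent.H620R2.Gauge

theorem null_union {f : ℕ → ℝ} {X Y : Set Oracle} (hX : Null f X) (hY : Null f Y) :
    Null f (X ∪ Y) := by
  intro δ hδ
  obtain ⟨S, hS, hS'⟩ := hX (δ / 2) (by positivity)
  obtain ⟨T, hT, hT'⟩ := hY (δ / 2) (by positivity)
  refine ⟨S ∪ T, ?_, ?_⟩
  · rintro A (hA | hA)
    · obtain ⟨σ, h1, h2⟩ := hS A hA
      exact ⟨σ, Or.inl h1, h2⟩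
    · obtain ⟨σ, h1, h2⟩ := hT A hA
      exact ⟨σ, Or.inr h1, h2⟩
  · refine (ENNReal.tsum_union_le (fun σ : List Bool =>
      ENNReal.ofReal (2 ^ (f σ.length - σ.length))) S T).trans ?_
    refine (add_le_add hS' hT').trans ?_
    rw [← ENNReal.ofReal_add (by positivity) (by positivity), add_halves]

theorem null_mono {f : ℕ → ℝ} {X Y : Set Oracle} (h : X ⊆ Y) (hY : Null f Y) : Null f X := by
  intro δ hδ
  obtain ⟨T, hT, hT'⟩ := hY δ hδ
  exact ⟨T, fun A hA => hT A (h hA), hT'⟩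

end Pool.Agent.H943R3.PP
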